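import Pool.Agent.H44.Basic

/-!
Clique polynomial of the graph `J_r^*(n)` (module [JG] for MP_cab404_co).
-/

namespace Pool.Agent.H64.CabJG

open Finset Polynomial Pool.Agent.H44

section general

variable {V : Type*} [Fintype V] [DecidableEq V] {G : SimpleGraph V} [DecidableRel G.Adj]

lemma cp_empty : cp G ∅ = 1 := by
  have : cl G (∅ : Finset V) = {∅} := by
    ext s
    simp only [mem_cl, subset_empty, mem_singleton, and_iff_left_iff_imp]
    rintro rfl
    simp
  simp [cp, this]

/-- clique polynomial of a join -/
lemma cp_join {A B : Finset V} (h : ∀ a ∈ A, ∀ b ∈ B, G.Adj a b) :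
    cp G (A ∪ B) = cp G A * cp G B := by
  have hd : Disjoint A B := by
    rw [Finset.disjoint_left]
    intro x h1 h2
    exact G.irrefl (h x h1 x h2)
  unfold cp
  rw [sum_mul_sum, ← sum_product']
  symm
  refine Finset.sum_bij' (fun p _ => p.1 ∪ p.2) (fun s _ => (s ∩ A, s ∩ B)) ?_ ?_ ?_ ?_ ?_
  · rintro ⟨s, t⟩ hst
    simp only [mem_product, mem_cl] at hst
    rw [mem_cl, isClique_union]
    exact ⟨union_subset_union hst.1.1 hst.2.1, hst.1.2, hst.2.2,
      fun x hx y hy _ => h x (hst.1.1 hx) y (hst.2.1 hy)⟩
  · intro s hs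
    rw [mem_cl] at hs
    simp only [mem_product, mem_cl]
    exact ⟨⟨inter_subset_right, isClique_mono inter_subset_left hs.2⟩,
      ⟨inter_subset_right, isClique_mono inter_subset_left hs.2⟩⟩
  · rintro ⟨s, t⟩ hst
    simp only [mem_product, mem_cl] at hst
    have h1 := hst.1.1
    have h2 := hst.2.1
    simp only [Prod.mk.injEq]
    constructor
    · ext x
      simp only [mem_inter, mem_union]
      constructor
      · rintro ⟨hx | hx, hA⟩
        · exact hx
        · exact absurd (h2 hx) (Finset.disjoint_left.1 hd hA)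
      · intro hx; exact ⟨Or.inl hx, h1 hx⟩
    · ext x
      simp only [mem_inter, mem_union]
      constructor
      · rintro ⟨hx | hx, hB⟩
        · exact absurd hB (Finset.disjoint_left.1 hd (h1 hx))
        · exact hx
      · intro hx; exact ⟨Or.inr hx, h2 hx⟩
  · intro s hs
    rw [mem_cl] at hs
    simp only
    rw [← inter_union_distrib_left]
    exact inter_eq_left.2 hs.1
  · rintro ⟨s, t⟩ hst
    simp only [mem_product, mem_cl] at hst
    simp only
    rw [card_union_of_disjoint (disjoint_of_subset_left hst.1.1 (disjoint_of_subset_right hst.2.1 hd)),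
      pow_add]

lemma cp_biUnion {ι : Type*} [DecidableEq ι] (B : ι → Finset V) (S : Finset ι)
    (h : ∀ i ∈ S, ∀ j ∈ S, i ≠ j → ∀ a ∈ B i, ∀ b ∈ B j, G.Adj a b) :
    cp G (S.biUnion B) = ∏ i ∈ S, cp G (B i) := by
  induction S using Finset.induction_on with
  | empty => simp [cp_empty]
  | insert i S hi ih =>
    rw [biUnion_insert, prod_insert hi, cp_join, ih]
    · intro j hj k hk hjk
      exact h j (mem_insert_of_mem hj) k (mem_insert_of_mem hk) hjk
    · intro a ha b hb
      obtain ⟨j, hj, hb⟩ := mem_biUnion.1 hb
      exact h i (mem_insert_self _ _) j (mem_insert_of_mem hj) (by rintro rfl; exact hi hj) a ha b hb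

lemma cp_pair {a b : V} (hab : a ≠ b) (h : ¬ G.Adj a b) : cp G {a, b} = 1 + 2 * X := by
  have : cl G ({a, b} : Finset V) = {∅, {a}, {b}} := by
    ext s
    simp only [mem_cl, mem_insert, mem_singleton]
    constructor
    · rintro ⟨h1, h2⟩
      by_cases ha : a ∈ s <;> by_cases hb : b ∈ s
      · exact absurd (h2 (by exact_mod_cast ha) (by exact_mod_cast hb) hab) h
      · right; left
        ext x
        simp only [mem_singleton]
        constructor
        · intro hx
          rcases mem_insert.1 (h1 hx) with h | h
          · exact h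
          · rw [mem_singleton.1 h] at hx; exact absurd hx hb
        · rintro rfl; exact ha
      · right; right
        ext x
        simp only [mem_singleton]
        constructor
        · intro hx
          rcases mem_insert.1 (h1 hx) with h | h
          · rw [h] at hx; exact absurd hx ha
          · exact mem_singleton.1 h
        · rintro rfl; exact hb
      · left
        ext x
        simp only [notMem_empty, iff_false]
        intro hx
        rcases mem_insert.1 (h1 hx) with h | h
        · rw [h] at hx; exact ha hx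
        · rw [mem_singleton.1 h] at hx; exact hb hx
    · rintro (rfl | rfl | rfl) <;> simp
  have h1 : (∅ : Finset V) ∉ ({{a}, {b}} : Finset (Finset V)) := by
    simp only [mem_insert, mem_singleton, not_or]
    exact ⟨(singleton_ne_empty a).symm, (singleton_ne_empty b).symm⟩
  have h2 : ({a} : Finset V) ∉ ({{b}} : Finset (Finset V)) := by
    simpa using hab
  rw [cp, this, sum_insert h1, sum_insert h2, sum_singleton]
  simp only [card_empty, card_singleton, pow_zero, pow_one]
  ring

lemma cp_cycle {n : ℕ} (hn : 4 ≤ n) (v : Fin n → V) (hv : Function.Injective v)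
    (hadj : ∀ x y : Fin n, G.Adj (v x) (v y) ↔
      (x.val + 1) % n = y.val ∨ (y.val + 1) % n = x.val) :
    cp G (univ.image v) = 1 + (n : ℤ[X]) * X * (1 + X) := by
  have key : ∀ x y : Fin n, (x.val + 1) % n = y.val ↔
      (x.val + 1 = y.val ∨ (x.val + 1 = n ∧ y.val = 0)) := by
    intro x y
    rcases Nat.lt_or_ge (x.val + 1) n with h | h
    · rw [Nat.mod_eq_of_lt h]; omega
    · have : x.val + 1 = n := by omega
      rw [this, Nat.mod_self]; omega
  have hadj' : ∀ x y : Fin n, G.Adj (v x) (v y) ↔
      ((x.val + 1 = y.val ∨ (x.val + 1 = n ∧ y.val = 0)) ∨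
        (y.val + 1 = x.val ∨ (y.val + 1 = n ∧ x.val = 0))) := by
    intro x y
    rw [hadj, key, key]
  set nx : Fin n → Fin n := fun x => ⟨(x.val + 1) % n, Nat.mod_lt _ (by omega)⟩ with hnx
  have hnx' : ∀ x : Fin n, (x.val + 1 = (nx x).val ∨ (x.val + 1 = n ∧ (nx x).val = 0)) := by
    intro x
    exact (key x (nx x)).1 rfl
  have hnx2 : ∀ x y : Fin n, (x.val + 1 = y.val ∨ (x.val + 1 = n ∧ y.val = 0)) → nx x = y := by
    intro x y h
    have := (key x y).2 h
    exact Fin.ext this
  have hne : ∀ x, v x ≠ v (nx x) := by
    intro x h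
    have h1 := hv h
    have h2 := hnx' x
    rw [← h1] at h2
    omega
  have hcl : cl G (univ.image v) = insert ∅ ((univ.image fun x => ({v x} : Finset V)) ∪
      univ.image fun x => ({v x, v (nx x)} : Finset V)) := by
    ext s
    simp only [mem_cl, mem_insert, mem_union, mem_image, mem_univ, true_and]
    constructor
    · rintro ⟨h1, h2⟩
      have hs : ∀ a ∈ s, ∃ x, v x = a := by
        intro a ha
        obtain ⟨x, _, hx⟩ := mem_image.1 (h1 ha)
        exact ⟨x, hx⟩
      rcases Nat.lt_or_ge 2 s.card with hc | hc
      · exfalso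
        obtain ⟨a, b, c, ha, hb, hc', hab, hac, hbc⟩ := Finset.two_lt_card_iff.1 hc
        have e1 := h2 (by exact_mod_cast ha) (by exact_mod_cast hb) hab
        have e2 := h2 (by exact_mod_cast ha) (by exact_mod_cast hc') hac
        have e3 := h2 (by exact_mod_cast hb) (by exact_mod_cast hc') hbc
        obtain ⟨x, rfl⟩ := hs a ha
        obtain ⟨y, rfl⟩ := hs b hb
        obtain ⟨z, rfl⟩ := hs c hc'
        rw [hadj'] at e1 e2 e3
        have g1 : x.val ≠ y.val := fun h => hab (congrArg v (Fin.ext h))
        have g2 : x.val ≠ z.val := fun h => hac (congrArg v (Fin.ext h))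
        have g3 : y.val ≠ z.val := fun h => hbc (congrArg v (Fin.ext h))
        omega
      · have : s.card = 0 ∨ s.card = 1 ∨ s.card = 2 := by omega
        rcases this with h | h | h
        · left; exact card_eq_zero.1 h
        · right; left
          obtain ⟨a, rfl⟩ := card_eq_one.1 h
          obtain ⟨x, rfl⟩ := hs a (mem_singleton_self a)
          exact ⟨x, rfl⟩
        · right; right
          obtain ⟨a, b, hab, rfl⟩ := card_eq_two.1 h
          obtain ⟨x, rfl⟩ := hs a (by simp)
          obtain ⟨y, rfl⟩ := hs b (by simp)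
          have e1 := h2 (by simp) (by simp) hab
          rw [hadj'] at e1
          rcases e1 with e | e
          · exact ⟨x, by rw [hnx2 x y e]⟩
          · exact ⟨y, by rw [hnx2 y x e, pair_comm]⟩
    · rintro (rfl | ⟨x, rfl⟩ | ⟨x, rfl⟩)
      · simp
      · refine ⟨by simp, by simp⟩
      · refine ⟨?_, ?_⟩
        · intro a ha
          simp only [mem_insert, mem_singleton] at ha
          rcases ha with rfl | rfl <;> exact mem_image_of_mem _ (mem_univ _)
        · intro a ha b hb hab
          have hx : G.Adj (v x) (v (nx x)) := (hadj' _ _).2 (Or.inl (hnx' x))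
          simp only [coe_insert, coe_singleton, Set.mem_insert_iff, Set.mem_singleton_iff] at ha hb
          rcases ha with rfl | rfl <;> rcases hb with rfl | rfl
          · exact absurd rfl hab
          · exact hx
          · exact hx.symm
          · exact absurd rfl hab
  rw [cp, hcl, sum_insert, sum_union, sum_image, sum_image]
  · have e1 : ∀ x : Fin n, (X : ℤ[X]) ^ ({v x} : Finset V).card = X := by simp
    have e2 : ∀ x : Fin n, (X : ℤ[X]) ^ ({v x, v (nx x)} : Finset V).card = X ^ 2 := by
      intro x
      rw [card_pair (hne x)]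
    simp only [e1, e2, card_empty, pow_zero, sum_const, card_univ, Fintype.card_fin, nsmul_eq_mul]
    ring
  · intro x _ y _ h
    have h' : ({v x, v (nx x)} : Finset V) = {v y, v (nx y)} := h
    have m1 : v x ∈ ({v y, v (nx y)} : Finset V) := by rw [← h']; simp
    have m2 : v (nx x) ∈ ({v y, v (nx y)} : Finset V) := by rw [← h']; simp
    simp only [mem_insert, mem_singleton] at m1 m2
    rcases m1 with m1 | m1
    · exact hv m1
    · have k1 := hv m1
      have k2 := hnx' x
      have k3 := hnx' y
      rw [← k1] at k3
      rcases m2 with m2 | m2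
      · have k4 := hv m2
        rw [k4] at k2
        omega
      · have k4 := hv m2
        rw [k4, ← k1] at k2
        omega
  · intro x _ y _ h
    exact hv (singleton_injective h)
  · rw [Finset.disjoint_left]
    rintro s h1 h2
    obtain ⟨x, _, rfl⟩ := mem_image.1 h1
    obtain ⟨y, _, hy⟩ := mem_image.1 h2
    have := congrArg card hy
    rw [card_pair (hne y), card_singleton] at this
    omega
  · simp only [mem_union, mem_image, mem_univ, true_and, not_or, not_exists]
    refine ⟨fun x => singleton_ne_empty _, fun x => insert_ne_empty _ _⟩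

end general

/-- adjacency in the join of `r` cycles of lengths `m j`. -/
def JAdj {r : ℕ} (m : Fin r → ℕ) (a b : (j : Fin r) × Fin (m j)) : Prop :=
  a.1 ≠ b.1 ∨ a ≠ b ∧ ((a.2.val + 1) % m a.1 = b.2.val ∨ (b.2.val + 1) % m b.1 = a.2.val)

/-- adjacency in `J_r^*`: the join of the cycles and of two nonadjacent vertices -/
def StarAdj {r : ℕ} (m : Fin r → ℕ) : (((j : Fin r) × Fin (m j)) ⊕ Fin 2) →
    (((j : Fin r) × Fin (m j)) ⊕ Fin 2) → Prop
  | .inl a, .inl b => JAdj m a b
  | .inl _, .inr _ => True
  | .inr _, .inl _ => True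
  | .inr _, .inr _ => False

/-- The graph `J_r^*` -/
def JStar {r : ℕ} (m : Fin r → ℕ) : SimpleGraph (((j : Fin r) × Fin (m j)) ⊕ Fin 2) where
  Adj := StarAdj m
  symm := by
    constructor
    rintro (a | a) (b | b) h
    · rcases h with h | ⟨h1, h2⟩
      · exact Or.inl h.symm
      · exact Or.inr ⟨h1.symm, h2.symm⟩
    · trivial
    · trivial
    · exact h
  loopless := by
    constructor
    rintro (a | a) h
    · rcases h with h | ⟨h1, _⟩
      · exact h rfl
      · exact h1 rfl
    · exact h

instance {r : ℕ} (m : Fin r → ℕ) : DecidableRel (JStar m).Adj := by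
  intro a b
  show Decidable (StarAdj m a b)
  rcases a with a | a <;> rcases b with b | b
  · unfold StarAdj JAdj; infer_instance
  · unfold StarAdj; infer_instance
  · unfold StarAdj; infer_instance
  · unfold StarAdj; infer_instance

lemma JStar_adj {r : ℕ} (m : Fin r → ℕ) (a b) : (JStar m).Adj a b ↔ StarAdj m a b := Iff.rfl

/-- **[JG]** -/
theorem cp_JStar {r : ℕ} (m : Fin r → ℕ) (hm : ∀ j, 4 ≤ m j) :
    cp (JStar m) univ = (1 + 2 * X) * ∏ j, (1 + (m j : ℤ[X]) * X * (1 + X)) := by
  set B : Fin r → Finset (((j : Fin r) × Fin (m j)) ⊕ Fin 2) :=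
    fun j => univ.image (fun x : Fin (m j) => Sum.inl ⟨j, x⟩) with hB
  have hu : (univ : Finset (((j : Fin r) × Fin (m j)) ⊕ Fin 2)) =
      {Sum.inr 0, Sum.inr 1} ∪ univ.biUnion B := by
    ext a
    simp only [mem_univ, mem_union, mem_insert, mem_singleton, mem_biUnion, true_and, true_iff, hB,
      mem_image]
    rcases a with ⟨j, x⟩ | a
    · right; exact ⟨j, x, rfl⟩
    · left
      fin_cases a
      · left; rfl
      · right; rfl
  rw [hu, cp_join, cp_biUnion, cp_pair]
  · congr 1
    refine prod_congr rfl fun j _ => ?_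
    refine cp_cycle (hm j) _ ?_ ?_
    · intro x y h
      simpa using h
    · intro x y
      rw [JStar_adj]
      unfold StarAdj JAdj
      simp only [ne_eq, not_true_eq_false, false_or]
      constructor
      · rintro ⟨_, h⟩; exact h
      · intro h
        refine ⟨?_, h⟩
        intro hxy
        have hxy' : x = y := by simpa using hxy
        subst hxy'
        have h4 := hm j
        have : (x.val + 1) % m j = x.val := by simpa using h
        rcases Nat.lt_or_ge (x.val + 1) (m j) with h' | h'
        · rw [Nat.mod_eq_of_lt h'] at this; omega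
        · have h5 : x.val + 1 = m j := by have := x.2; omega
          rw [h5, Nat.mod_self] at this
          omega
  · simp
  · intro h; exact h
  · intro i _ j _ hij a ha b hb
    obtain ⟨x, _, rfl⟩ := mem_image.1 ha
    obtain ⟨y, _, rfl⟩ := mem_image.1 hb
    exact Or.inl hij
  · intro a ha b hb
    obtain ⟨j, _, hj⟩ := mem_biUnion.1 hb
    obtain ⟨y, _, rfl⟩ := mem_image.1 hj
    simp only [mem_insert, mem_singleton] at ha
    rcases ha with rfl | rfl <;> trivial

end Pool.Agent.H64.CabJG
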