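import Mathlib

/-!
Balanced vectors maximise elementary symmetric functions (module [SM] for MP_cab404_co).
-/

namespace Pool.Agent.H64.CabSM

open Finset

variable {ι : Type*} [DecidableEq ι]

/-- elementary symmetric function of degree `l` of `a` over `s`. -/
def E (a : ι → ℕ) (s : Finset ι) (l : ℕ) : ℕ := ∑ T ∈ s.powersetCard l, ∏ j ∈ T, a j

lemma E_insert (a : ι → ℕ) {s : Finset ι} {x : ι} (hx : x ∉ s) (l : ℕ) :
    E a (insert x s) (l + 1) = E a s (l + 1) + a x * E a s l := by
  unfold E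
  rw [powersetCard_succ_insert hx, sum_union, sum_image, mul_sum]
  · congr 1
    refine sum_congr rfl fun T hT => ?_
    rw [prod_insert]
    intro h
    exact hx ((mem_powersetCard.1 hT).1 h)
  · intro T hT T' hT' h
    have h1 : x ∉ T := fun h' => hx ((mem_powersetCard.1 hT).1 h')
    have h2 : x ∉ T' := fun h' => hx ((mem_powersetCard.1 hT').1 h')
    rw [← erase_insert h1, ← erase_insert h2, h]
  · rw [disjoint_left]
    intro T hT hT'
    obtain ⟨T', _, rfl⟩ := mem_image.1 hT'
    exact hx ((mem_powersetCard.1 hT).1 (mem_insert_self x T'))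

lemma E_zero (a : ι → ℕ) (s : Finset ι) : E a s 0 = 1 := by
  simp [E]

lemma E_congr {a b : ι → ℕ} {s : Finset ι} (h : ∀ x ∈ s, a x = b x) (l : ℕ) :
    E a s l = E b s l := by
  unfold E
  refine sum_congr rfl fun T hT => prod_congr rfl fun x hx => h x ((mem_powersetCard.1 hT).1 hx)

/-- the step: a transfer between two coordinates -/
lemma E_step (a b : ι → ℕ) {s : Finset ι} {i j : ι} (hij : i ≠ j) (hi : i ∈ s) (hj : j ∈ s)
    (hab : ∀ x, x ≠ i → x ≠ j → a x = b x) (h1 : a i + a j = b i + b j)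
    (h2 : a i * a j ≤ b i * b j) (l : ℕ) : E a s l ≤ E b s l := by
  obtain ⟨u, hiu, hju, rfl⟩ : ∃ u : Finset ι, j ∉ u ∧ i ∉ insert j u ∧ s = insert i (insert j u) := by
    refine ⟨(s.erase i).erase j, by simp, ?_, ?_⟩
    · rw [insert_erase (mem_erase.2 ⟨hij.symm, hj⟩)]; simp
    · rw [insert_erase (mem_erase.2 ⟨hij.symm, hj⟩), insert_erase hi]
  have hu : ∀ l, E a u l = E b u l := by
    intro l
    refine E_congr (fun x hx => hab x ?_ ?_) l
    · rintro rfl; exact hju (mem_insert_of_mem hx)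
    · rintro rfl; exact hiu hx
  rcases l with _ | _ | l
  · simp [E_zero]
  · rw [E_insert a hju, E_insert a hiu, E_insert b hju, E_insert b hiu, E_zero, E_zero, E_zero, E_zero,
      hu]
    omega
  · rw [E_insert a hju, E_insert a hiu, E_insert a hiu, E_insert b hju, E_insert b hiu,
      E_insert b hiu, hu, hu, hu]
    have : a i * (a j * E b u l) ≤ b i * (b j * E b u l) := by
      rw [← mul_assoc, ← mul_assoc]
      exact Nat.mul_le_mul_right _ h2
    have h3 : (a i + a j) * E b u (l + 1) = (b i + b j) * E b u (l + 1) := by rw [h1]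
    nlinarith [this, h3]

lemma E_le_aux [Fintype ι] (m : ι → ℕ) (hbal : ∀ j k, m j ≤ m k + 1) (l : ℕ) :
    ∀ (N : ℕ) (a : ι → ℕ), ∑ i, ((a i - m i) + (m i - a i)) ≤ N → ∑ i, a i = ∑ i, m i →
      E a univ l ≤ E m univ l := by
  intro N
  induction N using Nat.strong_induction_on with
  | _ N ih =>
  intro a hN hsum
  by_cases ham : a = m
  · rw [ham]
  obtain ⟨i, hi⟩ : ∃ i, m i < a i := by
    by_contra hcon
    push Not at hcon
    apply ham
    funext x
    exact (sum_eq_sum_iff_of_le (fun i _ => hcon i)).1 hsum x (mem_univ x)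
  obtain ⟨j, hj⟩ : ∃ j, a j < m j := by
    by_contra hcon
    push Not at hcon
    have := (sum_eq_sum_iff_of_le (fun i _ => hcon i)).1 hsum.symm i (mem_univ i)
    omega
  have hij : i ≠ j := by rintro rfl; omega
  have hb := hbal j i
  set b : ι → ℕ := Function.update (Function.update a i (a i - 1)) j (a j + 1) with hbdef
  have hbi : b i = a i - 1 := by simp [hbdef, hij]
  have hbj : b j = a j + 1 := by simp [hbdef]
  have hbx : ∀ x, x ≠ i → x ≠ j → a x = b x := by
    intro x h1 h2
    simp [hbdef, h1, h2]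
  have hsumb : ∀ f : ι → ℕ → ℕ, ∑ x, f x (b x) + f i (a i) + f j (a j) =
      ∑ x, f x (a x) + f i (a i - 1) + f j (a j + 1) := by
    intro f
    have e1 : ∀ c : ι → ℕ, ∑ x, f x (c x) = ∑ x ∈ (univ.erase i).erase j, f x (c x) + f j (c j) + f i (c i) := by
      intro c
      rw [← sum_erase_add univ _ (mem_univ i), ← sum_erase_add (univ.erase i) _
        (mem_erase.2 ⟨hij.symm, mem_univ j⟩)]
    rw [e1 b, e1 a, hbi, hbj]
    have : ∑ x ∈ (univ.erase i).erase j, f x (b x) = ∑ x ∈ (univ.erase i).erase j, f x (a x) := by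
      refine sum_congr rfl fun x hx => ?_
      rw [mem_erase, mem_erase] at hx
      rw [hbx x hx.2.1 hx.1]
    rw [this]
    ring
  have s1 := hsumb (fun _ t => t)
  have s2 := hsumb (fun x t => (t - m x) + (m x - t))
  have s1' : ∑ x, b x + a i + a j = ∑ x, a x + (a i - 1) + (a j + 1) := s1
  have step : E a univ l ≤ E b univ l := by
    refine E_step a b hij (mem_univ i) (mem_univ j) hbx ?_ ?_ l
    · rw [hbi, hbj]; omega
    · rw [hbi, hbj]
      obtain ⟨c, hc⟩ : ∃ c, a i = c + 1 := ⟨a i - 1, by omega⟩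
      rw [hc, Nat.add_sub_cancel]
      have : a j ≤ c := by omega
      nlinarith
  refine step.trans (ih (∑ x, ((b x - m x) + (m x - b x))) ?_ b le_rfl ?_)
  · omega
  · omega

/-- **[SM]** -/
theorem esymm_le_of_balanced {r : ℕ} (a m : Fin r → ℕ) (hsum : ∑ i, a i = ∑ i, m i)
    (hbal : ∀ j k, m j ≤ m k + 1) (l : ℕ) :
    ∑ T ∈ (univ : Finset (Fin r)).powersetCard l, ∏ j ∈ T, a j ≤
      ∑ T ∈ (univ : Finset (Fin r)).powersetCard l, ∏ j ∈ T, m j :=
  E_le_aux m hbal l _ a le_rfl hsum

end Pool.Agent.H64.CabSM
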