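import Mathlib
import Pool.Agent.H48.FIrrCnt

/-!
Embedding counts for relations on three vertices as sums over pairs.
-/

namespace Pool.Agent.H64.FIrrCnt3

open Pool.Agent.H48.FIrr Finset

/-- functions on `Fin 3` as triples -/
def triEquiv (V : Type*) : (Fin 3 → V) ≃ V × V × V where
  toFun f := (f 0, f 1, f 2)
  invFun t := ![t.1, t.2.1, t.2.2]
  left_inv f := by
    ext i
    fin_cases i <;> rfl
  right_inv t := rfl

open Classical in
/-- the count as sums over pairs -/
lemma cnt_three {V : Type*} [Fintype V] (R : Fin 3 → Fin 3 → Prop) (E : V → V → Prop) (p : V)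
    (Q : V → V → V → Prop)
    (hQ : ∀ x y z, Q x y z ↔ (Function.Injective ![x, y, z] ∧
      ∀ a b, R a b → E ((![x, y, z] : Fin 3 → V) a) ((![x, y, z] : Fin 3 → V) b))) :
    cnt R E p = (∑ x : V, ∑ y : V, if Q p x y then 1 else 0) +
      (∑ x : V, ∑ y : V, if Q x p y then 1 else 0) +
      (∑ x : V, ∑ y : V, if Q x y p then 1 else 0) := by
  unfold cnt
  have e1 : Nat.card {f : Fin 3 → V // Function.Injective f ∧ (∀ a b, R a b → E (f a) (f b)) ∧
      ∃ a, f a = p} = Nat.card {t : V × V × V // Q t.1 t.2.1 t.2.2 ∧
        (t.1 = p ∨ t.2.1 = p ∨ t.2.2 = p)} := by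
    refine Nat.card_congr ((triEquiv V).subtypeEquiv ?_)
    intro f
    have hf : f = ![f 0, f 1, f 2] := ((triEquiv V).left_inv f).symm
    change _ ↔ (Q (f 0) (f 1) (f 2) ∧ (f 0 = p ∨ f 1 = p ∨ f 2 = p))
    rw [hQ, ← hf]
    constructor
    · rintro ⟨h1, h2, a, ha⟩
      refine ⟨⟨h1, h2⟩, ?_⟩
      fin_cases a
      · exact Or.inl ha
      · exact Or.inr (Or.inl ha)
      · exact Or.inr (Or.inr ha)
    · rintro ⟨⟨h1, h2⟩, h3⟩
      refine ⟨h1, h2, ?_⟩
      rcases h3 with h | h | h
      exacts [⟨0, h⟩, ⟨1, h⟩, ⟨2, h⟩]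
  have hne : ∀ x y z, Q x y z → x ≠ y ∧ x ≠ z ∧ y ≠ z := by
    intro x y z h
    have hi := ((hQ x y z).1 h).1
    refine ⟨fun h => ?_, fun h => ?_, fun h => ?_⟩
    · have := @hi 0 1 h
      simp at this
    · have := @hi 0 2 h
      simp at this
    · have := @hi 1 2 h
      simp at this
  rw [e1, Nat.card_eq_fintype_card, Fintype.card_subtype, Finset.card_filter,
    Fintype.sum_prod_type]
  simp_rw [Fintype.sum_prod_type]
  have e2 : ∀ x y z : V, (if Q x y z ∧ (x = p ∨ y = p ∨ z = p) then 1 else 0 : ℕ) =
      (if x = p then (if Q p y z then 1 else 0) else 0) +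
      (if y = p then (if Q x p z then 1 else 0) else 0) +
      (if z = p then (if Q x y p then 1 else 0) else 0) := by
    intro x y z
    by_cases h : Q x y z
    · obtain ⟨h1, h2, h3⟩ := hne _ _ _ h
      by_cases hx : x = p
      · subst hx
        simp [h, h1.symm, h2.symm]
      · by_cases hy : y = p
        · subst hy
          simp [h, hx, h3.symm]
        · by_cases hz : z = p
          · subst hz
            simp [h, hx, hy]
          · simp [h, hx, hy, hz]
    · by_cases hx : x = p
      · subst hx
        have : ∀ (c : Prop) [Decidable c], (if Q x y z ∧ c then 1 else 0 : ℕ) = 0 := by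
          intro c _; simp [h]
        by_cases hy : y = x
        · subst hy
          have h4 : ¬ Q y y z := h
          by_cases hz : z = y
          · subst hz; simp [h4]
          · simp [h4, hz]
        · by_cases hz : z = x
          · subst hz
            simp [h, hy]
          · simp [h, hy, hz]
      · by_cases hy : y = p
        · subst hy
          by_cases hz : z = y
          · subst hz
            simp [h, hx]
          · simp [h, hx, hz]
        · by_cases hz : z = p
          · subst hz
            simp [h, hx, hy]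
          · simp [h, hx, hy, hz]
  simp_rw [e2, Finset.sum_add_distrib]
  congr 1
  · congr 1
    · simp
    · simp
  · simp

end Pool.Agent.H64.FIrrCnt3
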