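import Mathlib
import Pool.Agent.H64.FIrrCnt3

/-!
Irregular oriented graphs for the transitive triangle.
-/

namespace Pool.Agent.H64.FIrrT3

open Pool.Agent.H48.FIrr Pool.Agent.H64.FIrrCnt3 Finset

lemma sum_le (n : ℕ) (i : Fin n) : (∑ j : Fin n, if j ≤ i then 1 else 0) = (i : ℕ) + 1 := by
  rw [← Finset.card_filter]
  have : (Finset.univ.filter fun j : Fin n => j ≤ i) = Finset.Iic i := by
    ext j; simp
  rw [this, Fin.card_Iic]

lemma sum_ge (n : ℕ) (j : Fin n) : (∑ i : Fin n, if j ≤ i then 1 else 0) = n - (j : ℕ) := by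
  rw [← Finset.card_filter]
  have : (Finset.univ.filter fun i : Fin n => j ≤ i) = Finset.Ici j := by
    ext i; simp
  rw [this, Fin.card_Ici]

/-- the number of arcs of the half graph -/
def T (n : ℕ) : ℕ := ∑ i : Fin n, ((i : ℕ) + 1)

lemma two_T (n : ℕ) : 2 * T n = n * (n + 1) := by
  induction n with
  | zero => rfl
  | succ n ih =>
    unfold T at *
    rw [Fin.sum_univ_castSucc]
    simp only [Fin.val_castSucc, Fin.val_last]
    rw [mul_add, ih]
    ring

lemma T_le (n : ℕ) (hn : 6 ≤ n) : 7 * n ≤ 2 * T n := by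
  rw [two_T]; nlinarith

lemma sum_sum (n : ℕ) : (∑ i : Fin n, ∑ j : Fin n, if j ≤ i then 1 else 0) = T n := by
  simp_rw [sum_le]; rfl

lemma sum_sum' (n : ℕ) : (∑ j : Fin n, ∑ i : Fin n, if j ≤ i then 1 else 0) = T n := by
  rw [Finset.sum_comm]; exact sum_sum n

/-- the vertex set -/
abbrev Vt (n c : ℕ) := Fin n ⊕ Fin n ⊕ Fin c

/-- the graph: half graph between two classes together with core vertices, given by tables -/
def G (n : ℕ) {c : ℕ} (ac ca bc cb : Fin c → Bool) (cc : Fin c → Fin c → Bool) :
    Vt n c → Vt n c → Bool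
  | .inl i, .inr (.inl j) => decide (j ≤ i)
  | .inl _, .inr (.inr k) => ac k
  | .inr (.inr k), .inl _ => ca k
  | .inr (.inl _), .inr (.inr k) => bc k
  | .inr (.inr k), .inr (.inl _) => cb k
  | .inr (.inr k), .inr (.inr l) => cc k l
  | _, _ => false

section
variable (n : ℕ) {c : ℕ} (ac ca bc cb : Fin c → Bool) (cc : Fin c → Fin c → Bool)
  (i j : Fin n) (k l : Fin c)
@[simp] lemma G1 : G n ac ca bc cb cc (.inl i) (.inl j) = false := rfl
@[simp] lemma G2 : G n ac ca bc cb cc (.inl i) (.inr (.inl j)) = decide (j ≤ i) := rfl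
@[simp] lemma G3 : G n ac ca bc cb cc (.inl i) (.inr (.inr k)) = ac k := rfl
@[simp] lemma G4 : G n ac ca bc cb cc (.inr (.inl i)) (.inl j) = false := rfl
@[simp] lemma G5 : G n ac ca bc cb cc (.inr (.inl i)) (.inr (.inl j)) = false := rfl
@[simp] lemma G6 : G n ac ca bc cb cc (.inr (.inl i)) (.inr (.inr k)) = bc k := rfl
@[simp] lemma G7 : G n ac ca bc cb cc (.inr (.inr k)) (.inl i) = ca k := rfl
@[simp] lemma G8 : G n ac ca bc cb cc (.inr (.inr k)) (.inr (.inl i)) = cb k := rfl
@[simp] lemma G9 : G n ac ca bc cb cc (.inr (.inr k)) (.inr (.inr l)) = cc k l := rfl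
end

lemma G_asymm (n : ℕ) {c : ℕ} (ac ca bc cb : Fin c → Bool) (cc : Fin c → Fin c → Bool)
    (h1 : ∀ k, ac k = true → ca k = false) (h2 : ∀ k, bc k = true → cb k = false)
    (h3 : ∀ k l, cc k l = true → cc l k = false) (u v : Vt n c)
    (h : G n ac ca bc cb cc u v = true) : ¬ G n ac ca bc cb cc v u = true := by
  rcases u with i | i | k <;> rcases v with j | j | l <;>
    simp only [G1, G2, G3, G4, G5, G6, G7, G8, G9, Bool.false_eq_true, not_false_eq_true] at h ⊢
  · rw [h1 _ h]; simp
  · rw [h2 _ h]; simp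
  · intro h'; rw [h1 _ h'] at h; simp at h
  · intro h'; rw [h2 _ h'] at h; simp at h
  · rw [h3 _ _ h]; simp

/-- transport to `Fin` -/
lemma transport {V : Type} [Fintype V] (R : Fin 3 → Fin 3 → Prop) (E : V → V → Prop)
    (hE : ∀ u v, E u v → ¬ E v u) (hinj : Function.Injective (cnt R E)) :
    ∃ E' : Fin (Fintype.card V) → Fin (Fintype.card V) → Prop,
      (∀ u v, E' u v → ¬ E' v u) ∧ Function.Injective (cnt R E') := by
  let e := Fintype.equivFin V
  refine ⟨fun a b => E (e.symm a) (e.symm b), fun u v => hE _ _, ?_⟩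
  intro p q hpq
  have h : ∀ p, cnt R (fun a b => E (e.symm a) (e.symm b)) p = cnt R E (e.symm p) := by
    intro p
    rw [cnt_congr_right e R E (fun a b => E (e.symm a) (e.symm b)) (by simp) (e.symm p)]
    simp
  rw [h, h] at hpq
  exact e.symm.injective (hinj hpq)

/-- The graph for the transitive triangle. -/
def GT (n : ℕ) : Vt n 3 → Vt n 3 → Bool :=
  G n ![false, false, false] ![true, true, true] ![false, false, true] ![true, true, false]
    ![![false, false, false], ![false, false, true], ![true, false, false]]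

lemma GT_asymm (n : ℕ) (u v : Vt n 3) (h : GT n u v = true) : ¬ GT n v u = true :=
  G_asymm n _ _ _ _ _ (by decide) (by decide) (by decide) u v h

/-- its counts -/
def valT (n : ℕ) : Vt n 3 → ℕ
  | .inl i => 2 * (i + 1) + 2
  | .inr (.inl j) => 2 * (n - j) + 1
  | .inr (.inr k) => ![T n + n, T n + 2 * n, 3 * n] k

lemma card_le (n : ℕ) (i : Fin n) : (Finset.univ.filter fun j : Fin n => j ≤ i).card = i + 1 := by
  rw [Finset.card_filter]; exact sum_le n i

lemma card_ge (n : ℕ) (j : Fin n) : (Finset.univ.filter fun i : Fin n => j ≤ i).card = n - j := by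
  rw [Finset.card_filter]; exact sum_ge n j

lemma cntT (n : ℕ) (p : Vt n 3) :
    cnt (fun a b : Fin 3 => a < b) (fun u v => GT n u v = true) p = valT n p := by
  classical
  rw [cnt_three _ _ p (fun x y z => GT n x y = true ∧ GT n x z = true ∧ GT n y z = true)]
  · unfold GT
    rcases p with i | j | k
    · simp [Fintype.sum_sum_type, Fin.sum_univ_three, valT, sum_le, -Finset.sum_boole]
      omega
    · simp [Fintype.sum_sum_type, Fin.sum_univ_three, valT, sum_ge, -Finset.sum_boole]
      omega
    · fin_cases k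
      · simp [Fintype.sum_sum_type, Fin.sum_univ_three, valT, sum_le, -Finset.sum_boole]
        rfl
      · simp [Fintype.sum_sum_type, Fin.sum_univ_three, valT, sum_le, -Finset.sum_boole]
        change T n + (n + n) = _
        omega
      · simp [Fintype.sum_sum_type, Fin.sum_univ_three, valT, -Finset.sum_boole]
        omega
  · intro x y z
    have hne : ∀ u v, GT n u v = true → u ≠ v := by
      rintro u v h rfl
      exact GT_asymm n _ _ h h
    constructor
    · rintro ⟨h1, h2, h3⟩
      have n1 := hne _ _ h1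
      have n2 := hne _ _ h2
      have n3 := hne _ _ h3
      constructor
      · intro a b hab
        fin_cases a <;> fin_cases b <;> simp_all
      · intro a b hab
        fin_cases a <;> fin_cases b <;> simp_all
    · rintro ⟨-, h⟩
      exact ⟨h 0 1 (by decide), h 0 2 (by decide), h 1 2 (by decide)⟩

lemma valT_inj (n : ℕ) (hn : 6 ≤ n) : Function.Injective (valT n) := by
  have hT := T_le n hn
  intro u v h
  rcases u with i | i | k <;> rcases v with j | j | l
  · simp only [valT] at h
    congr 1
    apply Fin.ext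
    omega
  · simp only [valT] at h; omega
  · have := i.2
    fin_cases l <;> simp [valT] at h <;> omega
  · simp only [valT] at h; omega
  · simp only [valT] at h
    have := i.2
    have := j.2
    congr 2
    apply Fin.ext
    omega
  · have := i.2
    fin_cases l <;> simp [valT] at h <;> omega
  · have := j.2
    fin_cases k <;> simp [valT] at h <;> omega
  · have := j.2
    fin_cases k <;> simp [valT] at h <;> omega
  · congr 2
    fin_cases k <;> fin_cases l <;> simp [valT] at h ⊢ <;> omega

/-- Infinitely many irregular oriented graphs for the transitive triangle. -/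
theorem t3_main (m : ℕ) : ∃ n ≥ m, ∃ E : Fin n → Fin n → Prop, (∀ u v, E u v → ¬ E v u) ∧
    Function.Injective (cnt (fun a b : Fin 3 => a < b) E) := by
  obtain ⟨E, h1, h2⟩ := transport (V := Vt (m + 6) 3) (fun a b : Fin 3 => a < b)
    (fun u v => GT (m + 6) u v = true) (GT_asymm _) (by
      intro p q hpq
      rw [cntT, cntT] at hpq
      exact valT_inj _ (by omega) hpq)
  refine ⟨_, ?_, E, h1, h2⟩
  simp only [Fintype.card_sum, Fintype.card_fin]
  omega

end Pool.Agent.H64.FIrrT3
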