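import Mathlib

/-!
Abstract part: degree two Cayley-Hamilton algebras generated by a group.
-/

namespace Pool.Agent.H64.BHAlg

open Submodule
open scoped commutatorElement

/-- An `R`-algebra `H` with an `R`-linear trace `tr : H → R` such that
`a ↦ tr a - a` is an anti-automorphism, together with a group homomorphism from `G`
to the units whose image spans `H` over `R`, with `tr (ι g) = ι g + ι g⁻¹`. -/
structure Data (R H G : Type*) [CommRing R] [Ring H] [Algebra R H] [Group G] where
  tr : H →ₗ[R] R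
  ι : G →* H
  bar_mul : ∀ a b : H, algebraMap R H (tr (a * b)) - a * b =
    (algebraMap R H (tr b) - b) * (algebraMap R H (tr a) - a)
  tr_ι : ∀ g : G, algebraMap R H (tr (ι g)) = ι g + ι g⁻¹
  span_ι : Submodule.span R (Set.range ι) = ⊤
  inj : Function.Injective (algebraMap R H)
  half : R
  half_two : half * 2 = 1

variable {R H G : Type*} [CommRing R] [Ring H] [Algebra R H] [Group G]

namespace Data

variable (D : Data R H G)

/-- The trace as a central element. -/
def t (a : H) : H := algebraMap R H (D.tr a)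

/-- The conjugate. -/
def bar (a : H) : H := D.t a - a

lemma t_comm (a b : H) : D.t a * b = b * D.t a := Algebra.commutes _ _

lemma t_add (a b : H) : D.t (a + b) = D.t a + D.t b := by simp [t]

lemma t_sub (a b : H) : D.t (a - b) = D.t a - D.t b := by simp [t]

lemma t_neg (a : H) : D.t (-a) = - D.t a := by simp [t]

lemma bar_add (a b : H) : D.bar (a + b) = D.bar a + D.bar b := by simp [bar, t_add]; abel

lemma bar_sub (a b : H) : D.bar (a - b) = D.bar a - D.bar b := by simp [bar, t_sub]; abel

lemma bar_mul' (a b : H) : D.bar (a * b) = D.bar b * D.bar a := D.bar_mul a b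

lemma bar_ι (g : G) : D.bar (D.ι g) = D.ι g⁻¹ := by
  simp [bar, t, D.tr_ι]

lemma t_ι (g : G) : D.t (D.ι g) = D.ι g + D.ι g⁻¹ := D.tr_ι g

include D in
lemma two_cancel {a : H} (h : a + a = 0) : a = 0 := by
  have h1 : (D.half * 2) • a = 0 := by
    rw [mul_smul, two_smul, h, smul_zero]
  rwa [D.half_two, one_smul] at h1

lemma t_mul_comm (a b : H) : D.t (a * b) = D.t (b * a) := by
  have h1 := D.bar_mul' a b
  have h2 := D.bar_mul' b a
  have e1 : D.t (a * b) = D.bar (a * b) + a * b := by simp [bar]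
  have e2 : D.t (b * a) = D.bar (b * a) + b * a := by simp [bar]
  rw [e1, e2, h1, h2]
  simp only [bar]
  have c1 := D.t_comm a b
  have c2 := D.t_comm b a
  have c3 := D.t_comm a (D.t b)
  simp only [mul_sub, sub_mul]
  rw [c1, c2, c3]
  abel

/-- The involution property of `bar` on traces. -/
lemma bar_t (a : H) : D.bar (D.t a) = D.t a := by
  -- t (t a) = 2 t a since t 1 = 2
  have h1 : D.t (1 : H) = 2 := by
    have := D.t_ι 1
    simp only [map_one, inv_one] at this
    rw [this]; norm_num
  have h2 : D.t (D.t a) = D.tr a • D.t (1 : H) := by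
    unfold t
    rw [Algebra.algebraMap_eq_smul_one (D.tr a), map_smul, smul_eq_mul, map_mul,
      Algebra.smul_def]
  rw [bar, h2, h1]
  rw [Algebra.smul_def]
  change D.t a * 2 - D.t a = D.t a
  rw [mul_two]; abel

lemma bar_bar (a : H) : D.bar (D.bar a) = a := by
  have h : D.bar (D.bar a) = D.bar (D.t a - a) := rfl
  rw [h, D.bar_sub, D.bar_t]
  simp [bar]

/-- The anti-symmetrised element. -/
def skew (a : H) : H := a - D.bar a

lemma bar_skew (a : H) : D.bar (D.skew a) = - D.skew a := by
  rw [skew, bar_sub, bar_bar]; abel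

lemma skew_ι (g : G) : D.skew (D.ι g) = D.ι g - D.ι g⁻¹ := by
  rw [skew, bar_ι]

/-- Key identity: for commuting skew elements `d, e`, `t (d a) e = t (e a) d`. -/
lemma key (d e : H) (hd : D.bar d = -d) (he : D.bar e = -e) (hde : d * e = e * d) (a : H) :
    D.t (d * a) * e = D.t (e * a) * d := by
  -- first: d a e = e a d for all a
  have hD : ∀ a : H, d * a * e - e * a * d = 0 := by
    intro a
    apply D.two_cancel
    -- D(a) = -D(bar a)
    have h1 : d * D.bar a * e - e * D.bar a * d = -(d * a * e - e * a * d) := by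
      have c1 := D.t_comm a e
      have c2 := D.t_comm a d
      simp only [bar, mul_sub, sub_mul]
      have : d * D.t a * e = e * D.t a * d := by
        rw [← c2, ← c1, mul_assoc, hde, mul_assoc]
      rw [this]; abel
    have h2 : D.bar (d * a * e - e * a * d) = d * a * e - e * a * d := by
      rw [bar_sub, bar_mul', bar_mul', bar_mul', bar_mul', hd, he]
      have : -e * (D.bar a * -d) - -d * (D.bar a * -e)
          = -(d * D.bar a * e - e * D.bar a * d) := by noncomm_ring
      rw [this, h1, neg_neg]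
    have h3 : D.t (d * a * e - e * a * d) = 0 := by
      rw [t_sub]
      have e1 : D.t (d * a * e) = D.t (e * d * a) := by
        rw [t_mul_comm, ← mul_assoc]
      have e2 : D.t (e * a * d) = D.t (d * e * a) := by
        rw [t_mul_comm, ← mul_assoc]
      rw [e1, e2, hde, sub_self]
    have h4 : D.bar (d * a * e - e * a * d) = - (d * a * e - e * a * d) := by
      rw [bar, h3, zero_sub]
    rw [h2] at h4
    nth_rewrite 1 [h4]
    abel
  have e1 : D.t (d * a) = D.bar (d * a) + d * a := by simp [bar]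
  have e2 : D.t (e * a) = D.bar (e * a) + e * a := by simp [bar]
  have c1 := D.t_comm (d * a) e
  have c2 := D.t_comm (e * a) d
  rw [c1, c2, e1, e2, bar_mul', bar_mul', hd, he]
  have h5 := hD (D.bar a)
  have h6 : e * (D.bar a * -d + d * a) - d * (D.bar a * -e + e * a) = 0 := by
    have : e * (D.bar a * -d + d * a) - d * (D.bar a * -e + e * a)
        = (d * D.bar a * e - e * D.bar a * d) + (e * d - d * e) * a := by noncomm_ring
    rw [this, h5, hde]; simp
  exact sub_eq_zero.mp h6

/-- `d a d ∈ b H` where `b` is generated by the traces `tr (d a)`. -/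
def bIdeal (d : H) : Ideal R := Ideal.span (Set.range fun a : H => D.tr (d * a))

lemma dad_mem (d : H) (hd : D.bar d = -d) (a : H) :
    d * a * d ∈ (D.bIdeal d) • (⊤ : Submodule R H) := by
  have h1 : ∀ c : H, D.t (d * c) = d * c + D.bar c * (-d) := by
    intro c
    have : D.t (d * c) = d * c + D.bar (d * c) := by simp [bar]
    rw [this, bar_mul', hd]
  have h2 : D.t (d * d) = (2 : R) • (d * d) := by
    rw [h1 d, hd, two_smul]; noncomm_ring
  have h3 : d * d = (D.half * D.tr (d * d)) • (1 : H) := by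
    have : D.half • D.t (d * d) = d * d := by
      rw [h2, ← mul_smul, D.half_two, one_smul]
    rw [mul_smul, ← Algebra.algebraMap_eq_smul_one]
    exact this.symm
  have h4 : d * a * d = (D.tr (d * a)) • d + (D.half * D.tr (d * d)) • (D.bar a) := by
    have e1 : d * a = D.t (d * a) + D.bar a * d := by
      rw [h1 a]; noncomm_ring
    calc d * a * d = (D.t (d * a) + D.bar a * d) * d := by rw [← e1]
      _ = D.t (d * a) * d + D.bar a * (d * d) := by noncomm_ring
      _ = D.t (d * a) * d + (D.half * D.tr (d * d)) • (D.bar a) := by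
        congr 1
        conv_lhs => rw [h3]
        rw [mul_smul_comm, mul_one]
      _ = _ := by
        simp only [t, Algebra.smul_def]
  rw [h4]
  refine Submodule.add_mem _ ?_ ?_
  · exact Submodule.smul_mem_smul (Ideal.subset_span ⟨a, rfl⟩) trivial
  · refine Submodule.smul_mem_smul ?_ trivial
    exact Ideal.mul_mem_left _ _ (Ideal.subset_span ⟨d, rfl⟩)

/-- Span of all commutators. -/
def comSpan (R H : Type*) [CommRing R] [Ring H] [Algebra R H] : Submodule R H :=
  Submodule.map₂ (LinearMap.mul R H - (LinearMap.mul R H).flip) ⊤ ⊤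

lemma comm_mem_comSpan (a b : H) : a * b - b * a ∈ comSpan R H := by
  have : (LinearMap.mul R H - (LinearMap.mul R H).flip) a b ∈ comSpan R H :=
    Submodule.apply_mem_map₂ _ trivial trivial
  simpa using this

/-- The commutator ideal. -/
def J (R H : Type*) [CommRing R] [Ring H] [Algebra R H] : Submodule R H :=
  (⊤ : Submodule R H) * comSpan R H * ⊤

lemma J_fg (h : (⊤ : Submodule R H).FG) : (J R H).FG := by
  unfold J comSpan
  exact (h.mul (h.map₂ _ h)).mul h

lemma top_mul_J_le : (⊤ : Submodule R H) * J R H ≤ J R H := by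
  unfold J
  rw [← mul_assoc, ← mul_assoc]
  exact mul_le_mul' (mul_le_mul' le_top le_rfl) le_rfl

lemma J_mul_top_le : J R H * (⊤ : Submodule R H) ≤ J R H := by
  unfold J
  rw [mul_assoc]
  exact mul_le_mul' le_rfl le_top

lemma mul_mem_J_left (a : H) {b : H} (hb : b ∈ J R H) : a * b ∈ J R H :=
  top_mul_J_le (Submodule.mul_mem_mul trivial hb)

lemma mul_mem_J_right {a : H} (ha : a ∈ J R H) (b : H) : a * b ∈ J R H :=
  J_mul_top_le (Submodule.mul_mem_mul ha trivial)

lemma comm_mem_J (a b : H) : a * b - b * a ∈ J R H := by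
  have h1 : (1 : H) * (a * b - b * a) * 1 ∈ J R H :=
    Submodule.mul_mem_mul (Submodule.mul_mem_mul trivial (comm_mem_comSpan a b)) trivial
  simpa using h1

/-- The two-sided ideal generated by `d`. -/
def Dl (d : H) : Submodule R H := (⊤ : Submodule R H) * (Submodule.span R {d}) * ⊤

lemma top_mul_Dl_le (d : H) : (⊤ : Submodule R H) * Dl d ≤ Dl d := by
  unfold Dl
  rw [← mul_assoc, ← mul_assoc]
  exact mul_le_mul' (mul_le_mul' le_top le_rfl) le_rfl

lemma Dl_mul_top_le (d : H) : (Dl d : Submodule R H) * (⊤ : Submodule R H) ≤ Dl d := by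
  unfold Dl
  rw [mul_assoc]
  exact mul_le_mul' le_rfl le_top

lemma conj_mem_Dl (d a b : H) : a * d * b ∈ (Dl d : Submodule R H) :=
  Submodule.mul_mem_mul (Submodule.mul_mem_mul trivial (Submodule.mem_span_singleton_self d)) trivial

lemma Dl_mul_Dl_le (d : H) (hd : D.bar d = -d) :
    (Dl d : Submodule R H) * Dl d ≤ (D.bIdeal d) • (⊤ : Submodule R H) := by
  have key1 : (Submodule.span R {d} : Submodule R H) * ⊤ * Submodule.span R {d} ≤
      (D.bIdeal d) • (⊤ : Submodule R H) := by
    rw [Submodule.mul_le]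
    intro x hx y hy
    rw [Submodule.mem_span_singleton] at hy
    obtain ⟨c, rfl⟩ := hy
    rw [mul_smul_comm]
    refine Submodule.smul_mem _ _ ?_
    refine Submodule.mul_induction_on hx ?_ ?_
    · intro m hm n _
      rw [Submodule.mem_span_singleton] at hm
      obtain ⟨c', rfl⟩ := hm
      rw [smul_mul_assoc, smul_mul_assoc]
      exact Submodule.smul_mem _ _ (D.dad_mem d hd n)
    · intro p q hp hq
      rw [add_mul]
      exact Submodule.add_mem _ hp hq
  have e : (Dl d : Submodule R H) * Dl d ≤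
      ⊤ * ((Submodule.span R {d} : Submodule R H) * ⊤ * Submodule.span R {d}) * ⊤ := by
    unfold Dl
    calc _ = ⊤ * ((Submodule.span R {d} : Submodule R H) * (⊤ * ⊤) * Submodule.span R {d}) * ⊤ := by
          simp only [mul_assoc]
      _ ≤ _ := by
          refine mul_le_mul' (mul_le_mul' le_rfl ?_) le_rfl
          exact mul_le_mul' (mul_le_mul' le_rfl le_top) le_rfl
  refine e.trans ?_
  calc _ ≤ (⊤ : Submodule R H) * ((D.bIdeal d) • (⊤ : Submodule R H)) * ⊤ :=
        mul_le_mul' (mul_le_mul' le_rfl key1) le_rfl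
    _ ≤ _ := by
      rw [Submodule.mul_le]
      intro x hx y _
      refine Submodule.mul_induction_on hx ?_ ?_
      · intro m _ n hn
        refine Submodule.smul_induction_on hn ?_ ?_
        · intro r hr z _
          rw [mul_smul_comm, smul_mul_assoc]
          exact Submodule.smul_mem_smul hr trivial
        · intro p q hp hq
          rw [mul_add, add_mul]
          exact Submodule.add_mem _ hp hq
      · intro p q hp hq
        rw [add_mul]
        exact Submodule.add_mem _ hp hq

/-- `L = Δ J + J Δ`. -/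
def L (R : Type*) {H : Type*} [CommRing R] [Ring H] [Algebra R H] (d : H) : Submodule R H :=
  Dl d * J R H ⊔ J R H * Dl d

lemma top_mul_L_le (d : H) : (⊤ : Submodule R H) * L R d ≤ L R d := by
  unfold L
  rw [Submodule.mul_sup, ← mul_assoc, ← mul_assoc]
  exact sup_le_sup (mul_le_mul' (top_mul_Dl_le d) le_rfl)
    (mul_le_mul' top_mul_J_le le_rfl)

lemma L_mul_top_le (d : H) : L R d * (⊤ : Submodule R H) ≤ L R d := by
  unfold L
  rw [Submodule.sup_mul, mul_assoc, mul_assoc]
  exact sup_le_sup (mul_le_mul' le_rfl J_mul_top_le)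
    (mul_le_mul' le_rfl (Dl_mul_top_le d))

lemma L_left (d a : H) {b : H} (hb : b ∈ L R d) : a * b ∈ L R d :=
  top_mul_L_le d (Submodule.mul_mem_mul trivial hb)

lemma L_right (d : H) {a : H} (ha : a ∈ L R d) (b : H) : a * b ∈ L R d :=
  L_mul_top_le d (Submodule.mul_mem_mul ha trivial)

/-- commutators of conjugates of `m` lie in `L`. -/
lemma conj_comm_mem (m u v : G) :
    D.ι (u * m * u⁻¹) * D.ι (v * m * v⁻¹) - D.ι (v * m * v⁻¹) * D.ι (u * m * u⁻¹)
      ∈ L R (D.skew (D.ι m)) := by
  set d := D.skew (D.ι m) with hd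
  have hdx : D.skew (D.ι (u * m * u⁻¹)) = D.ι u * d * D.ι u⁻¹ := by
    rw [hd, skew_ι, skew_ι]
    simp only [mul_inv_rev, inv_inv, map_mul, mul_sub, sub_mul, mul_assoc]
  have hdy : D.skew (D.ι (v * m * v⁻¹)) = D.ι v * d * D.ι v⁻¹ := by
    rw [hd, skew_ι, skew_ι]
    simp only [mul_inv_rev, inv_inv, map_mul, mul_sub, sub_mul, mul_assoc]
  set x := D.ι (u * m * u⁻¹) with hx
  set y := D.ι (v * m * v⁻¹) with hy
  have hxD : D.skew x ∈ (Dl d : Submodule R H) := by
    rw [hdx]; exact conj_mem_Dl d _ _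
  have hyxJ : D.skew y - D.skew x ∈ J R H := by
    have hJ : ∀ w : G, D.ι w * d * D.ι w⁻¹ - d ∈ J R H := by
      intro w
      have h1 : (D.ι w * d) * D.ι w⁻¹ - D.ι w⁻¹ * (D.ι w * d) ∈ J R H := comm_mem_J _ _
      have h2 : D.ι w⁻¹ * (D.ι w * d) = d := by
        rw [← mul_assoc, ← map_mul]; simp
      rwa [h2] at h1
    rw [hdx, hdy]
    have := Submodule.sub_mem _ (hJ v) (hJ u)
    have e : D.ι v * d * D.ι v⁻¹ - D.ι u * d * D.ι u⁻¹
        = (D.ι v * d * D.ι v⁻¹ - d) - (D.ι u * d * D.ι u⁻¹ - d) := by abel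
    rw [e]; exact this
  -- four times the commutator
  have h4 : (D.skew x) * (D.skew y - D.skew x) - (D.skew y - D.skew x) * D.skew x
      = (2 * 2 : R) • (x * y - y * x) := by
    have ex : D.skew x = (2 : R) • x - D.t x := by
      simp only [skew, bar, two_smul]; abel
    have ey : D.skew y = (2 : R) • y - D.t y := by
      simp only [skew, bar, two_smul]; abel
    rw [ex, ey]
    have c1 := D.t_comm x y
    have c2 := D.t_comm y x
    have c3 := D.t_comm x x
    have c4 := D.t_comm y (D.t x)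
    simp only [mul_sub, sub_mul, smul_mul_assoc, mul_smul_comm, smul_sub, mul_smul, c1, c2, c3, c4]
    abel
  have h5 : (D.skew x) * (D.skew y - D.skew x) - (D.skew y - D.skew x) * D.skew x ∈ L R d := by
    refine Submodule.sub_mem _ ?_ ?_
    · exact Submodule.mem_sup_left (Submodule.mul_mem_mul hxD hyxJ)
    · exact Submodule.mem_sup_right (Submodule.mul_mem_mul hyxJ hxD)
  rw [h4] at h5
  have h6 := Submodule.smul_mem _ (D.half * D.half) h5
  rw [← mul_smul] at h6
  have h7 : D.half * D.half * (2 * 2) = 1 := by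
    have := D.half_two
    calc D.half * D.half * (2 * 2) = (D.half * 2) * (D.half * 2) := by ring
      _ = 1 := by rw [this, mul_one]
  rwa [h7, one_smul] at h6

lemma ι_mul_inv (g : G) : D.ι g * D.ι g⁻¹ = 1 := by rw [← map_mul]; simp

lemma ι_inv_mul (g : G) : D.ι g⁻¹ * D.ι g = 1 := by rw [← map_mul]; simp

lemma comm_mem_L (m : G) (hm : Subgroup.normalClosure {m} = ⊤) (g h : G) :
    D.ι g * D.ι h - D.ι h * D.ι g ∈ L R (D.skew (D.ι m)) := by
  set d := D.skew (D.ι m) with hd
  -- for fixed z, the centraliser mod L is a subgroup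
  have step : ∀ (z : H) (_ : ∀ w : G, D.ι (w * m * w⁻¹) * z - z * D.ι (w * m * w⁻¹) ∈ L R d),
      ∀ g : G, D.ι g * z - z * D.ι g ∈ L R d := by
    intro z hz g
    have hg : g ∈ Subgroup.normalClosure ({m} : Set G) := by rw [hm]; trivial
    unfold Subgroup.normalClosure at hg
    refine Subgroup.closure_induction (p := fun g _ => D.ι g * z - z * D.ι g ∈ L R d)
      ?_ ?_ ?_ ?_ hg
    · intro x hx
      rw [Group.mem_conjugatesOfSet_iff] at hx
      obtain ⟨a, ha, hax⟩ := hx
      rw [Set.mem_singleton_iff] at ha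
      subst ha
      rw [isConj_iff] at hax
      obtain ⟨c, rfl⟩ := hax
      exact hz c
    · simp
    · intro x y _ _ hx hy
      have e : D.ι (x * y) * z - z * D.ι (x * y)
          = D.ι x * (D.ι y * z - z * D.ι y) + (D.ι x * z - z * D.ι x) * D.ι y := by
        rw [map_mul]; noncomm_ring
      rw [e]
      exact Submodule.add_mem _ (L_left d _ hy) (L_right d hx _)
    · intro x _ hx
      have e : D.ι x⁻¹ * z - z * D.ι x⁻¹
          = - (D.ι x⁻¹ * (D.ι x * z - z * D.ι x) * D.ι x⁻¹) := by
        have h1 := D.ι_inv_mul x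
        have h2 := D.ι_mul_inv x
        have : D.ι x⁻¹ * (D.ι x * z - z * D.ι x) * D.ι x⁻¹
            = (D.ι x⁻¹ * D.ι x) * z * D.ι x⁻¹ - D.ι x⁻¹ * z * (D.ι x * D.ι x⁻¹) := by
          noncomm_ring
        rw [this, h1, h2]; noncomm_ring
      rw [e]
      exact Submodule.neg_mem _ (L_right d (L_left d _ hx) _)
  refine step (D.ι h) ?_ g
  intro w
  have h1 : ∀ g : G, D.ι g * D.ι (w * m * w⁻¹) - D.ι (w * m * w⁻¹) * D.ι g ∈ L R d :=
    step (D.ι (w * m * w⁻¹)) (fun w' => D.conj_comm_mem m w' w)
  have h2 := Submodule.neg_mem _ (h1 h)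
  rwa [neg_sub] at h2

lemma comSpan_le_L (m : G) (hm : Subgroup.normalClosure {m} = ⊤) :
    comSpan R H ≤ L R (D.skew (D.ι m)) := by
  unfold comSpan
  rw [← D.span_ι, Submodule.map₂_span_span, Submodule.span_le]
  rintro _ ⟨_, ⟨g, rfl⟩, _, ⟨h, rfl⟩, rfl⟩
  exact D.comm_mem_L m hm g h

lemma J_le_L (m : G) (hm : Subgroup.normalClosure {m} = ⊤) :
    J R H ≤ L R (D.skew (D.ι m)) := by
  unfold J
  calc (⊤ : Submodule R H) * comSpan R H * ⊤
      ≤ ⊤ * L R (D.skew (D.ι m)) * ⊤ :=
        mul_le_mul' (mul_le_mul' le_rfl (D.comSpan_le_L m hm)) le_rfl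
    _ ≤ L R (D.skew (D.ι m)) * ⊤ :=
        mul_le_mul' (top_mul_L_le _) le_rfl
    _ ≤ _ := L_mul_top_le _

lemma smul_top_mul (I : Ideal R) (N : Submodule R H) (hN : (⊤ : Submodule R H) * N ≤ N) :
    (I • (⊤ : Submodule R H)) * N ≤ I • N := by
  rw [Submodule.mul_le]
  intro a ha b hb
  refine Submodule.smul_induction_on ha ?_ ?_
  · intro r hr z _
    rw [smul_mul_assoc]
    exact Submodule.smul_mem_smul hr (hN (Submodule.mul_mem_mul trivial hb))
  · intro p q hp hq
    rw [add_mul]; exact Submodule.add_mem _ hp hq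

lemma mul_smul_top (I : Ideal R) (N : Submodule R H) (hN : N * (⊤ : Submodule R H) ≤ N) :
    N * (I • (⊤ : Submodule R H)) ≤ I • N := by
  rw [Submodule.mul_le]
  intro a ha b hb
  refine Submodule.smul_induction_on hb ?_ ?_
  · intro r hr z _
    rw [mul_smul_comm]
    exact Submodule.smul_mem_smul hr (hN (Submodule.mul_mem_mul ha trivial))
  · intro p q hp hq
    rw [mul_add]; exact Submodule.add_mem _ hp hq

lemma J_le_smul (m : G) (hm : Subgroup.normalClosure {m} = ⊤) :
    J R H ≤ D.bIdeal (D.skew (D.ι m)) • J R H := by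
  set d := D.skew (D.ι m) with hd
  set I := D.bIdeal d with hI
  have hJL := D.J_le_L m hm
  have hΔ : (Dl d : Submodule R H) * Dl d ≤ I • ⊤ := D.Dl_mul_Dl_le d (by rw [hd, bar_skew])
  -- Δ Δ J ≤ I J
  have a1 : (Dl d : Submodule R H) * (Dl d * J R H) ≤ I • J R H := by
    rw [← mul_assoc]
    exact (mul_le_mul' hΔ le_rfl).trans (smul_top_mul I _ top_mul_J_le)
  have a2 : (J R H * Dl d) * (Dl d : Submodule R H) ≤ I • J R H := by
    rw [mul_assoc]
    exact (mul_le_mul' le_rfl hΔ).trans (mul_smul_top I _ J_mul_top_le)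
  have JD : J R H * Dl d ≤ J R H :=
    (mul_le_mul' le_rfl le_top).trans J_mul_top_le
  have DJ : (Dl d : Submodule R H) * J R H ≤ J R H :=
    (mul_le_mul' le_top le_rfl).trans top_mul_J_le
  -- Δ J Δ ≤ I J
  have a3 : (Dl d : Submodule R H) * (J R H * Dl d) ≤ I • J R H := by
    calc (Dl d : Submodule R H) * (J R H * Dl d)
        ≤ Dl d * (L R d * Dl d) := mul_le_mul' le_rfl (mul_le_mul' hJL le_rfl)
      _ ≤ I • J R H := by
        unfold L
        rw [Submodule.sup_mul, Submodule.mul_sup]
        refine sup_le ?_ ?_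
        · calc (Dl d : Submodule R H) * (Dl d * J R H * Dl d)
              = Dl d * (Dl d * (J R H * Dl d)) := by simp only [mul_assoc]
            _ ≤ Dl d * (Dl d * J R H) :=
              mul_le_mul' le_rfl (mul_le_mul' le_rfl JD)
            _ ≤ _ := a1
        · calc (Dl d : Submodule R H) * (J R H * Dl d * Dl d)
              = (Dl d * J R H) * Dl d * Dl d := by simp only [mul_assoc]
            _ ≤ J R H * Dl d * Dl d :=
              mul_le_mul' (mul_le_mul' DJ le_rfl) le_rfl
            _ ≤ _ := a2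
  calc J R H ≤ L R d := hJL
    _ = Dl d * J R H ⊔ J R H * Dl d := rfl
    _ ≤ Dl d * L R d ⊔ L R d * Dl d :=
      sup_le_sup (mul_le_mul' le_rfl hJL) (mul_le_mul' hJL le_rfl)
    _ ≤ I • J R H := by
      unfold L
      rw [Submodule.mul_sup, Submodule.sup_mul]
      refine sup_le (sup_le a1 a3) (sup_le ?_ a2)
      rw [mul_assoc]
      exact a3

/-- finiteness of `H` over `R`. -/
lemma adjoin_fg (s : Finset G) :
    (Subalgebra.toSubmodule (Algebra.adjoin R (D.ι '' (s : Set G)))).FG := by
  classical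
  induction s using Finset.induction_on with
  | empty =>
    simp only [Finset.coe_empty, Set.image_empty, Algebra.adjoin_empty]
    exact Subalgebra.fg_bot_toSubmodule
  | insert x s _ ih =>
    set S := Algebra.adjoin R (D.ι '' (s : Set G)) with hS
    set T : Submodule R H := Subalgebra.toSubmodule S ⊔
      Subalgebra.toSubmodule S * Submodule.span R {D.ι x} with hT
    have hTfg : T.FG := ih.sup (ih.mul (Submodule.fg_span_singleton _))
    -- x * S ⊆ T
    have hST : ∀ a ∈ S, a ∈ T := fun a ha => Submodule.mem_sup_left ha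
    have hSxT : ∀ a ∈ S, a * D.ι x ∈ T := fun a ha =>
      Submodule.mem_sup_right (Submodule.mul_mem_mul ha (Submodule.mem_span_singleton_self _))
    have hxS : ∀ a ∈ S, D.ι x * a ∈ T := by
      intro a ha
      have e : D.ι x * a = -(a * D.ι x) + D.tr (D.ι x) • a + D.tr a • D.ι x
          + D.tr (D.ι x * a) • (1 : H) - (D.tr (D.ι x) * D.tr a) • (1 : H) := by
        have h1 := D.bar_mul (D.ι x) a
        have h2 : algebraMap R H (D.tr (D.ι x * a)) - D.ι x * a =
          algebraMap R H (D.tr a) * algebraMap R H (D.tr (D.ι x)) -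
            algebraMap R H (D.tr a) * D.ι x - a * algebraMap R H (D.tr (D.ι x)) + a * D.ι x := by
          rw [h1]; noncomm_ring
        have h3 : a * algebraMap R H (D.tr (D.ι x)) = algebraMap R H (D.tr (D.ι x)) * a :=
          (Algebra.commutes _ _).symm
        rw [h3] at h2
        simp only [Algebra.smul_def, mul_one, map_mul]
        have h4 : algebraMap R H (D.tr (D.ι x)) * algebraMap R H (D.tr a)
            = algebraMap R H (D.tr a) * algebraMap R H (D.tr (D.ι x)) := Algebra.commutes _ _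
        rw [h4]
        have h5 : D.ι x * a = algebraMap R H (D.tr (D.ι x * a)) -
          (algebraMap R H (D.tr a) * algebraMap R H (D.tr (D.ι x)) -
            algebraMap R H (D.tr a) * D.ι x - algebraMap R H (D.tr (D.ι x)) * a + a * D.ι x) := by
          rw [← h2]; abel
        rw [h5]
        nth_rewrite 2 [← h5]
        abel
      rw [e]
      refine Submodule.sub_mem _ (Submodule.add_mem _ (Submodule.add_mem _
        (Submodule.add_mem _ (Submodule.neg_mem _ (hSxT a ha))
          (Submodule.smul_mem _ _ (hST a ha))) ?_) ?_) ?_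
      · refine Submodule.smul_mem _ _ ?_
        have := hSxT 1 (Subalgebra.one_mem _)
        rwa [one_mul] at this
      · exact Submodule.smul_mem _ _ (hST 1 (Subalgebra.one_mem _))
      · exact Submodule.smul_mem _ _ (hST 1 (Subalgebra.one_mem _))
    have hSTl : ∀ a ∈ S, ∀ b ∈ T, a * b ∈ T := by
      intro a ha b hb
      rw [hT, Submodule.mem_sup] at hb
      obtain ⟨y, hy, z, hz, rfl⟩ := hb
      rw [mul_add]
      refine Submodule.add_mem _ (hST _ (Subalgebra.mul_mem _ ha hy)) ?_
      rw [Submodule.mem_mul_span_singleton] at hz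
      obtain ⟨w, hw, rfl⟩ := hz
      rw [← mul_assoc]
      exact hSxT _ (Subalgebra.mul_mem _ ha hw)
    have hTx : ∀ b ∈ T, b * D.ι x ∈ T := by
      intro b hb
      rw [hT, Submodule.mem_sup] at hb
      obtain ⟨y, hy, z, hz, rfl⟩ := hb
      rw [add_mul]
      refine Submodule.add_mem _ (hSxT _ hy) ?_
      rw [Submodule.mem_mul_span_singleton] at hz
      obtain ⟨w, hw, rfl⟩ := hz
      have e : D.ι x * D.ι x = D.tr (D.ι x) • D.ι x - 1 := by
        rw [Algebra.smul_def, D.tr_ι, add_mul, D.ι_inv_mul]; abel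
      rw [mul_assoc, e, mul_sub, mul_one, mul_smul_comm]
      exact Submodule.sub_mem _ (Submodule.smul_mem _ _ (hSxT _ hw)) (hST _ hw)
    have hTS : ∀ b ∈ T, ∀ a ∈ S, b * a ∈ T := by
      intro b hb a ha
      rw [hT, Submodule.mem_sup] at hb
      obtain ⟨y, hy, z, hz, rfl⟩ := hb
      rw [add_mul]
      refine Submodule.add_mem _ (hST _ (Subalgebra.mul_mem _ hy ha)) ?_
      rw [Submodule.mem_mul_span_singleton] at hz
      obtain ⟨w, hw, rfl⟩ := hz
      rw [mul_assoc]
      exact hSTl _ hw _ (hxS _ ha)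
    -- T is a subalgebra
    let T' : Subalgebra R H :=
      { carrier := T
        mul_mem' := by
          intro a b ha hb
          change a * b ∈ T
          change b ∈ T at hb
          rw [hT, Submodule.mem_sup] at hb
          obtain ⟨y, hy, z, hz, rfl⟩ := hb
          rw [mul_add]
          refine Submodule.add_mem _ (hTS _ ha _ hy) ?_
          rw [Submodule.mem_mul_span_singleton] at hz
          obtain ⟨w, hw, rfl⟩ := hz
          rw [← mul_assoc]
          exact hTx _ (hTS _ ha _ hw)
        add_mem' := fun ha hb => Submodule.add_mem T ha hb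
        algebraMap_mem' := by
          intro r
          change algebraMap R H r ∈ T
          exact hST _ (Subalgebra.algebraMap_mem _ r) }
    have hle : Algebra.adjoin R (D.ι '' ((insert x s : Finset G) : Set G)) ≤ T' := by
      rw [Algebra.adjoin_le_iff]
      rintro _ ⟨g, hg, rfl⟩
      change D.ι g ∈ T
      rw [Finset.coe_insert, Set.mem_insert_iff] at hg
      rcases hg with rfl | hg
      · have := hSxT 1 (Subalgebra.one_mem _)
        rwa [one_mul] at this
      · exact hST _ (Algebra.subset_adjoin ⟨g, hg, rfl⟩)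
    have hge : T ≤ Subalgebra.toSubmodule
        (Algebra.adjoin R (D.ι '' ((insert x s : Finset G) : Set G))) := by
      have h1 : S ≤ Algebra.adjoin R (D.ι '' ((insert x s : Finset G) : Set G)) := by
        apply Algebra.adjoin_mono
        apply Set.image_mono
        simp
      rw [hT]
      refine sup_le h1 ?_
      rw [Submodule.mul_le]
      intro a ha b hb
      rw [Submodule.mem_span_singleton] at hb
      obtain ⟨c, rfl⟩ := hb
      rw [mul_smul_comm]
      refine Submodule.smul_mem _ _ ?_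
      refine Subalgebra.mul_mem _ (h1 ha) (Algebra.subset_adjoin ⟨x, by simp, rfl⟩)
    have heq : Subalgebra.toSubmodule
        (Algebra.adjoin R (D.ι '' ((insert x s : Finset G) : Set G))) = T :=
      le_antisymm (fun a ha => hle ha) hge
    rw [heq]
    exact hTfg

include D in
lemma top_fg [Group.FG G] : (⊤ : Submodule R H).FG := by
  obtain ⟨s, hs⟩ := Group.fg_def.mp (inferInstance : Group.FG G)
  have h1 : ∀ g : G, D.ι g ∈ Algebra.adjoin R (D.ι '' (s : Set G)) := by
    intro g
    have hg : g ∈ Subgroup.closure (s : Set G) := by rw [hs]; trivial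
    refine Subgroup.closure_induction
      (p := fun g _ => D.ι g ∈ Algebra.adjoin R (D.ι '' (s : Set G))) ?_ ?_ ?_ ?_ hg
    · intro x hx
      exact Algebra.subset_adjoin ⟨x, hx, rfl⟩
    · rw [map_one]; exact Subalgebra.one_mem _
    · intro x y _ _ hx hy
      rw [map_mul]; exact Subalgebra.mul_mem _ hx hy
    · intro x _ hx
      have e : D.ι x⁻¹ = algebraMap R H (D.tr (D.ι x)) - D.ι x := by
        rw [D.tr_ι]; abel
      rw [e]
      exact Subalgebra.sub_mem _ (Subalgebra.algebraMap_mem _ _) hx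
  have h2 : (⊤ : Submodule R H) = Subalgebra.toSubmodule (Algebra.adjoin R (D.ι '' (s : Set G))) := by
    apply le_antisymm _ le_top
    rw [← D.span_ι, Submodule.span_le]
    rintro _ ⟨g, rfl⟩
    exact h1 g
  rw [h2]
  exact D.adjoin_fg s

lemma sub_one_mem_J {l : G} (hl : l ∈ commutator G) : D.ι l - 1 ∈ J R H := by
  rw [commutator_eq_closure] at hl
  refine Subgroup.closure_induction (p := fun g _ => D.ι g - 1 ∈ J R H) ?_ ?_ ?_ ?_ hl
  · intro x hx
    obtain ⟨a, b, rfl⟩ := hx
    have e : D.ι ⁅a, b⁆ - 1 = (D.ι a * D.ι b - D.ι b * D.ι a) * (D.ι a⁻¹ * D.ι b⁻¹) := by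
      rw [sub_mul]
      have e1 : D.ι a * D.ι b * (D.ι a⁻¹ * D.ι b⁻¹) = D.ι ⁅a, b⁆ := by
        rw [commutatorElement_def]; simp only [map_mul, mul_assoc]
      have e2 : D.ι b * D.ι a * (D.ι a⁻¹ * D.ι b⁻¹) = 1 := by
        rw [← map_mul, ← map_mul, ← map_mul]
        simp
      rw [e1, e2]
    rw [e]
    exact mul_mem_J_right (comm_mem_J _ _) _
  · simp
  · intro x y _ _ hx hy
    have e : D.ι (x * y) - 1 = (D.ι x - 1) * D.ι y + (D.ι y - 1) := by
      rw [map_mul]; noncomm_ring
    rw [e]
    exact Submodule.add_mem _ (mul_mem_J_right hx _) hy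
  · intro x _ hx
    have e : D.ι x⁻¹ - 1 = -(D.ι x⁻¹ * (D.ι x - 1)) := by
      rw [mul_sub, D.ι_inv_mul]; noncomm_ring
    rw [e]
    exact Submodule.neg_mem _ (mul_mem_J_left _ hx)

/-- Main abstract theorem. -/
theorem main [Group.FG G] (m l : G) (hm : Subgroup.normalClosure {m} = ⊤)
    (hl : l ∈ commutator G) (hml : m * l = l * m) :
    ∃ c : R, D.ι l - D.ι l⁻¹ = c • (D.ι m - D.ι m⁻¹) := by
  set d := D.skew (D.ι m) with hd
  set e := D.skew (D.ι l) with he
  have hJ := J_fg (R := R) (H := H) D.top_fg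
  obtain ⟨r, hr, hr0⟩ :=
    Submodule.exists_sub_one_mem_and_smul_eq_zero_of_fg_of_le_smul (D.bIdeal d) (J R H) hJ
      (D.J_le_smul m hm)
  have heJ : e ∈ J R H := by
    have h1 := D.sub_one_mem_J hl
    have h2 := D.sub_one_mem_J (Subgroup.inv_mem _ hl)
    rw [he, skew_ι]
    have := Submodule.sub_mem _ h1 h2
    have e' : D.ι l - D.ι l⁻¹ = (D.ι l - 1) - (D.ι l⁻¹ - 1) := by abel
    rw [e']; exact this
  have hre : r • e = 0 := hr0 e heJ
  have hcomm : d * e = e * d := by
    rw [hd, he, skew_ι, skew_ι]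
    have hml' : Commute m l := hml
    have c1 : D.ι m * D.ι l = D.ι l * D.ι m := by rw [← map_mul, ← map_mul, hml]
    have c2 : D.ι m * D.ι l⁻¹ = D.ι l⁻¹ * D.ι m := by
      rw [← map_mul, ← map_mul, hml'.inv_right.eq]
    have c3 : D.ι m⁻¹ * D.ι l = D.ι l * D.ι m⁻¹ := by
      rw [← map_mul, ← map_mul, hml'.inv_left.eq]
    have c4 : D.ι m⁻¹ * D.ι l⁻¹ = D.ι l⁻¹ * D.ι m⁻¹ := by
      rw [← map_mul, ← map_mul, hml'.inv_inv.eq]
    simp only [mul_sub, sub_mul, c1, c2, c3, c4]
    abel
  have hc : ∀ c ∈ D.bIdeal d, ∃ c' : R, c • e = c' • d := by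
    intro c hc
    unfold bIdeal at hc
    refine Submodule.span_induction (p := fun c _ => ∃ c' : R, c • e = c' • d) ?_ ?_ ?_ ?_ hc
    · rintro _ ⟨a, rfl⟩
      refine ⟨D.tr (e * a), ?_⟩
      have := D.key d e (by rw [hd, bar_skew]) (by rw [he, bar_skew]) hcomm a
      simpa [t, Algebra.smul_def] using this
    · exact ⟨0, by simp⟩
    · rintro x y _ _ ⟨a, ha⟩ ⟨b, hb⟩
      exact ⟨a + b, by rw [add_smul, add_smul, ha, hb]⟩
    · rintro a x _ ⟨b, hb⟩
      exact ⟨a * b, by rw [smul_eq_mul, mul_smul, mul_smul, hb]⟩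
  obtain ⟨c', hc'⟩ := hc _ hr
  rw [sub_smul, hre, one_smul, zero_sub] at hc'
  refine ⟨-c', ?_⟩
  rw [← skew_ι, ← skew_ι, ← hd, ← he, neg_smul, ← hc', neg_neg]

end Data

end Pool.Agent.H64.BHAlg
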