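import Mathlib

/-!
The Brumfiel-Hilden algebra of a group, and the property of the conjecture.
-/

namespace Pool.Agent.H64.BH

open MonoidAlgebra in
/-- The defining relations of the Brumfiel-Hilden algebra over `k`:
`g (h + h⁻¹) ~ (h + h⁻¹) g` in the group algebra `k[π]`, for all `g, h` in the group. -/
def Rel (k π : Type*) [CommRing k] [Group π] (x y : MonoidAlgebra k π) : Prop :=
  ∃ g h : π, x = of k π g * (of k π h + of k π h⁻¹) ∧ y = (of k π h + of k π h⁻¹) * of k π g

open MonoidAlgebra in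
/-- The property `Y ∈ H⁺[X^{±1}]` of the Brumfiel-Hilden conjecture, for a group `π` and elements
`m, l` of `π`. Here `H[π] = ℂ[π] / ⟨g (h + h⁻¹) - (h + h⁻¹) g⟩` is the quotient of the group algebra
by the relations `r`, `q` is the quotient map, `H⁺[π]` is the subalgebra of `H[π]` generated by
the images of all `g + g⁻¹`, `X, Y` are the images of `m, l`, and `H⁺[X^{±1}]` is the subalgebra
generated by `H⁺[π]` and `X, X⁻¹`. -/
def LongitudeProperty (π : Type*) [Group π] (m l : π) : Prop :=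
  let r : MonoidAlgebra ℂ π → MonoidAlgebra ℂ π → Prop := fun x y => ∃ g h : π,
    x = of ℂ π g * (of ℂ π h + of ℂ π h⁻¹) ∧ y = (of ℂ π h + of ℂ π h⁻¹) * of ℂ π g
  let q : MonoidAlgebra ℂ π →ₐ[ℂ] RingQuot r := RingQuot.mkAlgHom ℂ r
  let Hplus : Subalgebra ℂ (RingQuot r) :=
    Algebra.adjoin ℂ (Set.range fun g : π => q (of ℂ π g) + q (of ℂ π g⁻¹))
  q (of ℂ π l) ∈ Algebra.adjoin ℂ ((Hplus : Set (RingQuot r)) ∪
    {q (of ℂ π m), q (of ℂ π m⁻¹)})

end Pool.Agent.H64.BH
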