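import Pool.Agent.H64.BHDef
import Pool.Agent.H64.BHAlg

/-!
Proof of the algebraic form of the Brumfiel-Hilden conjecture.
-/

namespace Pool.Agent.H64.BH

section Defs

variable (k π : Type*) [CommRing k] [Group π]

/-- The Brumfiel-Hilden algebra `H[π]` over `k`. -/
abbrev HAlg : Type _ := RingQuot (Rel k π)

/-- The image of a group element in `H[π]`. -/
noncomputable def cls : π →* HAlg k π :=
  (RingQuot.mkAlgHom k (Rel k π) : MonoidAlgebra k π →* RingQuot (Rel k π)).comp
    (MonoidAlgebra.of k π)

/-- `H⁺[π]`. -/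
noncomputable def HPlus : Subalgebra k (HAlg k π) :=
  Algebra.adjoin k (Set.range fun g : π => cls k π g + cls k π g⁻¹)

/-- `H⁺[X^{±1}]`. -/
noncomputable def HPlusX (m : π) : Subalgebra k (HAlg k π) :=
  Algebra.adjoin k ((HPlus k π : Set (HAlg k π)) ∪ {cls k π m, cls k π m⁻¹})

end Defs

open MulOpposite

variable {k π : Type*} [CommRing k] [Group π]

lemma cls_comm (g h : π) : cls k π g * (cls k π h + cls k π h⁻¹) =
    (cls k π h + cls k π h⁻¹) * cls k π g := by
  have := RingQuot.mkAlgHom_rel k (show Rel k π _ _ from ⟨g, h, rfl, rfl⟩)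
  simpa [cls] using this

lemma cls_mul_inv (g : π) : cls k π g * cls k π g⁻¹ = 1 := by rw [← map_mul]; simp

lemma cls_inv_mul (g : π) : cls k π g⁻¹ * cls k π g = 1 := by rw [← map_mul]; simp

/-- Induction on elements of `H[π]`. -/
lemma H_induction {p : HAlg k π → Prop} (hg : ∀ g, p (cls k π g))
    (hadd : ∀ a b, p a → p b → p (a + b)) (hsmul : ∀ (c : k) a, p a → p (c • a)) :
    ∀ a, p a := by
  intro a
  obtain ⟨x, rfl⟩ := RingQuot.mkAlgHom_surjective k (Rel k π) a
  refine MonoidAlgebra.induction_on (motive := fun x => p (RingQuot.mkAlgHom k (Rel k π) x)) x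
    ?_ ?_ ?_
  · intro g
    exact hg g
  · intro x y hx hy
    rw [map_add]; exact hadd _ _ hx hy
  · intro r x hx
    rw [map_smul]; exact hsmul _ _ hx

/-- The anti-homomorphism underlying the bar involution. -/
noncomputable def barMon : π →* (HAlg k π)ᵐᵒᵖ where
  toFun g := op (cls k π g⁻¹)
  map_one' := by simp
  map_mul' g h := by
    rw [mul_inv_rev, map_mul, op_mul]

noncomputable def barHom : HAlg k π →ₐ[k] (HAlg k π)ᵐᵒᵖ :=
  RingQuot.liftAlgHom k ⟨MonoidAlgebra.lift k (HAlg k π)ᵐᵒᵖ π barMon, by
    intro x y hxy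
    obtain ⟨g, h, rfl, rfl⟩ := hxy
    simp only [map_mul, map_add, MonoidAlgebra.lift_of]
    apply unop_injective
    simp only [barMon, MonoidHom.coe_mk, OneHom.coe_mk, unop_mul, unop_add, unop_op]
    have := cls_comm (k := k) g⁻¹ h
    rw [inv_inv, add_comm (cls k π h⁻¹) (cls k π h)]
    exact this.symm⟩

noncomputable def barL : HAlg k π →ₗ[k] HAlg k π :=
  (MulOpposite.opLinearEquiv k).symm.toLinearMap ∘ₗ (barHom (k := k) (π := π)).toLinearMap

lemma barL_cls (g : π) : barL (cls k π g) = cls k π g⁻¹ := by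
  simp [barL, barHom, cls, barMon]

lemma barL_mul (a b : HAlg k π) : barL (a * b) = barL b * barL a := by
  simp [barL]

lemma barL_one : barL (1 : HAlg k π) = 1 := by
  simp [barL]

lemma barL_barL (a : HAlg k π) : barL (barL a) = a := by
  refine H_induction (p := fun a => barL (barL a) = a) ?_ ?_ ?_ a
  · intro g; rw [barL_cls, barL_cls, inv_inv]
  · intro a b ha hb; rw [map_add, map_add, ha, hb]
  · intro c a ha; rw [map_smul, map_smul, ha]

lemma tr_mem (a : HAlg k π) : a + barL a ∈ HPlus k π := by
  refine H_induction (p := fun a => a + barL a ∈ HPlus k π) ?_ ?_ ?_ a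
  · intro g
    rw [barL_cls]
    exact Algebra.subset_adjoin ⟨g, rfl⟩
  · intro a b ha hb
    rw [map_add]
    have : a + b + (barL a + barL b) = (a + barL a) + (b + barL b) := by abel
    rw [this]
    exact Subalgebra.add_mem _ ha hb
  · intro c a ha
    rw [map_smul, ← smul_add]
    exact Subalgebra.smul_mem _ ha c

lemma HPlus_comm {r : HAlg k π} (hr : r ∈ HPlus k π) (a : HAlg k π) : r * a = a * r := by
  refine H_induction (p := fun a => r * a = a * r) ?_ ?_ ?_ a
  · intro g
    unfold HPlus at hr
    refine Algebra.adjoin_induction (p := fun r _ => r * cls k π g = cls k π g * r)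
      ?_ ?_ ?_ ?_ hr
    · rintro _ ⟨h, rfl⟩
      exact (cls_comm g h).symm
    · intro c; exact Algebra.commutes _ _
    · intro x y _ _ hx hy; rw [add_mul, mul_add, hx, hy]
    · intro x y _ _ hx hy; rw [mul_assoc, hy, ← mul_assoc, hx, mul_assoc]
  · intro a b ha hb; rw [mul_add, add_mul, ha, hb]
  · intro c a ha; rw [mul_smul_comm, smul_mul_assoc, ha]

lemma HPlus_bar {r : HAlg k π} (hr : r ∈ HPlus k π) : barL r = r := by
  unfold HPlus at hr
  refine Algebra.adjoin_induction (p := fun r _ => barL r = r) ?_ ?_ ?_ ?_ hr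
  · rintro _ ⟨h, rfl⟩
    change barL (cls k π h + cls k π h⁻¹) = cls k π h + cls k π h⁻¹
    rw [map_add, barL_cls, barL_cls, inv_inv, add_comm]
  · intro c
    rw [Algebra.algebraMap_eq_smul_one, map_smul, barL_one]
  · intro x y _ _ hx hy; rw [map_add, hx, hy]
  · intro x y _ hy' hx hy
    rw [barL_mul, hx, hy]
    exact HPlus_comm (by unfold HPlus; exact hy') x

/-- A copy of `H⁺[π]` regarded as a commutative ring. -/
def HP (k π : Type*) [CommRing k] [Group π] : Type _ := ↥(HPlus k π)

noncomputable instance : CommRing (HP k π) :=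
  { (inferInstanceAs (Ring ↥(HPlus k π)) : Ring (HP k π)) with
    mul_comm := fun a b => Subtype.ext (HPlus_comm a.2 b.1) }

noncomputable def HPval : HP k π →+* HAlg k π := (HPlus k π).val.toRingHom

noncomputable instance : Algebra (HP k π) (HAlg k π) :=
  RingHom.toAlgebra' HPval (fun c x => HPlus_comm c.2 x)

lemma HP_algebraMap (r : HP k π) : algebraMap (HP k π) (HAlg k π) r = r.1 := rfl

lemma HP_smul (r : HP k π) (a : HAlg k π) : r • a = r.1 * a := rfl

/-- The Cayley-Hamilton data of `H[π]`. -/
noncomputable def data (half : k) (hhalf : half * 2 = 1) :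
    BHAlg.Data (HP k π) (HAlg k π) π where
  tr :=
    { toFun := fun a => ⟨a + barL a, tr_mem a⟩
      map_add' := fun a b => Subtype.ext (by
        change a + b + barL (a + b) = (a + barL a) + (b + barL b)
        rw [map_add]; abel)
      map_smul' := fun r a => Subtype.ext (by
        change r • a + barL (r • a) = r.1 * (a + barL a)
        rw [HP_smul, barL_mul, HPlus_bar r.2, mul_add, HPlus_comm r.2 (barL a)]) }
  ι := cls k π
  bar_mul a b := by
    change (a * b + barL (a * b)) - a * b = ((b + barL b) - b) * ((a + barL a) - a)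
    rw [barL_mul]
    simp
  tr_ι g := by
    change cls k π g + barL (cls k π g) = cls k π g + cls k π g⁻¹
    rw [barL_cls]
  span_ι := by
    rw [eq_top_iff]
    rintro a -
    refine H_induction (p := fun a => a ∈ Submodule.span (HP k π) (Set.range (cls k π)))
      ?_ ?_ ?_ a
    · intro g; exact Submodule.subset_span ⟨g, rfl⟩
    · intro a b ha hb; exact Submodule.add_mem _ ha hb
    · intro c a ha
      have : c • a = (⟨algebraMap k (HAlg k π) c, Subalgebra.algebraMap_mem _ c⟩ : HP k π) • a := by
        change c • a = algebraMap k (HAlg k π) c * a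
        rw [Algebra.smul_def]
      rw [this]
      exact Submodule.smul_mem _ _ ha
  inj := fun a b hab => Subtype.ext hab
  half := ⟨algebraMap k (HAlg k π) half, Subalgebra.algebraMap_mem _ half⟩
  half_two := Subtype.ext (by
    change algebraMap k (HAlg k π) half * (2 : HAlg k π) = 1
    have := congrArg (algebraMap k (HAlg k π)) hhalf
    rw [map_mul, map_one, map_ofNat] at this
    exact this)

/-- General algebraic form: if `π` is finitely generated and normally generated by `m`, and
`l ∈ [π,π]` commutes with `m`, then `l ∈ H⁺[m^{±1}]` in `H[π]`. -/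
theorem main_general (half : k) (hhalf : half * 2 = 1) [Group.FG π] (m l : π)
    (hm : Subgroup.normalClosure {m} = ⊤) (hl : l ∈ commutator π) (hml : m * l = l * m) :
    cls k π l ∈ HPlusX k π m := by
  obtain ⟨c, hc⟩ := (data (k := k) (π := π) half hhalf).main m l hm hl hml
  have h1 : cls k π l - cls k π l⁻¹ = c.1 * (cls k π m - cls k π m⁻¹) := hc
  have h2 : cls k π l = half • ((cls k π l + cls k π l⁻¹) +
      c.1 * (cls k π m - cls k π m⁻¹)) := by
    rw [← h1]
    have : cls k π l + cls k π l⁻¹ + (cls k π l - cls k π l⁻¹) = (2 : k) • cls k π l := by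
      rw [two_smul]; abel
    rw [this, ← mul_smul, hhalf, one_smul]
  rw [h2]
  unfold HPlusX
  refine Subalgebra.smul_mem _ (Subalgebra.add_mem _ ?_ (Subalgebra.mul_mem _ ?_
    (Subalgebra.sub_mem _ ?_ ?_))) _
  · exact Algebra.subset_adjoin (Or.inl (Algebra.subset_adjoin ⟨l, rfl⟩))
  · exact Algebra.subset_adjoin (Or.inl c.2)
  · exact Algebra.subset_adjoin (Or.inr (by simp))
  · exact Algebra.subset_adjoin (Or.inr (by simp))

/-- The property of the Brumfiel-Hilden conjecture for finitely generated groups normally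
generated by one element. -/
theorem longitudeProperty [Group.FG π] (m l : π) (hm : Subgroup.normalClosure {m} = ⊤)
    (hl : l ∈ commutator π) (hml : m * l = l * m) : LongitudeProperty π m l :=
  main_general (k := ℂ) (1 / 2 : ℂ) (by norm_num) m l hm hl hml

end Pool.Agent.H64.BH
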