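import Pool.Agent.H44.Basic

/-!
Homology spheres (over a commutative domain) that are clique complexes are Eulerian
(module [HS] for MP_cab404_co).
-/

namespace Pool.Agent.H64.CabHS

open Finset Pool.Agent.H44

variable {k : Type*} [CommRing k] {V : Type*} [Fintype V] [LinearOrder V]

/-- The simplicial boundary operator on `k`-valued functions on finite sets of vertices:
`(bd f) ρ = ∑_{v ∉ ρ} (-1)^{#{w ∈ ρ, w < v}} f (ρ ∪ {v})`. -/
def bd (f : Finset V → k) (ρ : Finset V) : k :=
  ∑ v ∈ ρᶜ, (-1) ^ (ρ.filter (· < v)).card * f (insert v ρ)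

/-- `f` is a chain of the link of the face `σ` in the clique complex of `G`, carried by the faces
with `j` vertices (that is, of dimension `j - 1`; the empty face counts, so that homology is
reduced). -/
def IsChain (G : SimpleGraph V) (σ : Finset V) (j : ℕ) (f : Finset V → k) : Prop :=
  ∀ τ, f τ ≠ 0 → τ.card = j ∧ Disjoint σ τ ∧ G.IsClique ((σ ∪ τ : Finset V) : Set V)

/-- The clique complex of `G` is a `(d - 1)`-dimensional homology sphere over `k`: the link of every
face `σ` (`σ = ∅` included) has the reduced homology of the sphere of dimension `d - 1 - |σ|`. -/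
structure HomSphere (k : Type*) [CommRing k] (G : SimpleGraph V) (d : ℕ) : Prop where
  acyclic : ∀ σ : Finset V, G.IsClique (σ : Set V) → ∀ j : ℕ, j + σ.card ≠ d →
    ∀ f : Finset V → k, IsChain G σ j f → bd f = 0 →
      ∃ g : Finset V → k, IsChain G σ (j + 1) g ∧ bd g = f
  top : ∀ σ : Finset V, G.IsClique (σ : Set V) → ∀ j : ℕ, j + σ.card = d →
    ∃ z : Finset V → k, IsChain G σ j z ∧ bd z = 0 ∧
      (∀ f : Finset V → k, IsChain G σ j f → bd f = 0 →
        ∃ (c : k) (g : Finset V → k), IsChain G σ (j + 1) g ∧ f = c • z + bd g) ∧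
      ∀ (c : k) (g : Finset V → k), IsChain G σ (j + 1) g → bd g = c • z → c = 0

lemma bd_apply (f : Finset V → k) (ρ : Finset V) :
    bd f ρ = ∑ v ∈ ρᶜ, (-1) ^ (ρ.filter (· < v)).card * f (insert v ρ) := rfl

/-- `bd` as a linear map -/
def D (k : Type*) [CommRing k] (V : Type*) [Fintype V] [LinearOrder V] :
    (Finset V → k) →ₗ[k] (Finset V → k) where
  toFun := bd
  map_add' f g := by
    funext ρ
    simp only [bd_apply, Pi.add_apply, mul_add, sum_add_distrib]
  map_smul' c f := by
    funext ρ
    simp only [bd_apply, Pi.smul_apply, smul_eq_mul, RingHom.id_apply, mul_sum]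
    exact sum_congr rfl fun _ _ => by ring

lemma D_apply (f : Finset V → k) : D k V f = bd f := rfl

/-- the boundary of a boundary vanishes -/
lemma bd_bd (f : Finset V → k) : bd (bd f) = 0 := by
  funext ρ
  rw [bd_apply]
  simp only [bd_apply, mul_sum, Pi.zero_apply]
  rw [sum_sigma']
  refine Finset.sum_involution (fun p _ => ⟨p.2, p.1⟩) ?_ ?_ ?_ ?_
  · rintro ⟨v, w⟩ hp
    simp only [mem_sigma, mem_compl, mem_insert, not_or] at hp
    obtain ⟨hv, hwv, hw⟩ := hp
    have e1 : ∀ a b : V, a ∉ ρ → a ≠ b →
        ((insert a ρ).filter (· < b)).card = (ρ.filter (· < b)).card + if a < b then 1 else 0 := by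
      intro a b ha hab
      rw [filter_insert]
      split_ifs with h
      · rw [card_insert_of_notMem]
        simp [ha]
      · rfl
    simp only
    rw [e1 v w hv (Ne.symm hwv), e1 w v hw hwv, insert_comm v w ρ]
    rcases lt_or_gt_of_ne hwv with h | h
    · rw [if_neg (not_lt.2 h.le), if_pos h]
      ring
    · rw [if_pos h, if_neg (not_lt.2 h.le)]
      ring
  · rintro ⟨v, w⟩ hp _ heq
    simp only [mem_sigma, mem_compl, mem_insert, not_or] at hp
    simp only [Sigma.mk.injEq] at heq
    exact hp.2.1 heq.1
  · rintro ⟨v, w⟩ hp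
    simp only [mem_sigma, mem_compl, mem_insert, not_or] at hp ⊢
    exact ⟨hp.2.2, fun h => hp.2.1 h.symm, hp.1⟩
  · rintro ⟨v, w⟩ _
    rfl

lemma isChain_bd {G : SimpleGraph V} {σ : Finset V} {j : ℕ} {g : Finset V → k}
    (hg : IsChain G σ (j + 1) g) : IsChain G σ j (bd g) := by
  intro ρ hρ
  rw [bd_apply] at hρ
  obtain ⟨v, hv, hne⟩ := exists_ne_zero_of_sum_ne_zero hρ
  have hne' : g (insert v ρ) ≠ 0 := by
    intro h; rw [h, mul_zero] at hne; exact hne rfl
  obtain ⟨h1, h2, h3⟩ := hg _ hne'
  rw [card_insert_of_notMem (mem_compl.1 hv)] at h1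
  refine ⟨by omega, disjoint_of_subset_right (subset_insert _ _) h2, ?_⟩
  exact h3.subset (by exact_mod_cast union_subset_union_right (subset_insert v ρ))

lemma bd_chain_zero {G : SimpleGraph V} {σ : Finset V} {g : Finset V → k}
    (hg : IsChain G σ 0 g) : bd g = 0 := by
  funext ρ
  rw [bd_apply]
  refine sum_eq_zero fun v hv => ?_
  have : g (insert v ρ) = 0 := by
    by_contra h
    have := (hg _ h).1
    rw [card_insert_of_notMem (mem_compl.1 hv)] at this
    omega
  rw [this, mul_zero]

/-- The submodule of chains. -/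
def C (k : Type*) [CommRing k] (G : SimpleGraph V) (σ : Finset V) (j : ℕ) :
    Submodule k (Finset V → k) where
  carrier := {f | IsChain G σ j f}
  add_mem' := by
    intro f g hf hg τ hτ
    rcases ne_or_eq (f τ) 0 with h | h
    · exact hf τ h
    · refine hg τ ?_
      intro h'
      exact hτ (by simp [h, h'])
  zero_mem' := by
    intro τ hτ
    exact absurd rfl hτ
  smul_mem' := by
    intro c f hf τ hτ
    refine hf τ ?_
    intro h
    exact hτ (by simp [h])

lemma mem_C {G : SimpleGraph V} {σ : Finset V} {j : ℕ} {f : Finset V → k} :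
    f ∈ C k G σ j ↔ IsChain G σ j f := Iff.rfl

/-- faces of the link with `j` elements -/
noncomputable def F (G : SimpleGraph V) (σ : Finset V) (j : ℕ) : Finset (Finset V) :=
  open Classical in
  univ.filter fun τ => τ.card = j ∧ Disjoint σ τ ∧ G.IsClique ((σ ∪ τ : Finset V) : Set V)

lemma mem_F {G : SimpleGraph V} {σ τ : Finset V} {j : ℕ} :
    τ ∈ F G σ j ↔ τ.card = j ∧ Disjoint σ τ ∧ G.IsClique ((σ ∪ τ : Finset V) : Set V) := by
  simp [F]

/-- chains are functions on the faces -/
noncomputable def equivC (G : SimpleGraph V) (σ : Finset V) (j : ℕ) :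
    C k G σ j ≃ₗ[k] (F G σ j → k) where
  toFun f τ := f.1 τ.1
  invFun g := ⟨fun τ => if h : τ ∈ F G σ j then g ⟨τ, h⟩ else 0, by
    intro τ hτ
    by_contra hcon
    have : τ ∉ F G σ j := fun h => hcon (mem_F.1 h)
    simp only [dif_neg this] at hτ
    exact hτ rfl⟩
  left_inv := by
    rintro ⟨f, hf⟩
    apply Subtype.ext
    funext τ
    by_cases h : τ ∈ F G σ j
    · simp only [dif_pos h]
    · simp only [dif_neg h]
      by_contra hne
      exact h (mem_F.2 (hf τ (fun h' => hne h'.symm)))
  right_inv := by
    intro g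
    funext τ
    simp only [Subtype.coe_eta, dif_pos τ.2]
  map_add' f g := rfl
  map_smul' c f := rfl

section rank

variable [IsDomain k]

lemma rank_lt (N : Submodule k (Finset V → k)) : Module.rank k N < Cardinal.aleph0 :=
  lt_of_le_of_lt (Submodule.rank_le N) (Module.rank_lt_aleph0 k _)

lemma finrank_C (G : SimpleGraph V) (σ : Finset V) (j : ℕ) :
    Module.finrank k (C k G σ j) = (F G σ j).card := by
  rw [(equivC (k := k) G σ j).finrank_eq, Module.finrank_fintype_fun_eq_card, Fintype.card_coe]

lemma finrank_eq_of_sum {A B E : Submodule k (Finset V → k)}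
    (h : Module.rank k A + Module.rank k B = Module.rank k E) :
    Module.finrank k A + Module.finrank k B = Module.finrank k E := by
  unfold Module.finrank
  rw [← h, Cardinal.toNat_add (rank_lt A) (rank_lt B)]

/-- rank-nullity for a submodule -/
lemma rank_nullity (N : Submodule k (Finset V → k)) :
    Module.finrank k (N.map (D k V)) + Module.finrank k (N ⊓ LinearMap.ker (D k V) : Submodule k _) =
      Module.finrank k N := by
  apply finrank_eq_of_sum
  have h := LinearMap.rank_range_add_rank_ker ((D k V).domRestrict N)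
  rw [LinearMap.range_domRestrict] at h
  rw [← h]
  congr 1
  have e : LinearMap.ker ((D k V).domRestrict N) = (LinearMap.ker (D k V)).comap N.subtype := by
    ext x; simp
  rw [e, (Submodule.equivSubtypeMap N (Submodule.comap N.subtype (LinearMap.ker (D k V)))).rank_eq,
    Submodule.map_comap_subtype]

variable {G : SimpleGraph V} {d : ℕ}

lemma boundary_le (σ : Finset V) (j : ℕ) :
    (C k G σ (j + 1)).map (D k V) ≤ C k G σ j ⊓ LinearMap.ker (D k V) := by
  rintro _ ⟨g, hg, rfl⟩
  refine ⟨isChain_bd hg, ?_⟩
  show bd (bd g) = 0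
  exact bd_bd g

lemma cycles_acyclic (h : HomSphere k G d) {σ : Finset V} (hσ : G.IsClique (σ : Set V)) {j : ℕ}
    (hj : j + σ.card ≠ d) :
    Module.finrank k (C k G σ j ⊓ LinearMap.ker (D k V) : Submodule k _) =
      Module.finrank k ((C k G σ (j + 1)).map (D k V)) := by
  have : (C k G σ j ⊓ LinearMap.ker (D k V) : Submodule k _) = (C k G σ (j + 1)).map (D k V) := by
    apply le_antisymm
    · rintro f ⟨h1, h2⟩
      obtain ⟨g, hg, hgf⟩ := h.acyclic σ hσ j hj f h1 h2
      exact ⟨g, hg, hgf⟩
    · exact boundary_le σ j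
  rw [this]

lemma cycles_top (h : HomSphere k G d) {σ : Finset V} (hσ : G.IsClique (σ : Set V)) {j : ℕ}
    (hj : j + σ.card = d) :
    Module.finrank k (C k G σ j ⊓ LinearMap.ker (D k V) : Submodule k _) =
      Module.finrank k ((C k G σ (j + 1)).map (D k V)) + 1 := by
  obtain ⟨z, hz, hz0, hz1, hz2⟩ := h.top σ hσ j hj
  have e1 : (C k G σ j ⊓ LinearMap.ker (D k V) : Submodule k _) =
      Submodule.span k {z} ⊔ (C k G σ (j + 1)).map (D k V) := by
    apply le_antisymm
    · rintro f ⟨h1, h2⟩
      obtain ⟨c, g, hg, hgf⟩ := hz1 f h1 h2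
      rw [hgf]
      exact Submodule.add_mem_sup (Submodule.smul_mem _ _ (Submodule.mem_span_singleton_self z))
        ⟨g, hg, rfl⟩
    · refine sup_le ?_ (boundary_le σ j)
      rw [Submodule.span_singleton_le_iff_mem]
      exact ⟨hz, hz0⟩
  have e2 : (Submodule.span k {z} ⊓ (C k G σ (j + 1)).map (D k V) : Submodule k _) = ⊥ := by
    rw [Submodule.eq_bot_iff]
    rintro f ⟨h1, g, hg, hgf⟩
    obtain ⟨c, rfl⟩ := Submodule.mem_span_singleton.1 h1
    rw [hz2 c g hg hgf, zero_smul]
  have e3 : Module.finrank k (Submodule.span k {z}) = 1 := by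
    have hinj : Function.Injective (fun c : k => c • z) := by
      intro a b hab
      have : (a - b) • z = 0 := by
        rw [sub_smul, sub_eq_zero]; exact hab
      have h0 := hz2 (a - b) 0 (fun τ hτ => absurd rfl hτ) (by
        rw [this, ← D_apply, map_zero])
      exact sub_eq_zero.1 h0
    have e4 : LinearMap.range (LinearMap.toSpanSingleton k (Finset V → k) z) =
        Submodule.span k {z} := LinearMap.range_toSpanSingleton z
    rw [← e4, LinearMap.finrank_range_of_inj]
    · exact Module.finrank_self k
    · intro a b hab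
      exact hinj hab
  have h1 := Submodule.rank_sup_add_rank_inf_eq (Submodule.span k {z})
    ((C k G σ (j + 1)).map (D k V))
  rw [e2, rank_bot, add_zero] at h1
  have h2 := finrank_eq_of_sum h1.symm
  rw [e3] at h2
  rw [e1]
  omega

/-- face numbers of links -/
lemma card_F (h : HomSphere k G d) {σ : Finset V} (hσ : G.IsClique (σ : Set V)) (j : ℕ) :
    (F G σ j).card = Module.finrank k ((C k G σ j).map (D k V)) +
      Module.finrank k ((C k G σ (j + 1)).map (D k V)) + if j + σ.card = d then 1 else 0 := by
  rw [← finrank_C (k := k), ← rank_nullity]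
  split_ifs with hj
  · rw [cycles_top h hσ hj]; ring
  · rw [cycles_acyclic h hσ hj, add_zero]

lemma map_C_zero (σ : Finset V) : Module.finrank k ((C k G σ 0).map (D k V)) = 0 := by
  have : (C k G σ 0).map (D k V) = ⊥ := by
    rw [Submodule.eq_bot_iff]
    rintro _ ⟨g, hg, rfl⟩
    rw [D_apply, bd_chain_zero hg]
  rw [this, finrank_bot]

lemma map_C_large (σ : Finset V) {j : ℕ} (hj : Fintype.card V < j) :
    Module.finrank k ((C k G σ j).map (D k V)) = 0 := by
  have : (C k G σ j).map (D k V) = ⊥ := by
    rw [Submodule.eq_bot_iff]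
    rintro _ ⟨g, hg, rfl⟩
    have : g = 0 := by
      funext τ
      by_contra hne
      have := (hg τ hne).1
      have := card_le_univ τ
      omega
    rw [this, map_zero]
  rw [this, finrank_bot]

lemma card_le' (h : HomSphere k G d) {σ : Finset V} (hσ : G.IsClique (σ : Set V))
    (hmax : ∀ τ : Finset V, σ ⊆ τ → G.IsClique (τ : Set V) → τ = σ) : σ.card = d := by
  have h0 : (F G σ 0) = {∅} := by
    ext τ
    rw [mem_F, card_eq_zero, mem_singleton]
    constructor
    · exact fun h => h.1
    · rintro rfl
      exact ⟨rfl, disjoint_empty_right _, by simpa using hσ⟩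
  have h1 : (C k G σ 1) = ⊥ := by
    rw [Submodule.eq_bot_iff]
    intro g hg
    funext τ
    by_contra hne
    obtain ⟨h1, h2, h3⟩ := hg τ hne
    have h4 := hmax _ subset_union_left h3
    have h5 : τ ⊆ σ := by rw [← h4]; exact subset_union_right
    have h6 : τ = ∅ := by
      rw [← subset_empty]
      intro x hx
      exact absurd hx (Finset.disjoint_left.1 h2 (h5 hx))
    rw [h6] at h1
    simp at h1
  have h2 := card_F h hσ 0
  rw [h0, map_C_zero, zero_add, h1, Submodule.map_bot, finrank_bot, card_singleton] at h2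
  split_ifs at h2 with h3
  · omega
  · omega

lemma exists_maximal {σ : Finset V} (hσ : G.IsClique (σ : Set V)) :
    ∃ τ : Finset V, σ ⊆ τ ∧ G.IsClique (τ : Set V) ∧
      ∀ τ' : Finset V, τ ⊆ τ' → G.IsClique (τ' : Set V) → τ' = τ := by
  classical
  have hne : (univ.filter fun τ : Finset V => σ ⊆ τ ∧ G.IsClique (τ : Set V)).Nonempty :=
    ⟨σ, by simp [hσ]⟩
  obtain ⟨τ, hτ, hmax⟩ := exists_max_image _ card hne
  simp only [mem_filter, mem_univ, true_and] at hτ hmax
  refine ⟨τ, hτ.1, hτ.2, fun τ' h1 h2 => ?_⟩
  exact (eq_of_subset_of_card_le h1 (hmax τ' ⟨hτ.1.trans h1, h2⟩)).symm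

/-- reduced Euler characteristic of the links -/
lemma euler_link (h : HomSphere k G d) {σ : Finset V} (hσ : G.IsClique (σ : Set V)) :
    ∑ j ∈ range (Fintype.card V + 1), (-1 : ℤ) ^ j * (F G σ j).card = (-1) ^ (d - σ.card) := by
  have hle : σ.card ≤ d := by
    obtain ⟨τ, h1, h2, h3⟩ := exists_maximal hσ
    rw [← card_le' h h2 h3]
    exact card_le_card h1
  have hd : d - σ.card ≤ Fintype.card V := by
    obtain ⟨τ, h1, h2, h3⟩ := exists_maximal hσ
    rw [← card_le' h h2 h3]
    have := card_le_univ τ
    omega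
  have key : ∀ N : ℕ, ∑ j ∈ range (N + 1), (-1 : ℤ) ^ j * (F G σ j).card =
      (-1) ^ N * Module.finrank k ((C k G σ (N + 1)).map (D k V)) +
        if d - σ.card ≤ N then (-1) ^ (d - σ.card) else 0 := by
    intro N
    induction N with
    | zero =>
      rw [sum_range_one, card_F h hσ, map_C_zero]
      by_cases h0 : d = σ.card
      · rw [if_pos (by omega), if_pos (by omega)]
        have : d - σ.card = 0 := by omega
        rw [this]
        push_cast
        ring
      · rw [if_neg (by omega), if_neg (by omega)]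
        push_cast
        ring
    | succ N ih =>
      rw [sum_range_succ, ih, card_F h hσ (N + 1)]
      rcases lt_trichotomy (d - σ.card) (N + 1) with h0 | h0 | h0
      · rw [if_pos (by omega), if_neg (by omega), if_pos (by omega)]
        push_cast
        ring
      · rw [if_neg (by omega), if_pos (by omega), if_pos (by omega), h0]
        push_cast
        ring
      · rw [if_neg (by omega), if_neg (by omega), if_neg (by omega)]
        push_cast
        ring
  rw [key, map_C_large σ (by omega), if_pos hd]
  simp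

/-- **[HS]** a flag homology sphere is Eulerian -/
theorem HomSphere.eul [DecidableRel G.Adj] (h : HomSphere k G d) : Eul G d where
  card_le := by
    intro s hs
    obtain ⟨τ, h1, h2, h3⟩ := exists_maximal hs
    rw [← card_le' h h2 h3]
    exact card_le_card h1
  pure := by
    intro s hs
    obtain ⟨τ, h1, h2, h3⟩ := exists_maximal hs
    exact ⟨τ, h1, h2, card_le' h h2 h3⟩
  euler := by
    intro s hs
    have hle : s.card ≤ d := by
      obtain ⟨τ, h1, h2, h3⟩ := exists_maximal hs
      rw [← card_le' h h2 h3]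
      exact card_le_card h1
    have hcl : ∀ t, t ∈ cl G (cn G s) ↔ Disjoint s t ∧ G.IsClique ((s ∪ t : Finset V) : Set V) := by
      intro t
      rw [mem_cl]
      constructor
      · rintro ⟨h1, h2⟩
        exact ⟨disjoint_of_subset_cn h1, isClique_union_of_subset_cn hs h2 h1⟩
      · rintro ⟨h1, h2⟩
        refine ⟨?_, isClique_mono subset_union_right h2⟩
        intro w hw
        rw [mem_cn]
        intro x hx
        refine h2 (by simp [hw]) (by simp [hx]) ?_
        rintro rfl
        exact Finset.disjoint_left.1 h1 hx hw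
    rw [← sum_cl_superset hs]
    have e1 : ∀ t ∈ cl G (cn G s), (-1 : ℤ) ^ (s ∪ t).card = (-1) ^ s.card * (-1) ^ t.card := by
      intro t ht
      rw [card_union_of_disjoint ((hcl t).1 ht).1, pow_add]
    rw [sum_congr rfl e1, ← mul_sum]
    have e2 : ∑ t ∈ cl G (cn G s), (-1 : ℤ) ^ t.card =
        ∑ j ∈ range (Fintype.card V + 1), (-1 : ℤ) ^ j * (F G s j).card := by
      rw [← sum_fiberwise_of_maps_to (t := range (Fintype.card V + 1)) (g := card)]
      · refine sum_congr rfl fun j _ => ?_
        have : (cl G (cn G s)).filter (fun t => t.card = j) = F G s j := by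
          ext t
          rw [mem_filter, hcl, mem_F]
          tauto
        rw [← this, sum_congr rfl (g := fun _ => (-1 : ℤ) ^ j)]
        · rw [sum_const, nsmul_eq_mul, mul_comm]
        · intro t ht
          rw [(mem_filter.1 ht).2]
      · intro t _
        rw [mem_range]
        have := card_le_univ t
        omega
    rw [e2, euler_link h hs, ← pow_add]
    congr 1
    omega

end rank

end Pool.Agent.H64.CabHS
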