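import Mathlib
import Pool.Agent.H64.FIrrT3

/-!
Irregular oriented graphs for the directed triangle.
-/

namespace Pool.Agent.H64.FIrrC3

open Pool.Agent.H48.FIrr Pool.Agent.H64.FIrrCnt3 Pool.Agent.H64.FIrrT3 Finset

/-- The graph for the directed triangle. -/
def GC (n : ℕ) : Vt n 4 → Vt n 4 → Bool :=
  G n ![false, false, false, true] ![true, true, true, false]
    ![false, true, true, true] ![true, false, false, false]
    ![![false, false, false, false], ![true, false, true, false],
      ![true, false, false, true], ![true, true, false, false]]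

lemma GC_asymm (n : ℕ) (u v : Vt n 4) (h : GC n u v = true) : ¬ GC n v u = true :=
  G_asymm n _ _ _ _ _ (by decide) (by decide) (by decide) u v h

/-- its counts of directed triangles -/
def valC (n : ℕ) : Vt n 4 → ℕ
  | .inl i => 2 * (i + 1) + 2
  | .inr (.inl j) => 2 * (n - j) + 3
  | .inr (.inr k) => ![4 * n, T n + 2 * n + 1, T n + n + 1, 3 * n + 1] k

lemma T_eq (n : ℕ) : T n = ∑ x : Fin n, (x : ℕ) + n := by
  unfold T
  rw [Finset.sum_add_distrib]
  simp

lemma cntC (n : ℕ) (p : Vt n 4) :
    cnt (fun a b : Fin 3 => b = a + 1) (fun u v => GC n u v = true) p = 3 * valC n p := by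
  classical
  rw [cnt_three _ _ p (fun x y z => GC n x y = true ∧ GC n y z = true ∧ GC n z x = true)]
  · unfold GC
    have hT := T_eq n
    rcases p with i | j | k
    · simp [Fintype.sum_sum_type, Fin.sum_univ_four, valC, sum_le, Finset.sum_add_distrib,
        -Finset.sum_boole]
      omega
    · simp [Fintype.sum_sum_type, Fin.sum_univ_four, valC, sum_ge, Finset.sum_add_distrib,
        -Finset.sum_boole]
      omega
    · fin_cases k
      · simp [Fintype.sum_sum_type, Fin.sum_univ_four, valC, -Finset.sum_boole]
        omega
      · simp [Fintype.sum_sum_type, Fin.sum_univ_four, valC, sum_le, sum_sum',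
          Finset.sum_add_distrib, -Finset.sum_boole]
        omega
      · simp [Fintype.sum_sum_type, Fin.sum_univ_four, valC, sum_le, sum_sum',
          Finset.sum_add_distrib, -Finset.sum_boole]
        omega
      · simp [Fintype.sum_sum_type, Fin.sum_univ_four, valC, -Finset.sum_boole]
        omega
  · intro x y z
    have hne : ∀ u v, GC n u v = true → u ≠ v := by
      rintro u v h rfl
      exact GC_asymm n _ _ h h
    constructor
    · rintro ⟨h1, h2, h3⟩
      have n1 := hne _ _ h1
      have n2 := hne _ _ h2
      have n3 := hne _ _ h3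
      constructor
      · intro a b hab
        fin_cases a <;> fin_cases b <;> simp_all
      · intro a b hab
        fin_cases a <;> fin_cases b <;> simp_all
    · rintro ⟨-, h⟩
      exact ⟨h 0 1 (by decide), h 1 2 (by decide), h 2 0 (by decide)⟩

lemma valC_inj (n : ℕ) (hn : 6 ≤ n) : Function.Injective (valC n) := by
  have hT := T_le n hn
  intro u v h
  rcases u with i | i | k <;> rcases v with j | j | l
  · simp only [valC] at h
    congr 1
    apply Fin.ext
    omega
  · simp only [valC] at h; omega
  · have := i.2
    fin_cases l <;> simp [valC] at h <;> omega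
  · simp only [valC] at h; omega
  · simp only [valC] at h
    have := i.2
    have := j.2
    congr 2
    apply Fin.ext
    omega
  · have := i.2
    fin_cases l <;> simp [valC] at h <;> omega
  · have := j.2
    fin_cases k <;> simp [valC] at h <;> omega
  · have := j.2
    fin_cases k <;> simp [valC] at h <;> omega
  · congr 2
    fin_cases k <;> fin_cases l <;> simp [valC] at h ⊢ <;> omega

/-- Infinitely many irregular oriented graphs for the directed triangle. -/
theorem c3_main (m : ℕ) : ∃ n ≥ m, ∃ E : Fin n → Fin n → Prop, (∀ u v, E u v → ¬ E v u) ∧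
    Function.Injective (cnt (fun a b : Fin 3 => b = a + 1) E) := by
  obtain ⟨E, h1, h2⟩ := transport (V := Vt (m + 6) 4) (fun a b : Fin 3 => b = a + 1)
    (fun u v => GC (m + 6) u v = true) (GC_asymm _) (by
      intro p q hpq
      rw [cntC, cntC] at hpq
      exact valC_inj _ (by omega) (by omega))
  refine ⟨_, ?_, E, h1, h2⟩
  simp only [Fintype.card_sum, Fintype.card_fin]
  omega

end Pool.Agent.H64.FIrrC3
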