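import Pool.Agent.H64.VK2

/-!
Contractibility of caps, and triviality of loops in the three-sphere.
-/

namespace Pool.Agent.H64.VK

open Set unitInterval Topology

/-- The normalised convex combination as a point of the sphere. -/
noncomputable def ncomb (x y : S3) (s : ℝ) (h : comb x y s ≠ 0) : S3 :=
  ⟨‖comb x y s‖⁻¹ • comb x y s, by
    rw [mem_sphere_zero_iff_norm, norm_smul, norm_inv, norm_norm]
    exact inv_mul_cancel₀ (norm_ne_zero_iff.mpr h)⟩

lemma continuous_comb (x : S3) : Continuous fun p : S3 × ℝ => comb x p.1 p.2 := by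
  unfold comb
  fun_prop

lemma contractible_cap (x : S3) {a : ℝ} (ha : -1 ≤ a) (ha1 : a < 1) :
    ContractibleSpace (cap x a) := by
  rw [contractible_iff_id_nullhomotopic]
  have hin : ∀ y : cap x a, -1 < inner ℝ (x : E4) (y.1 : E4) := fun y => lt_of_le_of_lt ha y.2
  have hne : ∀ (s : I) (y : cap x a), comb x y.1 s ≠ 0 := fun s y =>
    comb_ne_zero x y.1 s.2.1 s.2.2 (hin y)
  refine ⟨⟨x, mem_cap_self x ha1⟩, ⟨
    { toFun := fun p => ⟨ncomb x p.2.1 p.1 (hne p.1 p.2),
        inner_normalized x p.2.1 p.1.2.1 p.1.2.2 ha p.2.2⟩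
      continuous_toFun := ?_
      map_zero_left := ?_
      map_one_left := ?_ }⟩⟩
  · refine Continuous.subtype_mk (Continuous.subtype_mk ?_ _) _
    have hc : Continuous fun p : I × cap x a => comb x p.2.1 p.1 :=
      (continuous_comb x).comp (Continuous.prodMk (by fun_prop) (by fun_prop))
    exact (hc.norm.inv₀ (fun p => norm_ne_zero_iff.mpr (hne p.1 p.2))).smul hc
  · intro y
    apply Subtype.ext
    apply Subtype.ext
    simp only [ncomb, comb, Icc.coe_zero, sub_zero, one_smul, zero_smul, add_zero, norm_S3,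
      inv_one, ContinuousMap.id_apply]
  · intro y
    apply Subtype.ext
    apply Subtype.ext
    simp only [ncomb, comb, Icc.coe_one, sub_self, one_smul, zero_smul, zero_add, norm_S3,
      inv_one, ContinuousMap.const_apply]

lemma cap_homotopy (x : S3) {a : ℝ} (ha : -1 ≤ a) (ha1 : a < 1) {y z : S3} (p q : Path y z)
    (hp : ∀ t, p t ∈ cap x a) (hq : ∀ t, q t ∈ cap x a) :
    ∃ F : p.Homotopy q, ∀ s, F s ∈ cap x a := by
  have := contractible_cap x ha ha1
  exact exists_homotopy_of_simplyConnected p q hp hq

lemma cap_joined (x : S3) {a : ℝ} (ha : -1 ≤ a) (ha1 : a < 1) {y z : S3}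
    (hy : y ∈ cap x a) (hz : z ∈ cap x a) : JoinedIn (cap x a) y z := by
  have := contractible_cap x ha ha1
  have : IsPathConnected (cap x a) := isPathConnected_iff_pathConnectedSpace.mpr inferInstance
  exact this.joinedIn y hy z hz

/-- minus a point -/
def negS (x : S3) : S3 := ⟨-(x : E4), by simp⟩

lemma inner_negS (x y : S3) : inner ℝ (negS x : E4) (y : E4) = - inner ℝ (x : E4) (y : E4) := by
  unfold negS
  simp

/-- The sphere minus two antipodal points is path connected. -/
lemma isPathConnected_minus_two (x : S3) :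
    IsPathConnected (cap x (-1) ∩ cap (negS x) (-1)) := by
  -- image of the complement of the line spanned by x under normalisation
  set L : Submodule ℝ E4 := Submodule.span ℝ {(x : E4)} with hL
  have hrank : 1 < Module.rank ℝ (E4 ⧸ L) := by
    have h1 : Module.finrank ℝ L = 1 := by
      apply finrank_span_singleton
      intro h0
      have := norm_S3 x
      rw [h0, norm_zero] at this
      exact zero_ne_one this
    have h2 := Submodule.finrank_quotient_add_finrank L
    have h3 : Module.finrank ℝ E4 = 4 := by simp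
    rw [h1, h3] at h2
    have h4 : Module.finrank ℝ (E4 ⧸ L) = 3 := by omega
    rw [← Module.finrank_eq_rank, h4]
    norm_num
  have hpc : IsPathConnected ((L : Set E4)ᶜ) := isPathConnected_compl_of_one_lt_codim hrank
  have hne : ∀ v ∈ (L : Set E4)ᶜ, v ≠ 0 := by
    intro v hv h0
    apply hv
    rw [h0]
    exact L.zero_mem
  -- Work with the sphere as subtype
  let f : ((L : Set E4)ᶜ : Set E4) → S3 := fun v =>
    ⟨‖v.1‖⁻¹ • v.1, by
      rw [mem_sphere_zero_iff_norm, norm_smul, norm_inv, norm_norm]
      exact inv_mul_cancel₀ (norm_ne_zero_iff.mpr (hne v.1 v.2))⟩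
  have hf : Continuous f := by
    refine Continuous.subtype_mk ?_ _
    exact (continuous_subtype_val.norm.inv₀
      (fun v => norm_ne_zero_iff.mpr (hne v.1 v.2))).smul continuous_subtype_val
  have himage : range f = cap x (-1) ∩ cap (negS x) (-1) := by
    ext y
    constructor
    · rintro ⟨v, rfl⟩
      have hvL : v.1 ∉ L := v.2
      have hv0 : 0 < ‖v.1‖ := norm_pos_iff.mpr (hne v.1 v.2)
      -- strict Cauchy-Schwarz
      have hcs : |inner ℝ (x : E4) (f v : E4)| < 1 := by
        have h1 : |inner ℝ (x : E4) (f v : E4)| ≤ ‖(x : E4)‖ * ‖(f v : E4)‖ :=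
          abs_real_inner_le_norm _ _
        rw [norm_S3, norm_S3, one_mul] at h1
        rcases h1.lt_or_eq with h2 | h2
        · exact h2
        · exfalso
          have hx0 : (x : E4) ≠ 0 := by
            intro h0
            have := norm_S3 x
            rw [h0, norm_zero] at this
            exact zero_ne_one this
          have hf0 : (f v : E4) ≠ 0 := by
            intro h0
            have := norm_S3 (f v)
            rw [h0, norm_zero] at this
            exact zero_ne_one this
          have h3 : |inner ℝ (x : E4) (f v : E4) / (‖(x : E4)‖ * ‖(f v : E4)‖)| = 1 := by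
            rw [norm_S3, norm_S3, one_mul, div_one]; exact h2
          rw [abs_real_inner_div_norm_mul_norm_eq_one_iff] at h3
          obtain ⟨_, r, hr0, hr⟩ := h3
          apply hvL
          have h4 : v.1 = ‖v.1‖ • (f v : E4) := by
            change v.1 = ‖v.1‖ • (‖v.1‖⁻¹ • v.1)
            rw [smul_smul, mul_inv_cancel₀ hv0.ne', one_smul]
          rw [h4, hr]
          exact L.smul_mem _ (L.smul_mem _ (Submodule.mem_span_singleton_self _))
      rw [abs_lt] at hcs
      refine ⟨hcs.1, ?_⟩
      unfold cap
      rw [mem_ofPred_eq, inner_negS]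
      linarith [hcs.2]
    · rintro ⟨h1, h2⟩
      unfold cap at h1 h2
      rw [mem_ofPred_eq] at h1 h2
      rw [inner_negS] at h2
      have hyL : (y : E4) ∉ L := by
        intro hy
        rw [hL, Submodule.mem_span_singleton] at hy
        obtain ⟨c, hc⟩ := hy
        have h3 := norm_S3 y
        rw [← hc, norm_smul, norm_S3, mul_one, Real.norm_eq_abs] at h3
        rw [← hc, inner_smul_right, inner_self_S3, mul_one] at h1 h2
        rcases abs_eq (by norm_num : (0 : ℝ) ≤ 1) |>.mp h3 with h4 | h4
        · rw [h4] at h2; linarith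
        · rw [h4] at h1; linarith
      refine ⟨⟨(y : E4), hyL⟩, ?_⟩
      apply Subtype.ext
      change ‖(y : E4)‖⁻¹ • (y : E4) = y
      rw [norm_S3, inv_one, one_smul]
  rw [← himage]
  have : PathConnectedSpace ((L : Set E4)ᶜ : Set E4) :=
    isPathConnected_iff_pathConnectedSpace.mp hpc
  exact isPathConnected_range hf

/-- Every loop in the three-sphere is null-homotopic. -/
theorem S3_loop_null (b : S3) (γ : Path b b) : γ.Homotopic (Path.refl b) := by
  -- choose a unit vector orthogonal to b
  obtain ⟨N, hN⟩ : ∃ N : S3, inner ℝ (N : E4) (b : E4) = 0 := by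
    have hfr : 1 < Module.finrank ℝ E4 := by simp
    obtain ⟨v, hv0, hv⟩ : ∃ v : E4, v ≠ 0 ∧ inner ℝ v (b : E4) = 0 := by
      have h1 : (ℝ ∙ (b : E4))ᗮ ≠ ⊥ := by
        intro h0
        have h2 := Submodule.finrank_add_finrank_orthogonal (ℝ ∙ (b : E4))
        rw [h0, finrank_bot, add_zero] at h2
        have hb0 : (b : E4) ≠ 0 := by
          intro hb0
          have := norm_S3 b
          rw [hb0, norm_zero] at this
          exact zero_ne_one this
        have h3 : Module.finrank ℝ (ℝ ∙ (b : E4)) = 1 := finrank_span_singleton hb0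
        omega
      obtain ⟨v, hv, hv0⟩ := Submodule.exists_mem_ne_zero_of_ne_bot h1
      refine ⟨v, hv0, ?_⟩
      rw [Submodule.mem_orthogonal_singleton_iff_inner_left] at hv
      exact hv
    refine ⟨⟨‖v‖⁻¹ • v, by
      rw [mem_sphere_zero_iff_norm, norm_smul, norm_inv, norm_norm]
      exact inv_mul_cancel₀ (norm_ne_zero_iff.mpr hv0)⟩, ?_⟩
    simp only
    rw [inner_smul_left, hv, mul_zero]
  let W : Bool → Set S3 := fun i => if i then cap N (-1) else cap (negS N) (-1)
  have hW1 : W true = cap N (-1) := rfl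
  have hW2 : W false = cap (negS N) (-1) := rfl
  have hb1 : b ∈ cap N (-1) := by
    unfold cap; rw [mem_ofPred_eq, hN]; norm_num
  have hb2 : b ∈ cap (negS N) (-1) := by
    unfold cap; rw [mem_ofPred_eq, inner_negS, hN]; norm_num
  have hW : (⋂ i, W i) = cap N (-1) ∩ cap (negS N) (-1) := by
    ext y
    rw [mem_iInter, Bool.forall_bool, hW1, hW2]
    exact and_comm
  refine null_of_cover (W := W) ?_ ?_ ?_ ?_ ?_ ?_ γ
  · intro i
    cases i
    · exact isOpen_cap _ _
    · exact isOpen_cap _ _
  · intro x
    rcases le_or_gt (inner ℝ (N : E4) (x : E4)) 0 with h | h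
    · refine ⟨false, ?_⟩
      rw [hW2]
      unfold cap
      rw [mem_ofPred_eq, inner_negS]; linarith
    · refine ⟨true, ?_⟩
      rw [hW1]
      unfold cap
      rw [mem_ofPred_eq]; linarith
  · intro i x y p q hp hq
    cases i
    · obtain ⟨F, _⟩ := cap_homotopy (negS N) le_rfl (by norm_num) p q hp hq
      exact ⟨F⟩
    · obtain ⟨F, _⟩ := cap_homotopy N le_rfl (by norm_num) p q hp hq
      exact ⟨F⟩
  · intro i x hx
    cases i
    · exact cap_joined _ le_rfl (by norm_num) hb2 hx
    · exact cap_joined _ le_rfl (by norm_num) hb1 hx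
  · intro i
    cases i
    · exact hb2
    · exact hb1
  · intro x hx
    rw [hW]
    exact (isPathConnected_minus_two N).joinedIn b ⟨hb1, hb2⟩ x ⟨hx true, hx false⟩

end Pool.Agent.H64.VK
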