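import Pool.Agent.H64.KnotDef
import Pool.Agent.H64.VK3

/-!
Basic topology of the knot complement.
-/

namespace Pool.Agent.H64

open Set unitInterval Topology VK

lemma ball_eq_cap (x : VK.S3) {r : ℝ} (hr : 0 < r) : Metric.ball x r = cap x (1 - r ^ 2 / 2) := by
  ext y
  unfold cap
  rw [Metric.mem_ball, mem_ofPred_eq, Subtype.dist_eq, dist_eq_norm]
  have h1 : ‖(y : E4) - x‖ ^ 2 = 2 - 2 * inner ℝ (x : E4) (y : E4) := by
    rw [norm_sub_sq_real, norm_S3, norm_S3, real_inner_comm]; ring
  constructor
  · intro h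
    have h2 : ‖(y : E4) - x‖ ^ 2 < r ^ 2 := pow_lt_pow_left₀ h (norm_nonneg _) (by norm_num)
    linarith
  · intro h
    apply lt_of_pow_lt_pow_left₀ 2 hr.le
    linarith

lemma ball_joined (x : VK.S3) {r : ℝ} (hr : 0 < r) (hr1 : r ≤ 1) {y z : VK.S3}
    (hy : y ∈ Metric.ball x r) (hz : z ∈ Metric.ball x r) : JoinedIn (Metric.ball x r) y z := by
  rw [ball_eq_cap x hr] at *
  have h2 : r ^ 2 ≤ 1 := pow_le_one₀ hr.le hr1
  have h3 : 0 < r ^ 2 := by positivity
  exact cap_joined x (by linarith) (by linarith) hy hz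

lemma ball_homotopy (x : VK.S3) {r : ℝ} (hr : 0 < r) (hr1 : r ≤ 1) {y z : VK.S3}
    (p q : Path y z) (hp : ∀ t, p t ∈ Metric.ball x r) (hq : ∀ t, q t ∈ Metric.ball x r) :
    ∃ F : p.Homotopy q, ∀ s, F s ∈ Metric.ball x r := by
  rw [ball_eq_cap x hr] at *
  have h2 : r ^ 2 ≤ 1 := pow_le_one₀ hr.le hr1
  have h3 : 0 < r ^ 2 := by positivity
  exact cap_homotopy x (by linarith) (by linarith) p q hp hq

namespace TameKnot

variable (K : TameKnot)

/-- Internal copy of the knot group. -/
abbrev GroupI : Type := FundamentalGroup K.Complement (K.torus (1, 1))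

/-- Internal copy of the peripheral homomorphism. -/
noncomputable def peripheralI : FundamentalGroup (Circle × Circle) (1, 1) →* K.GroupI :=
  FundamentalGroup.map K.torus (1, 1)

/-- Internal copy of the meridian. -/
noncomputable def meridianI : K.GroupI :=
  K.peripheralI (FundamentalGroup.fromPath (Path.Homotopic.Quotient.mk meridianLoop))

instance : CompactSpace D2 := isCompact_iff_compactSpace.mp (isCompact_closedBall _ _)

lemma isClosedEmbedding_tube : IsClosedEmbedding K.tube :=
  K.continuous_tube.isClosedEmbedding K.injective_tube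

lemma isCompact_core : IsCompact K.core := by
  unfold core
  refine IsCompact.image (IsClosed.isCompact ?_) K.continuous_tube
  exact isClosed_eq (by fun_prop) continuous_const

lemma isOpen_compl_core : IsOpen (K.core)ᶜ := K.isCompact_core.isClosed.isOpen_compl

lemma tube_mem_compl {p : Circle × D2} (h : (p.2 : ℂ) ≠ 0) : K.tube p ∈ (K.core)ᶜ := by
  rintro ⟨q, hq, hqp⟩
  rw [K.injective_tube hqp] at hq
  exact h hq

/-- A point off the core as a point of the complement. -/
def pt (p : Circle × D2) (h : (p.2 : ℂ) ≠ 0) : K.Complement := ⟨K.tube p, K.tube_mem_compl h⟩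

/-- clip the real part at `0` -/
def clip (w : ℂ) : ℂ := ((min w.re 0 : ℝ) : ℂ) + w.im * Complex.I

lemma continuous_clip : Continuous clip := by
  unfold clip
  fun_prop

lemma clip_re (w : ℂ) : (clip w).re = min w.re 0 := by
  unfold clip
  simp

lemma clip_of_nonpos {w : ℂ} (h : w.re ≤ 0) : clip w = w := by
  unfold clip
  rw [min_eq_left h]
  exact Complex.re_add_im w

/-- exponential as a map to the closed unit disc -/
noncomputable def expD (w : ℂ) : D2 :=
  ⟨Complex.exp (clip w), by
    rw [mem_closedBall_zero_iff, Complex.norm_exp, clip_re]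
    exact Real.exp_le_one_iff.mpr (min_le_right _ _)⟩

lemma continuous_expD : Continuous expD :=
  Continuous.subtype_mk (Complex.continuous_exp.comp continuous_clip) _

lemma expD_ne_zero (w : ℂ) : (expD w : ℂ) ≠ 0 := Complex.exp_ne_zero _

/-- The universal-cover-like parametrisation of the punctured solid torus. -/
noncomputable def P : C(Circle × ℂ, K.Complement) where
  toFun p := K.pt (p.1, expD p.2) (expD_ne_zero _)
  continuous_toFun := by
    refine Continuous.subtype_mk (K.continuous_tube.comp ?_) _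
    exact continuous_fst.prodMk (continuous_expD.comp continuous_snd)

lemma expD_of_exp_eq {z : D2} {w : ℂ} (hw : Complex.exp w = z) :
    expD w = z := by
  apply Subtype.ext
  unfold expD
  simp only
  rw [clip_of_nonpos, hw]
  have h1 : ‖(z : ℂ)‖ ≤ 1 := by
    have := z.2
    rwa [mem_closedBall_zero_iff] at this
  rw [← hw, Complex.norm_exp] at h1
  exact Real.exp_le_one_iff.mp h1

lemma P_of_exp_eq {θ : Circle} {z : D2} {w : ℂ} (hw : Complex.exp w = z) (hz : (z : ℂ) ≠ 0) :
    K.P (θ, w) = K.pt (θ, z) hz := by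
  apply Subtype.ext
  change K.tube (θ, expD w) = K.tube (θ, z)
  rw [expD_of_exp_eq hw]

lemma P_base : K.P (1, 0) = K.torus (1, 1) := by
  apply Subtype.ext
  change K.tube (1, expD 0) = K.tube (1, circleToD2 1)
  congr 2
  apply expD_of_exp_eq
  simp [circleToD2]

lemma joined_P (p q : Circle × ℂ) : Joined (K.P p) (K.P q) := by
  have h : Joined p q := PathConnectedSpace.joined p q
  exact ⟨h.somePath.map K.P.continuous⟩

lemma joined_pt (p : Circle × D2) (h : (p.2 : ℂ) ≠ 0) : Joined (K.torus (1, 1)) (K.pt p h) := by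
  rw [← K.P_base]
  have h1 : K.P (p.1, Complex.log p.2) = K.pt p h := by
    exact K.P_of_exp_eq (θ := p.1) (z := p.2) (Complex.exp_log h) h
  rw [← h1]
  exact K.joined_P _ _

lemma joined_of_joinedIn_ball {x : S3} {r : ℝ} (hsub : Metric.ball x r ⊆ (K.core)ᶜ) {y z : S3}
    (hy : y ∈ (K.core)ᶜ) (hz : z ∈ (K.core)ᶜ) (h : JoinedIn (Metric.ball x r) y z) :
    Joined (⟨y, hy⟩ : K.Complement) ⟨z, hz⟩ := by
  obtain ⟨p, hp⟩ := h
  exact ⟨cod p (fun t => hsub (hp t))⟩

instance : PreconnectedSpace S3 := by
  refine Subtype.preconnectedSpace (isPreconnected_sphere ?_ 0 1)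
  rw [← Module.finrank_eq_rank]
  norm_num

instance pathConnected_complement : PathConnectedSpace K.Complement := by
  have key : {x : S3 | x ∈ K.core ∨ ∃ h : x ∈ (K.core)ᶜ, Joined (K.torus (1, 1)) ⟨x, h⟩} = univ := by
    apply IsClopen.eq_univ
    · constructor
      · -- closed: complement open
        rw [← isOpen_compl_iff, Metric.isOpen_iff]
        intro x hx
        rw [mem_compl_iff, mem_ofPred_eq, not_or, not_exists] at hx
        obtain ⟨hx1, hx2⟩ := hx
        have hx1' : x ∈ (K.core)ᶜ := hx1
        obtain ⟨r, hr, hsub⟩ := Metric.isOpen_iff.mp K.isOpen_compl_core x hx1'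
        refine ⟨min r 1, lt_min hr one_pos, ?_⟩
        intro y hy
        have hsub' : Metric.ball x (min r 1) ⊆ (K.core)ᶜ :=
          (Metric.ball_subset_ball (min_le_left _ _)).trans hsub
        rw [mem_compl_iff, mem_ofPred_eq, not_or, not_exists]
        refine ⟨hsub' hy, ?_⟩
        intro hyc hj
        apply hx2 hx1'
        refine hj.trans ?_
        refine K.joined_of_joinedIn_ball hsub' hyc hx1' ?_
        exact ball_joined x (lt_min hr one_pos) (min_le_right _ _) hy
          (Metric.mem_ball_self (lt_min hr one_pos))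
      · rw [isOpen_iff_mem_nhds]
        rintro x (hx | ⟨hxc, hj⟩)
        · -- neighbourhood V
          have hxV : x ∈ K.tube '' {p | ‖(p.2 : ℂ)‖ < 1} := by
            obtain ⟨p, hp, rfl⟩ := hx
            have hp' : (p.2 : ℂ) = 0 := hp
            exact ⟨p, by rw [mem_ofPred_eq, hp', norm_zero]; exact one_pos, rfl⟩
          refine Filter.mem_of_superset (K.isOpen_interior.mem_nhds hxV) ?_
          rintro _ ⟨p, _, rfl⟩
          by_cases h0 : (p.2 : ℂ) = 0
          · left; exact ⟨p, h0, rfl⟩
          · right; exact ⟨K.tube_mem_compl h0, K.joined_pt p h0⟩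
        · obtain ⟨r, hr, hsub⟩ := Metric.isOpen_iff.mp K.isOpen_compl_core x hxc
          have hsub' : Metric.ball x (min r 1) ⊆ (K.core)ᶜ :=
            (Metric.ball_subset_ball (min_le_left _ _)).trans hsub
          refine Filter.mem_of_superset (Metric.ball_mem_nhds x (lt_min hr one_pos)) ?_
          intro y hy
          right
          refine ⟨hsub' hy, hj.trans ?_⟩
          refine K.joined_of_joinedIn_ball hsub' hxc _ ?_
          exact ball_joined x (lt_min hr one_pos) (min_le_right _ _)
            (Metric.mem_ball_self (lt_min hr one_pos)) hy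
    · refine ⟨(K.torus (1, 1)).1, Or.inr ⟨(K.torus (1, 1)).2, ?_⟩⟩
      exact Joined.refl _
  have key2 : ∀ x : K.Complement, Joined (K.torus (1, 1)) x := by
    intro x
    have : x.1 ∈ {x : S3 | x ∈ K.core ∨ ∃ h : x ∈ (K.core)ᶜ, Joined (K.torus (1, 1)) ⟨x, h⟩} := by
      rw [key]; trivial
    rcases this with h | ⟨h, hj⟩
    · exact absurd h x.2
    · exact hj
  exact { nonempty := ⟨K.torus (1, 1)⟩
          joined := fun x y => (key2 x).symm.trans (key2 y) }

end TameKnot

end Pool.Agent.H64
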