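import Pool.Agent.H64.Knot1

/-!
The van Kampen argument: a homomorphism from the knot group that kills the meridian is trivial.
-/

namespace Pool.Agent.H64

open Set unitInterval Topology VK

namespace VK

variable {X : Type*} [TopologicalSpace X] {G : Type*} [Group G]

lemma LocalRep.val_congr {ι : Type*} {W : ι → Set X} (D : LocalRep X W G) {x y x' y' : X}
    (p : Path x y) (q : Path x' y') (h : ∀ t, p t = q t) : D.val p = D.val q := by
  have h0 : x = x' := by rw [← p.source, ← q.source, h 0]
  have h1 : y = y' := by rw [← p.target, ← q.target, h 1]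
  subst h0
  subst h1
  have : p = q := by ext t; exact h t
  rw [this]

lemma Rep.g_comp (D : Rep X G) (c : C(I × I, X)) (u v w : I × I) :
    D.g c u w = D.g c v w * D.g c u v := by
  refine D.cocycle (a := 0) (b := 1) (a' := 0) (b' := 1) c () (fun _ _ => trivial) ?_ ?_ ?_
  · exact ⟨⟨u.1.2.1, u.1.2.2⟩, ⟨u.2.2.1, u.2.2.2⟩⟩
  · exact ⟨⟨v.1.2.1, v.1.2.2⟩, ⟨v.2.2.1, v.2.2.2⟩⟩
  · exact ⟨⟨w.1.2.1, w.1.2.2⟩, ⟨w.2.2.1, w.2.2.2⟩⟩

lemma Rep.square (D : Rep X G) (c : C(I × I, X)) :
    D.g c (1, 0) (1, 1) * D.g c (0, 0) (1, 0) = D.g c (0, 1) (1, 1) * D.g c (0, 0) (0, 1) := by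
  rw [← D.g_comp, ← D.g_comp]

end VK

namespace TameKnot

variable (K : TameKnot) {G : Type*} [_root_.Group G] (D : Rep K.Complement G)

/-- slice of `P` -/
noncomputable def Pt (θ : Circle) : C(ℂ, K.Complement) :=
  K.P.comp ⟨fun w => (θ, w), by fun_prop⟩

/-- The value of the image of any path in the plane from `w` to `w'`. -/
noncomputable def e (θ : Circle) (w w' : ℂ) : G :=
  D.val ((PathConnectedSpace.somePath w w').map (K.Pt θ).continuous)

lemma e_eq (θ : Circle) {w w' : ℂ} (p : Path w w') :
    D.val (p.map (K.Pt θ).continuous) = K.e D θ w w' := by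
  unfold e
  have h : p.Homotopic (PathConnectedSpace.somePath w w') :=
    SimplyConnectedSpace.paths_homotopic _ _
  exact Rep.val_homotopic D (h.map (K.Pt θ))

lemma e_trans (θ : Circle) (w w' w'' : ℂ) :
    K.e D θ w w'' = K.e D θ w' w'' * K.e D θ w w' := by
  rw [← K.e_eq D θ ((PathConnectedSpace.somePath w w').trans (PathConnectedSpace.somePath w' w'')),
    Path.map_trans, Rep.val_trans]
  rfl

lemma e_self (θ : Circle) (w : ℂ) : K.e D θ w w = 1 := by
  have h := K.e_trans D θ w w w
  have h2 : K.e D θ w w * 1 = K.e D θ w w * K.e D θ w w := by rw [mul_one]; exact h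
  exact (mul_left_cancel h2).symm

lemma expD_add (w : ℂ) : expD (w + 2 * Real.pi * Complex.I) = expD w := by
  apply Subtype.ext
  unfold expD
  simp only
  have : clip (w + 2 * Real.pi * Complex.I) = clip w + 2 * Real.pi * Complex.I := by
    unfold clip
    simp
    ring
  rw [this]
  exact Complex.exp_periodic _

lemma Pt_add (θ : Circle) (w : ℂ) : K.Pt θ (w + 2 * Real.pi * Complex.I) = K.Pt θ w := by
  apply Subtype.ext
  change K.tube (θ, expD (w + 2 * Real.pi * Complex.I)) = K.tube (θ, expD w)
  rw [expD_add]

lemma e_transl (θ : Circle) (w w' : ℂ) :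
    K.e D θ (w + 2 * Real.pi * Complex.I) (w' + 2 * Real.pi * Complex.I) = K.e D θ w w' := by
  have hc : Continuous (fun w : ℂ => w + 2 * Real.pi * Complex.I) := by fun_prop
  rw [← K.e_eq D θ ((PathConnectedSpace.somePath w w').map hc)]
  unfold e
  apply LocalRep.val_congr
  intro t
  simp only [Path.map_coe, Function.comp]
  exact K.Pt_add θ _

/-- the value of the meridian in the slice `θ` -/
lemma mer_slice (h1 : K.e D 1 0 (2 * Real.pi * Complex.I) = 1) (θ : Circle) :
    K.e D θ 0 (2 * Real.pi * Complex.I) = 1 := by
  obtain ⟨α⟩ : Joined (1 : Circle) θ := PathConnectedSpace.joined _ _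
  let c : C(I × I, K.Complement) := K.P.comp
    ⟨fun p => (α p.1, (p.2 : ℂ) * (2 * Real.pi * Complex.I)), by
      refine Continuous.prodMk (α.continuous.comp continuous_fst) ?_
      refine Continuous.mul ?_ continuous_const
      exact Complex.continuous_ofReal.comp (continuous_subtype_val.comp continuous_snd)⟩
  have hsq := Rep.square D c
  -- line in the plane
  let ℓ : Path (0 : ℂ) (2 * Real.pi * Complex.I) :=
    { toFun := fun t => (t : ℂ) * (2 * Real.pi * Complex.I)
      continuous_toFun := by
        refine Continuous.mul ?_ continuous_const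
        exact Complex.continuous_ofReal.comp continuous_subtype_val
      source' := by simp
      target' := by simp }
  have e0 : D.g c (0, 0) (0, 1) = K.e D 1 0 (2 * Real.pi * Complex.I) := by
    rw [← K.e_eq D 1 ℓ]
    apply LocalRep.val_congr
    intro t
    simp only [Path.map_coe, Function.comp, line2_apply, Icc.convexComb_eq,
      Icc.convexComb_zero_one]
    change K.P (α 0, (t : ℂ) * (2 * Real.pi * Complex.I)) =
      K.P (1, (t : ℂ) * (2 * Real.pi * Complex.I))
    rw [α.source]
  have e1 : D.g c (1, 0) (1, 1) = K.e D θ 0 (2 * Real.pi * Complex.I) := by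
    rw [← K.e_eq D θ ℓ]
    apply LocalRep.val_congr
    intro t
    simp only [Path.map_coe, Function.comp, line2_apply, Icc.convexComb_eq,
      Icc.convexComb_zero_one]
    change K.P (α 1, (t : ℂ) * (2 * Real.pi * Complex.I)) =
      K.P (θ, (t : ℂ) * (2 * Real.pi * Complex.I))
    rw [α.target]
  have e2 : D.g c (0, 0) (1, 0) = D.g c (0, 1) (1, 1) := by
    apply LocalRep.val_congr
    intro t
    simp only [Path.map_coe, Function.comp, line2_apply, Icc.convexComb_eq,
      Icc.convexComb_zero_one]
    apply Subtype.ext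
    change K.tube (α t, expD (((0 : I) : ℝ) * (2 * Real.pi * Complex.I))) =
      K.tube (α t, expD (((1 : I) : ℝ) * (2 * Real.pi * Complex.I)))
    have := expD_add 0
    simp only [Icc.coe_zero, Icc.coe_one, Complex.ofReal_zero, Complex.ofReal_one, zero_mul,
      one_mul]
    rw [← this, zero_add]
  rw [e0, e1, e2, h1, mul_one] at hsq
  have h2 : K.e D θ 0 (2 * Real.pi * Complex.I) * D.g c (0, 1) (1, 1) =
      1 * D.g c (0, 1) (1, 1) := by rw [hsq, one_mul]
  exact mul_right_cancel h2

lemma e_period (h1 : K.e D 1 0 (2 * Real.pi * Complex.I) = 1) (θ : Circle) (w : ℂ) :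
    K.e D θ w (w + 2 * Real.pi * Complex.I) = 1 := by
  have a1 := K.e_trans D θ w (2 * Real.pi * Complex.I) (w + 2 * Real.pi * Complex.I)
  have a2 := K.e_trans D θ w 0 (2 * Real.pi * Complex.I)
  have a3 := K.e_transl D θ 0 w
  rw [zero_add] at a3
  rw [K.mer_slice D h1 θ, one_mul] at a2
  rw [a1, a2, a3, ← K.e_trans, K.e_self]

lemma e_int (h1 : K.e D 1 0 (2 * Real.pi * Complex.I) = 1) (θ : Circle) (w : ℂ) (n : ℤ) :
    K.e D θ w (w + n * (2 * Real.pi * Complex.I)) = 1 := by
  induction n using Int.induction_on with
  | zero => simp [K.e_self]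
  | succ n ih =>
    have h2 := K.e_period D h1 θ (w + (n : ℤ) * (2 * Real.pi * Complex.I))
    have h3 : w + ((n : ℤ) + 1 : ℤ) * (2 * Real.pi * Complex.I) =
        w + (n : ℤ) * (2 * Real.pi * Complex.I) + 2 * Real.pi * Complex.I := by
      push_cast; ring
    rw [h3, K.e_trans D θ w (w + (n : ℤ) * (2 * Real.pi * Complex.I)), h2, ih, one_mul]
  | pred n ih =>
    have h2 := K.e_period D h1 θ (w + (-(n : ℤ) - 1 : ℤ) * (2 * Real.pi * Complex.I))
    have h3 : w + (-(n : ℤ) - 1 : ℤ) * (2 * Real.pi * Complex.I) + 2 * Real.pi * Complex.I =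
        w + (-(n : ℤ) : ℤ) * (2 * Real.pi * Complex.I) := by
      push_cast; ring
    rw [h3] at h2
    have h4 := K.e_trans D θ w (w + (-(n : ℤ) - 1 : ℤ) * (2 * Real.pi * Complex.I))
      (w + (-(n : ℤ) : ℤ) * (2 * Real.pi * Complex.I))
    rw [ih, h2, one_mul] at h4
    exact h4.symm

/-- The value of the radial path from `(θ, z)` to `(θ, 1)`. -/
noncomputable def Sv (q : Circle × D2) : G := K.e D q.1 (Complex.log q.2) 0

lemma Sv_eq (h1 : K.e D 1 0 (2 * Real.pi * Complex.I) = 1) {θ : Circle} {z : D2} {w : ℂ}
    (hw : Complex.exp w = z) (hz : (z : ℂ) ≠ 0) : K.e D θ w 0 = K.Sv D (θ, z) := by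
  unfold Sv
  simp only
  have h2 : Complex.exp w = Complex.exp (Complex.log z) := by rw [hw, Complex.exp_log hz]
  obtain ⟨n, hn⟩ := Complex.exp_eq_exp_iff_exists_int.mp h2
  have h3 := K.e_int D h1 θ (Complex.log z) n
  rw [← hn] at h3
  have h4 := K.e_trans D θ (Complex.log z) w 0
  rw [h3, mul_one] at h4
  exact h4.symm

/-- the open solid torus -/
def V : Set S3 := K.tube '' {p | ‖(p.2 : ℂ)‖ < 1}

/-- coordinates on the solid torus -/
noncomputable def coord : S3 → Circle × D2 :=
  @Function.invFun _ _ ⟨(1, circleToD2 1)⟩ K.tube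

lemma coord_tube (q : Circle × D2) : K.coord (K.tube q) = q := by
  unfold coord
  exact @Function.leftInverse_invFun _ _ ⟨(1, circleToD2 1)⟩ K.tube K.injective_tube q

lemma tube_coord {x : S3} (hx : x ∈ range K.tube) : K.tube (K.coord x) = x := by
  obtain ⟨q, rfl⟩ := hx
  rw [coord_tube]

lemma continuousOn_coord : ContinuousOn K.coord (range K.tube) := by
  have hemb := K.isClosedEmbedding_tube.isEmbedding
  rw [continuousOn_iff_continuous_domRestrict]
  have : (range K.tube).domRestrict K.coord = hemb.toHomeomorph.symm := by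
    ext1 x
    obtain ⟨q, hq⟩ := x.2
    have h1 : x = hemb.toHomeomorph q := Subtype.ext hq.symm
    rw [h1, Homeomorph.symm_apply_apply]
    change K.coord (K.tube q) = q
    exact K.coord_tube q
  rw [this]
  exact hemb.toHomeomorph.symm.continuous

lemma V_subset_range : K.V ⊆ range K.tube := by
  rintro _ ⟨q, _, rfl⟩
  exact ⟨q, rfl⟩

/-- The coordinate path of a path in the solid torus. -/
noncomputable def cpath {x y : S3} (p : Path x y) (hp : ∀ t, p t ∈ range K.tube) :
    Path (K.coord x) (K.coord y) :=
  p.map' (K.continuousOn_coord.mono (by rintro _ ⟨t, rfl⟩; exact hp t))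

lemma cpath_apply {x y : S3} (p : Path x y) (hp : ∀ t, p t ∈ range K.tube) (t : I) :
    K.cpath p hp t = K.coord (p t) := rfl

/-- The longitudinal direction map. -/
noncomputable def Lg : C(Circle × D2, K.Complement) :=
  K.P.comp ⟨fun q => (q.1, 0), by fun_prop⟩

/-- The value of a path in the open solid torus. -/
noncomputable def valV {x y : S3} (p : Path x y) (hp : ∀ t, p t ∈ range K.tube) : G :=
  (K.Sv D (K.coord y))⁻¹ * D.val ((K.cpath p hp).map K.Lg.continuous) * K.Sv D (K.coord x)

/-- Agreement on the overlap. -/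
lemma valV_eq (h1 : K.e D 1 0 (2 * Real.pi * Complex.I) = 1) {x y : S3} (p : Path x y)
    (hp : ∀ t, p t ∈ range K.tube) (hp' : ∀ t, p t ∈ (K.core)ᶜ) :
    D.val (cod p hp') = K.valV D p hp := by
  set q := K.cpath p hp with hq
  have hqp : ∀ t, K.tube (q t) = p t := fun t => K.tube_coord (hp t)
  have hz : ∀ t, ((q t).2 : ℂ) ≠ 0 := by
    intro t h0
    exact hp' t ⟨q t, h0, hqp t⟩
  let γ : C(I, {z : ℂ // z ≠ 0}) := ⟨fun t => ⟨((q t).2 : ℂ), hz t⟩, by
    refine Continuous.subtype_mk ?_ _
    exact continuous_subtype_val.comp (continuous_snd.comp q.continuous)⟩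
  obtain ⟨w, hw, _⟩ := Complex.isCoveringMap_exp.exists_path_lifts γ (Complex.log (q 0).2)
    (Subtype.ext (Complex.exp_log (hz 0)).symm)
  have hw' : ∀ t, Complex.exp (w t) = (q t).2 := by
    intro t
    have := congrFun hw t
    exact congrArg Subtype.val this
  let c : C(I × I, K.Complement) := K.P.comp
    ⟨fun s => ((q s.2).1, ((1 - (s.1 : ℝ) : ℝ) : ℂ) * w s.2), by
      refine Continuous.prodMk ?_ ?_
      · exact continuous_fst.comp (q.continuous.comp continuous_snd)
      · refine Continuous.mul ?_ (w.continuous.comp continuous_snd)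
        exact Complex.continuous_ofReal.comp
          (continuous_const.sub (continuous_subtype_val.comp continuous_fst))⟩
  have hc : ∀ s, c s = K.P ((q s.2).1, ((1 - (s.1 : ℝ) : ℝ) : ℂ) * w s.2) := fun _ => rfl
  have hsq := Rep.square D c
  have e0 : D.g c (0, 0) (0, 1) = D.val (cod p hp') := by
    apply LocalRep.val_congr
    intro t
    simp only [Path.map_coe, Function.comp, line2_apply, Icc.convexComb_eq,
      Icc.convexComb_zero_one]
    rw [hc]
    simp only [Icc.coe_zero, sub_zero, Complex.ofReal_one, one_mul]
    rw [K.P_of_exp_eq (θ := (q t).1) (z := (q t).2) (hw' t) (hz t)]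
    apply Subtype.ext
    exact hqp t
  have e1 : D.g c (1, 0) (1, 1) = D.val (q.map K.Lg.continuous) := by
    apply LocalRep.val_congr
    intro t
    simp only [Path.map_coe, Function.comp, line2_apply, Icc.convexComb_eq,
      Icc.convexComb_zero_one]
    rw [hc]
    simp only [Icc.coe_one, sub_self, Complex.ofReal_zero, zero_mul]
    rfl
  -- sides
  have side : ∀ r : I, ∀ a b : I × I, a = (0, r) → b = (1, r) →
      D.g c a b = K.Sv D (q r) := by
    rintro r _ _ rfl rfl
    rw [← K.Sv_eq D h1 (θ := (q r).1) (z := (q r).2) (hw' r) (hz r)]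
    let ℓ : Path (w r) (0 : ℂ) :=
      { toFun := fun t => ((1 - (t : ℝ) : ℝ) : ℂ) * w r
        continuous_toFun := by
          refine Continuous.mul ?_ continuous_const
          exact Complex.continuous_ofReal.comp (continuous_const.sub continuous_subtype_val)
        source' := by simp
        target' := by simp }
    rw [← K.e_eq D (q r).1 ℓ]
    apply LocalRep.val_congr
    intro t
    simp only [Path.map_coe, Function.comp, line2_apply, Icc.convexComb_eq,
      Icc.convexComb_zero_one]
    rfl
  have e2 : D.g c (0, 0) (1, 0) = K.Sv D (K.coord x) := by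
    rw [side 0 _ _ rfl rfl]
    have : q 0 = K.coord x := q.source
    rw [this]
  have e3 : D.g c (0, 1) (1, 1) = K.Sv D (K.coord y) := by
    rw [side 1 _ _ rfl rfl]
    have : q 1 = K.coord y := q.target
    rw [this]
  rw [e0, e1, e2, e3] at hsq
  unfold valV
  rw [mul_assoc, hsq]
  group

/-- The two sets of the cover. -/
def Wc : Bool → Set S3 := fun i => if i then (K.core)ᶜ else K.V

open Classical in
/-- The glued value. -/
noncomputable def gval {x y : S3} (p : Path x y) : G :=
  if h : ∀ t, p t ∈ (K.core)ᶜ then D.val (cod p h)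
  else if h' : ∀ t, p t ∈ range K.tube then K.valV D p h' else 1

lemma gval_true {x y : S3} (p : Path x y) (h : ∀ t, p t ∈ (K.core)ᶜ) :
    K.gval D p = D.val (cod p h) := by
  unfold gval
  rw [dif_pos h]

lemma gval_false (h1 : K.e D 1 0 (2 * Real.pi * Complex.I) = 1) {x y : S3} (p : Path x y)
    (h : ∀ t, p t ∈ range K.tube) : K.gval D p = K.valV D p h := by
  unfold gval
  split_ifs with h2
  · exact K.valV_eq D h1 p h h2
  · rfl

/-- The glued local representation. -/
noncomputable def glued (h1 : K.e D 1 0 (2 * Real.pi * Complex.I) = 1) :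
    LocalRep S3 K.Wc G where
  val p := K.gval D p
  homotopic := by
    intro i x y p q F hF
    have hp : ∀ t, p t ∈ K.Wc i := fun t => by
      have := hF (0, t)
      rwa [F.apply_zero] at this
    have hq : ∀ t, q t ∈ K.Wc i := fun t => by
      have := hF (1, t)
      rwa [F.apply_one] at this
    cases i
    · have hp' : ∀ t, p t ∈ range K.tube := fun t => K.V_subset_range (hp t)
      have hq' : ∀ t, q t ∈ range K.tube := fun t => K.V_subset_range (hq t)
      have hF' : ∀ s, F s ∈ range K.tube := fun s => K.V_subset_range (hF s)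
      rw [K.gval_false D h1 p hp', K.gval_false D h1 q hq']
      unfold valV
      congr 2
      apply Rep.val_homotopic
      refine Path.Homotopic.map ?_ K.Lg
      have hcont : Continuous (fun s : I × I => K.coord (F s)) := by
        have h := K.continuousOn_coord.comp_continuous F.continuous hF'
        exact h
      exact ⟨{ toFun := fun s => K.coord (F s)
               continuous_toFun := hcont
               map_zero_left := fun t => by
                rw [F.apply_zero]; rfl
               map_one_left := fun t => by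
                rw [F.apply_one]; rfl
               prop' := fun t s hs => by
                change K.coord (F (t, s)) = K.coord (p s)
                congr 1
                exact F.prop' t s hs }⟩
    · rw [K.gval_true D p hp, K.gval_true D q hq]
      apply Rep.val_homotopic
      exact ⟨{ toFun := fun s => ⟨F s, hF s⟩
               continuous_toFun := F.continuous.subtype_mk _
               map_zero_left := fun t => by
                apply Subtype.ext
                exact F.apply_zero t
               map_one_left := fun t => by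
                apply Subtype.ext
                exact F.apply_one t
               prop' := fun t s hs => by
                apply Subtype.ext
                exact F.prop' t s hs }⟩
  trans := by
    intro i x y z p q hp hq
    have hpq : ∀ t, (p.trans q) t ∈ K.Wc i := by
      intro t
      have : (p.trans q) t ∈ range (p.trans q) := ⟨t, rfl⟩
      rw [Path.trans_range] at this
      rcases this with ⟨s, hs⟩ | ⟨s, hs⟩
      · rw [← hs]; exact hp s
      · rw [← hs]; exact hq s
    cases i
    · have hp' : ∀ t, p t ∈ range K.tube := fun t => K.V_subset_range (hp t)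
      have hq' : ∀ t, q t ∈ range K.tube := fun t => K.V_subset_range (hq t)
      have hpq' : ∀ t, (p.trans q) t ∈ range K.tube := fun t => K.V_subset_range (hpq t)
      rw [K.gval_false D h1 p hp', K.gval_false D h1 q hq', K.gval_false D h1 _ hpq']
      unfold valV
      have : D.val ((K.cpath (p.trans q) hpq').map K.Lg.continuous) =
          D.val ((K.cpath q hq').map K.Lg.continuous) *
            D.val ((K.cpath p hp').map K.Lg.continuous) := by
        rw [← Rep.val_trans, ← Path.map_trans]
        apply LocalRep.val_congr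
        intro t
        simp only [Path.map_coe, Function.comp]
        congr 1
        rw [cpath_apply, Path.trans_apply, Path.trans_apply]
        split_ifs
        · rfl
        · rfl
      rw [this]
      group
    · rw [K.gval_true D p hp, K.gval_true D q hq, K.gval_true D _ hpq, ← Rep.val_trans]
      apply LocalRep.val_congr
      intro t
      apply Subtype.ext
      change (p.trans q) t = (((cod p hp).trans (cod q hq)) t : S3)
      rw [Path.trans_apply, Path.trans_apply]
      split_ifs
      · rfl
      · rfl

/-- A representation of the paths of the complement which kills the meridian kills all loops. -/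
theorem val_eq_one (h1 : K.e D 1 0 (2 * Real.pi * Complex.I) = 1)
    (γ : Path (K.torus (1, 1)) (K.torus (1, 1))) : D.val γ = 1 := by
  let γ' : Path (K.torus (1, 1)).1 (K.torus (1, 1)).1 := γ.map continuous_subtype_val
  have hγ' : ∀ t, γ' t ∈ (K.core)ᶜ := fun t => (γ t).2
  have h := grid (K.glued D h1) ?_ ?_ γ' true hγ' (S3_loop_null _ _)
  · have h2 : K.gval D γ' = 1 := h
    rw [K.gval_true D γ' hγ'] at h2
    rw [← h2]
    apply LocalRep.val_congr
    intro t
    rfl
  · intro i
    cases i
    · exact K.isOpen_interior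
    · exact K.isOpen_compl_core
  · intro x
    by_cases hx : x ∈ K.core
    · refine ⟨false, ?_⟩
      obtain ⟨p, hp, rfl⟩ := hx
      have hp' : (p.2 : ℂ) = 0 := hp
      exact ⟨p, by rw [mem_ofPred_eq, hp', norm_zero]; exact one_pos, rfl⟩
    · exact ⟨true, hx⟩

end TameKnot

end Pool.Agent.H64
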