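import Pool.Agent.H64.Knot2

/-!
The knot group is normally generated by the meridian and finitely generated.
-/

namespace Pool.Agent.H64

open Set unitInterval Topology VK

namespace VK

variable {X : Type*} [TopologicalSpace X] {G G' : Type*} [Group G] [Group G']

/-- composition with a homomorphism -/
def Rep.comp (D : Rep X G) (f : G →* G') : Rep X G' where
  val p := f (D.val p)
  homotopic := by
    intro _ x y p q F _
    rw [Rep.val_homotopic D ⟨F⟩]
  trans := by
    intro _ x y z p q _ _
    rw [Rep.val_trans, map_mul]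

/-- gauge transformation -/
def Rep.gauge (D : Rep X G) (k : X → G) : Rep X G where
  val {x y} p := (k y)⁻¹ * D.val p * k x
  homotopic := by
    intro _ x y p q F _
    rw [Rep.val_homotopic D ⟨F⟩]
  trans := by
    intro _ x y z p q _ _
    rw [Rep.val_trans]
    group

lemma Rep.gauge_val (D : Rep X G) (k : X → G) {x y : X} (p : Path x y) :
    (D.gauge k).val p = (k y)⁻¹ * D.val p * k x := rfl

lemma Rep.comp_val (D : Rep X G) (f : G →* G') {x y : X} (p : Path x y) :
    (D.comp f).val p = f (D.val p) := rfl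

/-- The value of `ofPaths` on loops at the base point is a conjugate of the class. -/
lemma Rep.ofPaths_val {b : X} (κ : ∀ x, Path b x) (γ : Path b b) :
    (Rep.ofPaths κ).val γ =
      (FundamentalGroup.fromPath (Path.Homotopic.Quotient.mk (κ b)))⁻¹ *
        FundamentalGroup.fromPath (Path.Homotopic.Quotient.mk γ) *
          FundamentalGroup.fromPath (Path.Homotopic.Quotient.mk (κ b)) := by
  rw [mul_assoc]
  rfl

lemma exists_rep_path {b : X} (g : FundamentalGroup X b) :
    ∃ γ : Path b b, FundamentalGroup.fromPath (Path.Homotopic.Quotient.mk γ) = g := by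
  obtain ⟨γ, hγ⟩ := Path.Homotopic.Quotient.mk_surjective g
  exact ⟨γ, hγ⟩

end VK

namespace TameKnot

variable (K : TameKnot)

/-- the loop of the meridian in the complement -/
lemma meridianI_eq : K.meridianI = FundamentalGroup.fromPath
    (Path.Homotopic.Quotient.mk (meridianLoop.map K.torus.continuous)) := rfl

lemma e_meridian {G : Type*} [_root_.Group G] (D : Rep K.Complement G) :
    K.e D 1 0 (2 * Real.pi * Complex.I) = D.val (meridianLoop.map K.torus.continuous) := by
  let ℓ : Path (0 : ℂ) (2 * Real.pi * Complex.I) :=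
    { toFun := fun t => (t : ℂ) * (2 * Real.pi * Complex.I)
      continuous_toFun := by
        refine Continuous.mul ?_ continuous_const
        exact Complex.continuous_ofReal.comp continuous_subtype_val
      source' := by simp
      target' := by simp }
  rw [← K.e_eq D 1 ℓ]
  apply LocalRep.val_congr
  intro t
  simp only [Path.map_coe, Function.comp]
  apply Subtype.ext
  change K.tube (1, expD ((t : ℂ) * (2 * Real.pi * Complex.I))) =
    K.tube (1, circleToD2 (Circle.exp (2 * Real.pi * t)))
  congr 2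
  apply expD_of_exp_eq
  unfold circleToD2
  simp only [Circle.coe_exp]
  congr 1
  push_cast
  ring

/-- The knot group is the normal closure of the meridian. -/
theorem normalClosure_meridian : Subgroup.normalClosure {K.meridianI} = ⊤ := by
  set N : Subgroup K.GroupI := Subgroup.normalClosure {K.meridianI} with hN
  let κ : ∀ x : K.Complement, Path (K.torus (1, 1)) x := fun x => PathConnectedSpace.somePath _ x
  let D0 : Rep K.Complement K.GroupI := Rep.ofPaths κ
  let D : Rep K.Complement (K.GroupI ⧸ N) := D0.comp (QuotientGroup.mk' N)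
  have hmN : K.meridianI ∈ N := Subgroup.subset_normalClosure (mem_singleton _)
  have h1 : K.e D 1 0 (2 * Real.pi * Complex.I) = 1 := by
    rw [K.e_meridian D]
    rw [Rep.comp_val, Rep.ofPaths_val, ← K.meridianI_eq]
    rw [QuotientGroup.mk'_apply, QuotientGroup.eq_one_iff]
    have := (inferInstance : N.Normal).conj_mem K.meridianI hmN
      (FundamentalGroup.fromPath (Path.Homotopic.Quotient.mk (κ (K.torus (1, 1)))))⁻¹
    rwa [inv_inv] at this
  rw [eq_top_iff]
  intro g _
  obtain ⟨γ, hγ⟩ := exists_rep_path g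
  have h2 := K.val_eq_one D h1 γ
  rw [Rep.comp_val, Rep.ofPaths_val, hγ, QuotientGroup.mk'_apply, QuotientGroup.eq_one_iff] at h2
  have h3 := (inferInstance : N.Normal).conj_mem _ h2
      (FundamentalGroup.fromPath (Path.Homotopic.Quotient.mk (κ (K.torus (1, 1)))))
  have h4 : FundamentalGroup.fromPath (Path.Homotopic.Quotient.mk (κ (K.torus (1, 1)))) *
      ((FundamentalGroup.fromPath (Path.Homotopic.Quotient.mk (κ (K.torus (1, 1)))))⁻¹ * g *
        FundamentalGroup.fromPath (Path.Homotopic.Quotient.mk (κ (K.torus (1, 1))))) *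
      (FundamentalGroup.fromPath (Path.Homotopic.Quotient.mk (κ (K.torus (1, 1)))))⁻¹ = g := by
    group
  rw [h4] at h3
  exact h3

/-! ### Finite generation -/

lemma isOpen_tube_half : IsOpen (K.tube '' {q | ‖(q.2 : ℂ)‖ < 1 / 2}) := by
  have hO : IsOpen {q : Circle × D2 | ‖(q.2 : ℂ)‖ < 1 / 2} :=
    isOpen_lt (by fun_prop) continuous_const
  obtain ⟨W, hW, hWO⟩ := K.isClosedEmbedding_tube.isEmbedding.isInducing.isOpen_iff.mp hO
  have : K.tube '' {q | ‖(q.2 : ℂ)‖ < 1 / 2} = W ∩ (K.tube '' {p | ‖(p.2 : ℂ)‖ < 1}) := by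
    ext x
    constructor
    · rintro ⟨q, hq, rfl⟩
      refine ⟨?_, q, ?_, rfl⟩
      · have : q ∈ K.tube ⁻¹' W := by rw [hWO]; exact hq
        exact this
      · rw [mem_ofPred_eq] at hq ⊢
        linarith
    · rintro ⟨hx, q, _, rfl⟩
      refine ⟨q, ?_, rfl⟩
      rw [← hWO]
      exact hx
  rw [this]
  exact hW.inter K.isOpen_interior

/-- the compact core of the complement -/
def Cc : Set S3 := (K.tube '' {q | ‖(q.2 : ℂ)‖ < 1 / 2})ᶜ

lemma isCompact_Cc : IsCompact K.Cc :=
  (K.isOpen_tube_half.isClosed_compl).isCompact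

lemma Cc_subset : K.Cc ⊆ (K.core)ᶜ := by
  intro x hx hx'
  apply hx
  obtain ⟨q, hq, rfl⟩ := hx'
  have hq' : (q.2 : ℂ) = 0 := hq
  exact ⟨q, by rw [mem_ofPred_eq, hq', norm_zero]; norm_num, rfl⟩

/-- pushing outwards -/
noncomputable def push (s : I) (z : ℂ) : ℂ :=
  ((((1 - (s : ℝ)) + (s : ℝ) * max 1 (1 / (2 * ‖z‖)) : ℝ)) : ℂ) * z

lemma push_norm (s : I) {z : ℂ} (hz : z ≠ 0) :
    ‖push s z‖ = (1 - (s : ℝ)) * ‖z‖ + (s : ℝ) * max ‖z‖ (1 / 2) := by
  have hpos : 0 < ‖z‖ := norm_pos_iff.mpr hz
  have h0 : 0 ≤ (1 - (s : ℝ)) + (s : ℝ) * max 1 (1 / (2 * ‖z‖)) := by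
    have h1 := s.2.1
    have h2 := s.2.2
    have h3 : (0 : ℝ) ≤ max 1 (1 / (2 * ‖z‖)) := le_max_of_le_left zero_le_one
    have h4 := mul_nonneg h1 h3
    linarith
  unfold push
  rw [norm_mul, Complex.norm_real, Real.norm_eq_abs, abs_of_nonneg h0, add_mul, mul_assoc,
    max_mul_of_nonneg _ _ hpos.le, one_mul]
  congr 3
  field_simp

lemma push_norm_le (s : I) {z : ℂ} (hz : z ≠ 0) (hz1 : ‖z‖ ≤ 1) : ‖push s z‖ ≤ 1 := by
  rw [push_norm s hz]
  have h1 := s.2.1
  have h2 := s.2.2
  have h3 : max ‖z‖ (1 / 2) ≤ 1 := max_le hz1 (by norm_num)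
  nlinarith

lemma push_ne_zero (s : I) {z : ℂ} (hz : z ≠ 0) : push s z ≠ 0 := by
  have hpos : 0 < ‖z‖ := norm_pos_iff.mpr hz
  rw [← norm_pos_iff, push_norm s hz]
  have h1 := s.2.1
  have h2 := s.2.2
  have h3 : ‖z‖ ≤ max ‖z‖ (1 / 2) := le_max_left _ _
  nlinarith

lemma push_zero (z : ℂ) : push 0 z = z := by
  unfold push
  simp

lemma push_of_half_le (s : I) {z : ℂ} (hz : 1 / 2 ≤ ‖z‖) : push s z = z := by
  unfold push
  have hpos : 0 < ‖z‖ := by linarith
  have : 1 / (2 * ‖z‖) ≤ 1 := by
    rw [div_le_one (by positivity)]; linarith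
  rw [max_eq_left this]
  simp

lemma push_one_norm {z : ℂ} (hz : z ≠ 0) : 1 / 2 ≤ ‖push 1 z‖ := by
  rw [push_norm 1 hz]
  simp

lemma norm_D2 (z : D2) : ‖(z : ℂ)‖ ≤ 1 := by
  have := z.2
  rwa [mem_closedBall_zero_iff] at this

/-- The pushing map as a point in the complement. -/
noncomputable def pushPt (s : I) (q : Circle × D2) (h : (q.2 : ℂ) ≠ 0) : K.Complement :=
  K.pt (q.1, ⟨push s q.2, by
    rw [mem_closedBall_zero_iff]; exact push_norm_le s h (norm_D2 _)⟩) (push_ne_zero s h)

lemma continuous_pushPt {T : Type*} [TopologicalSpace T] {f : T → I} {q : T → Circle × D2}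
    (hf : Continuous f) (hq : Continuous q) (h : ∀ t, ((q t).2 : ℂ) ≠ 0) :
    Continuous fun t => K.pushPt (f t) (q t) (h t) := by
  refine Continuous.subtype_mk (K.continuous_tube.comp (Continuous.prodMk ?_ ?_)) _
  · exact continuous_fst.comp hq
  · refine Continuous.subtype_mk ?_ _
    have hz : Continuous fun t => ((q t).2 : ℂ) :=
      continuous_subtype_val.comp (continuous_snd.comp hq)
    have hfr : Continuous fun t => ((f t : I) : ℝ) := continuous_subtype_val.comp hf
    unfold push
    refine Continuous.mul (Complex.continuous_ofReal.comp ?_) hz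
    refine Continuous.add (continuous_const.sub hfr) (hfr.mul ?_)
    refine continuous_const.max ?_
    refine Continuous.div continuous_const (continuous_const.mul hz.norm) ?_
    intro t
    have := norm_pos_iff.mpr (h t)
    positivity

/-- The knot group is finitely generated. -/
theorem group_fg : Group.FG K.GroupI := by
  classical
  let c : ∀ x : K.Complement, Path (K.torus (1, 1)) x := fun x => PathConnectedSpace.somePath _ x
  let D0 : Rep K.Complement K.GroupI := Rep.ofPaths c
  -- the radius
  obtain ⟨δ, hδ, hthick⟩ := K.isCompact_Cc.exists_thickening_subset_open K.isOpen_compl_core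
    K.Cc_subset
  set r : ℝ := min δ 1 with hr
  have hr0 : 0 < r := lt_min hδ one_pos
  have hr1 : r ≤ 1 := min_le_right _ _
  have hball : ∀ x ∈ K.Cc, Metric.ball x r ⊆ (K.core)ᶜ := by
    intro x hx y hy
    apply hthick
    rw [Metric.mem_thickening_iff]
    refine ⟨x, hx, ?_⟩
    exact lt_of_lt_of_le (Metric.mem_ball.mp hy) (min_le_left _ _)
  obtain ⟨t, htC, htfin, htcov⟩ := K.isCompact_Cc.finite_cover_balls (e := r / 3) (by positivity)
  -- values within a ball depend only on the end points
  have hval : ∀ x ∈ K.Cc, ∀ {y z : K.Complement} (p q : Path y z),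
      (∀ s, (p s).1 ∈ Metric.ball x r) → (∀ s, (q s).1 ∈ Metric.ball x r) →
      D0.val p = D0.val q := by
    intro x hx y z p q hp hq
    obtain ⟨F, hF⟩ := ball_homotopy x hr0 hr1 (p.map continuous_subtype_val)
      (q.map continuous_subtype_val) hp hq
    have hF' : ∀ s, F s ∈ (K.core)ᶜ := fun s => hball x hx (hF s)
    apply Rep.val_homotopic
    exact ⟨{ toFun := fun s => ⟨F s, hF' s⟩
             continuous_toFun := F.continuous.subtype_mk _
             map_zero_left := fun s => by
              apply Subtype.ext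
              exact F.apply_zero s
             map_one_left := fun s => by
              apply Subtype.ext
              exact F.apply_one s
             prop' := fun s s' hs => by
              apply Subtype.ext
              exact F.prop' s s' hs }⟩
  -- choice of a path in small balls
  have hpath : ∀ x : S3, ∀ hx : x ∈ K.Cc, ∀ y : K.Complement, y.1 ∈ Metric.ball x r →
      ∃ p : Path (⟨x, K.Cc_subset hx⟩ : K.Complement) y,
        (∀ s, (p s).1 ∈ Metric.ball x r) ∧
        (y.1 ∈ Metric.ball x (r / 3) → ∀ s, (p s).1 ∈ Metric.ball x (r / 3)) := by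
    intro x hx y hy
    by_cases hy3 : y.1 ∈ Metric.ball x (r / 3)
    · obtain ⟨p, hp⟩ := ball_joined x (r := r / 3) (by positivity) (by linarith)
        (Metric.mem_ball_self (by positivity)) hy3
      have hsub : Metric.ball x (r / 3) ⊆ Metric.ball x r :=
        Metric.ball_subset_ball (by linarith)
      refine ⟨cod p (fun s => hball x hx (hsub (hp s))), fun s => hsub (hp s), fun _ => hp⟩
    · obtain ⟨p, hp⟩ := ball_joined x hr0 hr1 (Metric.mem_ball_self hr0) hy
      refine ⟨cod p (fun s => hball x hx (hp s)), hp, fun h => absurd h hy3⟩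
  choose! pth hpth1 hpth2 using hpath
  -- the potential
  let h : ∀ x : S3, x ∈ K.Cc → K.Complement → K.GroupI := fun x hx y =>
    if hy : y.1 ∈ Metric.ball x r then D0.val (pth x hx y hy) else 1
  have hdef : ∀ x (hx : x ∈ K.Cc) (y : K.Complement) (hy : y.1 ∈ Metric.ball x r),
      h x hx y = D0.val (pth x hx y hy) := fun x hx y hy => dif_pos hy
  -- any path from the center inside the ball computes `h`
  have hcomp : ∀ x (hx : x ∈ K.Cc) (y : K.Complement)
      (p : Path (⟨x, K.Cc_subset hx⟩ : K.Complement) y),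
      (∀ s, (p s).1 ∈ Metric.ball x r) → D0.val p = h x hx y := by
    intro x hx y p hp
    have hy : y.1 ∈ Metric.ball x r := by
      have := hp 1
      rwa [p.target] at this
    rw [hdef x hx y hy]
    exact hval x hx _ _ hp (hpth1 x hx y hy)
  have htransmem : ∀ {B : Set S3} {x y z : K.Complement} (p : Path x y) (q : Path y z),
      (∀ s, (p s).1 ∈ B) → (∀ s, (q s).1 ∈ B) → ∀ s, ((p.trans q) s).1 ∈ B := by
    intro B x y z p q hp hq s
    have : (p.trans q) s ∈ range (p.trans q) := ⟨s, rfl⟩
    rw [Path.trans_range] at this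
    rcases this with ⟨s', hs⟩ | ⟨s', hs⟩
    · rw [← hs]; exact hp s'
    · rw [← hs]; exact hq s'
  -- value of a path in a ball
  have hvalball : ∀ x (hx : x ∈ K.Cc) {y z : K.Complement} (p : Path y z),
      (∀ s, (p s).1 ∈ Metric.ball x r) → D0.val p = h x hx z * (h x hx y)⁻¹ := by
    intro x hx y z p hp
    have hy : y.1 ∈ Metric.ball x r := by
      have := hp 0
      rwa [p.source] at this
    have h1 := hcomp x hx z ((pth x hx y hy).trans p)
      (htransmem _ _ (hpth1 x hx y hy) hp)
    rw [Rep.val_trans, ← hdef x hx y hy] at h1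
    rw [← h1]; group
  -- comparison of two centers
  have hcompare : ∀ x (hx : x ∈ K.Cc) x' (hx' : x' ∈ K.Cc) (y : K.Complement),
      y.1 ∈ Metric.ball x (r / 3) → y.1 ∈ Metric.ball x' (r / 3) →
      (h x' hx' y)⁻¹ * h x hx y = h x hx ⟨x', K.Cc_subset hx'⟩ := by
    intro x hx x' hx' y hy hy'
    have hsub : Metric.ball x (r / 3) ⊆ Metric.ball x r := Metric.ball_subset_ball (by linarith)
    have hsub' : Metric.ball x' (r / 3) ⊆ Metric.ball x' r := Metric.ball_subset_ball (by linarith)
    have hsub'' : Metric.ball x' (r / 3) ⊆ Metric.ball x r := by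
      intro w hw
      rw [Metric.mem_ball] at *
      have h1 : dist y.1 x < r / 3 := hy
      have h2 : dist y.1 x' < r / 3 := hy'
      have h3 : dist w x ≤ dist w x' + dist x' y.1 + dist y.1 x :=
        (dist_triangle4 w x' y.1 x)
      rw [dist_comm x' y.1] at h3
      linarith
    have h1 := hcomp x hx ⟨x', K.Cc_subset hx'⟩
      ((pth x hx y (hsub hy)).trans (pth x' hx' y (hsub' hy')).symm)
      (htransmem _ _ (hpth1 x hx y (hsub hy)) (fun s => by
        rw [Path.symm_apply]
        exact hsub'' (hpth2 x' hx' y (hsub' hy') hy' _)))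
    rw [Rep.val_trans, Rep.val_symm, ← hdef x hx y (hsub hy), ← hdef x' hx' y (hsub' hy')] at h1
    exact h1
  -- the finitely generated subgroup
  have htC' : ∀ x : t, x.1 ∈ K.Cc := fun x => htC x.2
  have : Finite t := htfin
  let gen : t × t → K.GroupI := fun p => h p.1.1 (htC' p.1) ⟨p.2.1, K.Cc_subset (htC' p.2)⟩
  let Γ : Subgroup K.GroupI := Subgroup.closure (range gen)
  have hgenΓ : ∀ p, gen p ∈ Γ := fun p => Subgroup.subset_closure ⟨p, rfl⟩
  -- chosen centers
  let inU : K.Complement → Prop := fun y => ∃ x : t, y.1 ∈ Metric.ball x.1 (r / 3)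
  let ctr : ∀ y, inU y → t := fun y hy => hy.choose
  have hctr : ∀ y (hy : inU y), y.1 ∈ Metric.ball (ctr y hy).1 (r / 3) :=
    fun y hy => hy.choose_spec
  let k : K.Complement → K.GroupI := fun y =>
    if hy : inU y then h (ctr y hy).1 (htC' _) y else 1
  let D1 : Rep K.Complement K.GroupI := D0.gauge k
  have hD1small : ∀ x : t, ∀ {y z : K.Complement} (p : Path y z),
      (∀ s, p s ∈ {w : K.Complement | w.1 ∈ Metric.ball x.1 (r / 3)}) → D1.val p ∈ Γ := by
    intro x y z p hp
    have hsub : Metric.ball x.1 (r / 3) ⊆ Metric.ball x.1 r := Metric.ball_subset_ball (by linarith)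
    have hy : y.1 ∈ Metric.ball x.1 (r / 3) := by
      have := hp 0
      rwa [p.source] at this
    have hz : z.1 ∈ Metric.ball x.1 (r / 3) := by
      have := hp 1
      rwa [p.target] at this
    have hyU : inU y := ⟨x, hy⟩
    have hzU : inU z := ⟨x, hz⟩
    have hky : k y = h (ctr y hyU).1 (htC' _) y := dif_pos hyU
    have hkz : k z = h (ctr z hzU).1 (htC' _) z := dif_pos hzU
    change (k z)⁻¹ * D0.val p * k y ∈ Γ
    rw [hvalball x.1 (htC' x) p (fun s => hsub (hp s)), hky, hkz]
    have e1 := hcompare x.1 (htC' x) (ctr z hzU).1 (htC' _) z hz (hctr z hzU)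
    have e2 := hcompare (ctr y hyU).1 (htC' _) x.1 (htC' x) y (hctr y hyU) hy
    have e3 : (h (ctr z hzU).1 (htC' _) z)⁻¹ * (h x.1 (htC' x) z * (h x.1 (htC' x) y)⁻¹) *
        h (ctr y hyU).1 (htC' _) y =
        ((h (ctr z hzU).1 (htC' _) z)⁻¹ * h x.1 (htC' x) z) *
          ((h x.1 (htC' x) y)⁻¹ * h (ctr y hyU).1 (htC' _) y) := by group
    rw [e3, e1, e2]
    exact Γ.mul_mem (hgenΓ (x, ctr z hzU)) (hgenΓ (ctr y hyU, x))
  have hD1C : ∀ {y z : K.Complement} (p : Path y z), (∀ s, (p s).1 ∈ K.Cc) → D1.val p ∈ Γ := by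
    intro y z p hp
    refine Rep.mem_of_cover D1
      (fun x : t => {w : K.Complement | w.1 ∈ Metric.ball x.1 (r / 3)}) ?_ Γ hD1small p ?_
    · intro x
      exact Metric.isOpen_ball.preimage continuous_subtype_val
    · intro s
      have := htcov (hp s)
      rw [mem_iUnion₂] at this
      obtain ⟨x, hx, hxs⟩ := this
      exact ⟨⟨x, hx⟩, hxs⟩
  -- the pushing paths
  have hcz : ∀ y : K.Complement, y.1 ∈ range K.tube → ((K.coord y.1).2 : ℂ) ≠ 0 := by
    intro y hy h0
    apply y.2
    exact ⟨K.coord y.1, h0, K.tube_coord hy⟩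
  let R : K.Complement → K.GroupI := fun y =>
    if hy : y.1 ∈ range K.tube then
      D1.g ⟨fun s => K.pushPt s.1 (K.coord y.1) (hcz y hy),
        K.continuous_pushPt continuous_fst continuous_const _⟩ (0, 0) (1, 0)
    else 1
  let Dq : Rep K.Complement K.GroupI := D1.gauge (fun y => (R y)⁻¹)
  have hD2 : ∀ {y z : K.Complement} (p : Path y z), Dq.val p = R z * D1.val p * (R y)⁻¹ := by
    intro y z p
    change ((R z)⁻¹)⁻¹ * D1.val p * (R y)⁻¹ = _
    rw [inv_inv]
  -- pieces
  let Y : Bool → Set K.Complement := fun i =>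
    if i then {w | w.1 ∈ K.V} else {w | w.1 ∈ (K.tube '' {q | ‖(q.2 : ℂ)‖ ≤ 1 / 2})ᶜ}
  have hYopen : ∀ i, IsOpen (Y i) := by
    intro i
    cases i
    · have : IsClosed (K.tube '' {q | ‖(q.2 : ℂ)‖ ≤ 1 / 2}) := by
        apply K.isClosedEmbedding_tube.isClosedMap
        exact isClosed_le (by fun_prop) continuous_const
      exact this.isOpen_compl.preimage continuous_subtype_val
    · exact K.isOpen_interior.preimage continuous_subtype_val
  have hYsmall : ∀ i, ∀ {y z : K.Complement} (p : Path y z), (∀ s, p s ∈ Y i) → Dq.val p ∈ Γ := by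
    intro i y z p hp
    cases i
    · -- outside
      have hp' : ∀ s, (p s).1 ∈ (K.tube '' {q | ‖(q.2 : ℂ)‖ ≤ 1 / 2})ᶜ := hp
      have hR1 : ∀ w : K.Complement, w.1 ∈ (K.tube '' {q | ‖(q.2 : ℂ)‖ ≤ 1 / 2})ᶜ → R w = 1 := by
        intro w hw
        by_cases hwt : w.1 ∈ range K.tube
        · have hRw : R w = D1.g ⟨fun s => K.pushPt s.1 (K.coord w.1) (hcz w hwt),
            K.continuous_pushPt continuous_fst continuous_const _⟩ (0, 0) (1, 0) := dif_pos hwt
          rw [hRw]
          refine D1.val_const () (z := w) trivial _ ?_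
          intro s
          rw [Path.map_coe]
          simp only [Function.comp, ContinuousMap.coe_mk]
          apply Subtype.ext
          have hnorm : 1 / 2 ≤ ‖((K.coord w.1).2 : ℂ)‖ := by
            by_contra hcon
            rw [not_le] at hcon
            apply hw
            exact ⟨K.coord w.1, hcon.le, K.tube_coord hwt⟩
          change K.tube ((K.coord w.1).1, ⟨push _ (K.coord w.1).2, _⟩) = w.1
          have : (⟨push (line2 ((0 : I), (0 : I)) ((1 : I), (0 : I)) s).1 (K.coord w.1).2,
              by rw [mem_closedBall_zero_iff]; exact push_norm_le _ (hcz w hwt) (norm_D2 _)⟩ : D2)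
              = (K.coord w.1).2 := by
            apply Subtype.ext
            exact push_of_half_le _ hnorm
          rw [this]
          exact K.tube_coord hwt
        · exact dif_neg hwt
      have hy : R y = 1 := hR1 y (by have := hp' 0; rwa [p.source] at this)
      have hz : R z = 1 := hR1 z (by have := hp' 1; rwa [p.target] at this)
      rw [hD2, hy, hz, one_mul, inv_one, mul_one]
      apply hD1C p
      intro s hs
      apply hp' s
      obtain ⟨q, hq, hqs⟩ := hs
      have hq' : ‖(q.2 : ℂ)‖ < 1 / 2 := hq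
      exact ⟨q, hq'.le, hqs⟩
    · -- inside
      have hp' : ∀ s, (p s).1 ∈ K.V := hp
      have hpr : ∀ s, (p s).1 ∈ range K.tube := fun s => K.V_subset_range (hp' s)
      have hyr : y.1 ∈ range K.tube := by have := hpr 0; rwa [p.source] at this
      have hzr : z.1 ∈ range K.tube := by have := hpr 1; rwa [p.target] at this
      have hccont : Continuous fun s : I => K.coord (p s).1 :=
        K.continuousOn_coord.comp_continuous (continuous_subtype_val.comp p.continuous) hpr
      let cc : C(I × I, K.Complement) :=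
        ⟨fun s => K.pushPt s.1 (K.coord (p s.2).1) (hcz (p s.2) (hpr s.2)),
          K.continuous_pushPt continuous_fst (hccont.comp continuous_snd) _⟩
      have hsq := Rep.square D1 cc
      have e0 : D1.g cc (0, 0) (0, 1) = D1.val p := by
        apply LocalRep.val_congr
        intro s
        simp only [Path.map_coe, Function.comp, line2_apply, Icc.convexComb_eq,
          Icc.convexComb_zero_one]
        apply Subtype.ext
        change K.tube ((K.coord (p s).1).1, ⟨push 0 (K.coord (p s).1).2, _⟩) = (p s).1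
        have : (⟨push 0 (K.coord (p s).1).2,
              by rw [mem_closedBall_zero_iff]
                 exact push_norm_le _ (hcz (p s) (hpr s)) (norm_D2 _)⟩ : D2)
              = (K.coord (p s).1).2 := by
            apply Subtype.ext
            exact push_zero _
        rw [this]
        exact K.tube_coord (hpr s)
      have e1 : D1.g cc (0, 0) (1, 0) = R y := by
        have hRy : R y = D1.g ⟨fun s => K.pushPt s.1 (K.coord y.1) (hcz y hyr),
          K.continuous_pushPt continuous_fst continuous_const _⟩ (0, 0) (1, 0) := dif_pos hyr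
        rw [hRy]
        apply LocalRep.val_congr
        intro s
        simp only [Path.map_coe, Function.comp, line2_apply, Icc.convexComb_eq,
          Icc.convexComb_zero_one]
        change K.pushPt s (K.coord (p 0).1) (hcz (p 0) (hpr 0)) =
          K.pushPt s (K.coord y.1) (hcz y hyr)
        congr 3
        exact p.source
      have e2 : D1.g cc (0, 1) (1, 1) = R z := by
        have hRz : R z = D1.g ⟨fun s => K.pushPt s.1 (K.coord z.1) (hcz z hzr),
          K.continuous_pushPt continuous_fst continuous_const _⟩ (0, 0) (1, 0) := dif_pos hzr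
        rw [hRz]
        apply LocalRep.val_congr
        intro s
        simp only [Path.map_coe, Function.comp, line2_apply, Icc.convexComb_eq,
          Icc.convexComb_zero_one]
        change K.pushPt s (K.coord (p 1).1) (hcz (p 1) (hpr 1)) =
          K.pushPt s (K.coord z.1) (hcz z hzr)
        congr 3
        exact p.target
      have e3 : D1.g cc (1, 0) (1, 1) ∈ Γ := by
        apply hD1C
        intro s
        simp only [Path.map_coe, Function.comp, line2_apply, Icc.convexComb_eq,
          Icc.convexComb_zero_one]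
        rintro ⟨q, hq, hqs⟩
        have hq' : ‖(q.2 : ℂ)‖ < 1 / 2 := hq
        have h1 : K.tube q = K.tube ((K.coord (p s).1).1, ⟨push 1 (K.coord (p s).1).2,
          by rw [mem_closedBall_zero_iff]
             exact push_norm_le _ (hcz (p s) (hpr s)) (norm_D2 _)⟩) := hqs
        have h2 := K.injective_tube h1
        rw [h2] at hq'
        have h3 := push_one_norm (hcz (p s) (hpr s))
        change ‖push 1 ((K.coord (p s).1).2 : ℂ)‖ < 1 / 2 at hq'
        linarith
      rw [hD2, ← e0, ← e1, ← e2, ← hsq]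
      rw [mul_assoc, mul_inv_cancel, mul_one]
      exact e3
  have hD2all : ∀ {y z : K.Complement} (p : Path y z), Dq.val p ∈ Γ := by
    intro y z p
    refine Rep.mem_of_cover Dq Y hYopen Γ hYsmall p ?_
    intro s
    by_cases hs : (p s).1 ∈ K.V
    · exact ⟨true, hs⟩
    · refine ⟨false, ?_⟩
      rintro ⟨q, hq, hqs⟩
      have hq' : ‖(q.2 : ℂ)‖ ≤ 1 / 2 := hq
      apply hs
      exact ⟨q, by rw [mem_ofPred_eq]; linarith, hqs⟩
  -- conclusion
  have htop : Γ = ⊤ := by
    rw [eq_top_iff]
    intro g _
    let b := K.torus (1, 1)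
    let u : K.GroupI :=
      FundamentalGroup.fromPath (Path.Homotopic.Quotient.mk (c (K.torus (1, 1))))
    obtain ⟨γ, hγ⟩ := exists_rep_path (u * (k b * ((R b)⁻¹ * g * R b) * (k b)⁻¹) * u⁻¹)
    have h1 := hD2all γ
    rw [hD2] at h1
    have h2 : D1.val γ = (k b)⁻¹ * D0.val γ * k b := rfl
    have h3 : D0.val γ = u⁻¹ * FundamentalGroup.fromPath (Path.Homotopic.Quotient.mk γ) * u :=
      Rep.ofPaths_val c γ
    rw [h2, h3, hγ] at h1
    have h4 : R b * ((k b)⁻¹ * (u⁻¹ * (u * (k b * ((R b)⁻¹ * g * R b) * (k b)⁻¹) * u⁻¹) * u) * k b)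
        * (R b)⁻¹ = g := by group
    rwa [h4] at h1
  rw [Group.fg_iff]
  exact ⟨range gen, htop, finite_range gen⟩

end TameKnot

end Pool.Agent.H64
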