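import Pool.Agent.H64.Knot3

/-!
The peripheral subgroup is commutative.
-/

namespace Pool.Agent.H64

open Set unitInterval Topology VK

/-- The fundamental group of the torus is commutative. -/
lemma torus_comm (a b : FundamentalGroup (Circle × Circle) ((1 : Circle), (1 : Circle))) :
    a * b = b * a := by
  obtain ⟨p, rfl⟩ := exists_rep_path a
  obtain ⟨q, rfl⟩ := exists_rep_path b
  let κ : ∀ x : Circle × Circle, Path ((1 : Circle), (1 : Circle)) x :=
    fun x => PathConnectedSpace.somePath _ x
  let D := Rep.ofPaths κ
  let c : C(I × I, Circle × Circle) := ⟨fun s => p s.1 * q s.2, by fun_prop⟩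
  have hsq := Rep.square D c
  have e0 : D.g c (1, 0) (1, 1) = D.val q := by
    apply LocalRep.val_congr
    intro t
    simp only [Path.map_coe, Function.comp, line2_apply, Icc.convexComb_eq,
      Icc.convexComb_zero_one]
    change p 1 * q t = q t
    rw [p.target]; exact one_mul (q t)
  have e1 : D.g c (0, 0) (0, 1) = D.val q := by
    apply LocalRep.val_congr
    intro t
    simp only [Path.map_coe, Function.comp, line2_apply, Icc.convexComb_eq,
      Icc.convexComb_zero_one]
    change p 0 * q t = q t
    rw [p.source]; exact one_mul (q t)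
  have e2 : D.g c (0, 0) (1, 0) = D.val p := by
    apply LocalRep.val_congr
    intro t
    simp only [Path.map_coe, Function.comp, line2_apply, Icc.convexComb_eq,
      Icc.convexComb_zero_one]
    change p t * q 0 = p t
    rw [q.source]; exact mul_one (p t)
  have e3 : D.g c (0, 1) (1, 1) = D.val p := by
    apply LocalRep.val_congr
    intro t
    simp only [Path.map_coe, Function.comp, line2_apply, Icc.convexComb_eq,
      Icc.convexComb_zero_one]
    change p t * q 1 = p t
    rw [q.target]; exact mul_one (p t)
  rw [e0, e1, e2, e3] at hsq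
  rw [Rep.ofPaths_val, Rep.ofPaths_val] at hsq
  set k := FundamentalGroup.fromPath (Path.Homotopic.Quotient.mk (κ (1, 1))) with hk
  set a := FundamentalGroup.fromPath (Path.Homotopic.Quotient.mk p) with ha
  set b := FundamentalGroup.fromPath (Path.Homotopic.Quotient.mk q) with hb
  have h1 : k * (k⁻¹ * b * k * (k⁻¹ * a * k)) * k⁻¹ = b * a := by group
  have h2 : k * (k⁻¹ * a * k * (k⁻¹ * b * k)) * k⁻¹ = a * b := by group
  rw [← h1, ← h2, hsq]

namespace TameKnot

variable (K : TameKnot)

/-- Elements of the peripheral subgroup commute with the meridian. -/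
lemma meridian_comm {l : K.GroupI} (hl : l ∈ K.peripheralI.range) :
    K.meridianI * l = l * K.meridianI := by
  obtain ⟨a, rfl⟩ := hl
  unfold meridianI
  rw [← map_mul, ← map_mul, torus_comm]

end TameKnot

end Pool.Agent.H64
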