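import Mathlib

/-!
Tame knots in the three-sphere (with a tubular neighbourhood), their groups, peripheral subgroups
and meridians.
-/

namespace Pool.Agent.H64

/-- The three-sphere `S³`: the unit sphere of `ℝ⁴`. -/
abbrev S3 : Type := Metric.sphere (0 : EuclideanSpace ℝ (Fin 4)) 1

/-- The closed unit disc `D²` in the complex plane. -/
abbrev D2 : Type := Metric.closedBall (0 : ℂ) 1

/-- A tame knot in `S³`, given with a closed tubular neighbourhood: a continuous injective map
`tube : S¹ × D² → S³` (a topological embedding of the solid torus) that maps the open solid torus
onto an open subset of `S³`. The knot itself is the core `tube (S¹ × {0})`. -/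
structure TameKnot where
  /-- the embedding of the solid torus `S¹ × D²` -/
  tube : Circle × D2 → S3
  continuous_tube : Continuous tube
  injective_tube : Function.Injective tube
  isOpen_interior : IsOpen (tube '' {p | ‖(p.2 : ℂ)‖ < 1})

namespace TameKnot

variable (K : TameKnot)

/-- The knot: the core `tube (S¹ × {0})` of the solid torus. -/
def core : Set S3 := K.tube '' {p | (p.2 : ℂ) = 0}

/-- The complement of the knot in `S³`. -/
abbrev Complement : Type := ↥((K.core)ᶜ : Set S3)

/-- A point of the unit circle as a point of the closed unit disc. -/
def circleToD2 (z : Circle) : D2 :=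
  ⟨(z : ℂ), by rw [mem_closedBall_zero_iff, Circle.norm_coe]⟩

/-- The boundary torus of the tubular neighbourhood, `(θ, z) ↦ tube (θ, z)` with `|z| = 1`,
as a map into the complement of the knot. -/
def torus : C(Circle × Circle, K.Complement) where
  toFun p := ⟨K.tube (p.1, circleToD2 p.2), by
    rintro ⟨q, hq, hqp⟩
    have h := K.injective_tube hqp
    rw [h] at hq
    exact p.2.coe_ne_zero hq⟩
  continuous_toFun := by
    refine Continuous.subtype_mk (K.continuous_tube.comp ?_) _
    refine continuous_fst.prodMk (Continuous.subtype_mk ?_ _)
    fun_prop

/-- The knot group: the fundamental group of the complement of the knot, based at the point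
`tube (1, 1)` of the boundary torus. -/
def Group : Type := FundamentalGroup K.Complement (K.torus (1, 1))

noncomputable instance : _root_.Group K.Group :=
  inferInstanceAs (_root_.Group (FundamentalGroup K.Complement (K.torus (1, 1))))

/-- The homomorphism from the fundamental group of the boundary torus to the knot group. Its
range is the peripheral subgroup. -/
noncomputable def peripheral : FundamentalGroup (Circle × Circle) (1, 1) →* K.Group :=
  FundamentalGroup.map K.torus (1, 1)

/-- The loop `t ↦ (1, exp (2 π i t))` in the torus `S¹ × S¹`. -/
noncomputable def meridianLoop : Path ((1 : Circle), (1 : Circle)) (1, 1) where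
  toFun t := (1, Circle.exp (2 * Real.pi * t))
  continuous_toFun := by fun_prop
  source' := by simp
  target' := by simp

/-- The meridian of the knot: the class of the loop `t ↦ tube (1, exp (2 π i t))`, which bounds
the meridian disc `tube ({1} × D²)` of the solid torus. -/
noncomputable def meridian : K.Group :=
  K.peripheral (FundamentalGroup.fromPath (Path.Homotopic.Quotient.mk meridianLoop))

end TameKnot

end Pool.Agent.H64
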