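import Mathlib

/-!
Definitions: the disk with the hyperbolic-plus-taxicab metric, and non-positive curvature in the
sense of Busemann.
-/

namespace Pool.Agent.H64.TaxiDisk

/-- The open Euclidean unit disk in the plane. -/
def M : Set (ℝ × ℝ) := {x | x.1 ^ 2 + x.2 ^ 2 < 1}

/-- The set of affine coordinates `t` of the points of the line through `x` and `y`
(the point with coordinate `t` is `x + t (y - x)`, so `x` has coordinate `0` and `y` has
coordinate `1`) which lie on the Euclidean unit circle.  For distinct `x, y` in `M` this set has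
exactly two elements, its infimum and its supremum. -/
def circleCoords (x y : ℝ × ℝ) : Set ℝ :=
  {t | (x + t • (y - x)).1 ^ 2 + (x + t • (y - x)).2 ^ 2 = 1}

/-- The cross-ratio `{x, y; a, b} = (x - a)(y - b) / ((x - b)(y - a))` of four real numbers. -/
noncomputable def crossRatio (x y a b : ℝ) : ℝ := ((x - a) * (y - b)) / ((x - b) * (y - a))

open Classical in
/-- The Hilbert metric of the disk, without a factor `1/2`: `h x y = |log {x, y; a, b}|` with
`a, b` the two intersection points of the line through `x, y` with the unit circle, in the affine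
coordinate on the line for which `x` is `0` and `y` is `1`. -/
noncomputable def h (x y : ℝ × ℝ) : ℝ :=
  if x = y then 0
  else |Real.log (crossRatio 0 1 (sInf (circleCoords x y)) (sSup (circleCoords x y)))|

/-- The metric `d = h + m`, with `m` the taxicab metric. -/
noncomputable def d (x y : ℝ × ℝ) : ℝ := h x y + (|x.1 - y.1| + |x.2 - y.2|)

/-- `p` is the `d`-midpoint of the Euclidean segment `[x, y]`. -/
def IsMid (x y p : ℝ × ℝ) : Prop := p ∈ segment ℝ x y ∧ d x p = d p y

/-- Non-positive curvature in the sense of Busemann for `(M, d)`: every point `o` of `M` has a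
`d`-ball around it such that `2 d(p, q) ≤ d(y, z)` for all `x, y, z` in the ball, `p` the
midpoint of `[x, y]` and `q` the midpoint of `[x, z]`. -/
def BusemannNonpositive : Prop :=
  ∀ o ∈ M, ∃ ε > 0, ∀ x ∈ M, ∀ y ∈ M, ∀ z ∈ M, d o x < ε → d o y < ε → d o z < ε →
    ∀ p q : ℝ × ℝ, IsMid x y p → IsMid x z q → 2 * d p q ≤ d y z

end Pool.Agent.H64.TaxiDisk
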