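import Pool.Agent.H64.TaxiDef

/-!
The disk with the hyperbolic-plus-taxicab metric is not of non-positive curvature in the sense of
Busemann.
-/

namespace Pool.Agent.H64.TaxiDisk

/-! ### The closed formula -/

/-- `A = 1 - ⟨x, y⟩`. -/
def A (x y : ℝ × ℝ) : ℝ := 1 - (x.1 * y.1 + x.2 * y.2)

/-- `B = (1 - |x|²)(1 - |y|²)`. -/
def B (x y : ℝ × ℝ) : ℝ := (1 - (x.1 ^ 2 + x.2 ^ 2)) * (1 - (y.1 ^ 2 + y.2 ^ 2))

/-- `S = √(A² - B)`. -/
noncomputable def S (x y : ℝ × ℝ) : ℝ := Real.sqrt (A x y ^ 2 - B x y)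

lemma B_pos {x y : ℝ × ℝ} (hx : x ∈ M) (hy : y ∈ M) : 0 < B x y := by
  unfold M at hx hy
  simp only [Set.mem_ofPred_eq] at hx hy
  exact mul_pos (by linarith) (by linarith)

lemma A_pos {x y : ℝ × ℝ} (hx : x ∈ M) (hy : y ∈ M) : 0 < A x y := by
  unfold M at hx hy
  simp only [Set.mem_ofPred_eq] at hx hy
  unfold A
  nlinarith [sq_nonneg (x.1 - y.1), sq_nonneg (x.2 - y.2)]

lemma disc_eq (x y : ℝ × ℝ) : A x y ^ 2 - B x y =
    (x.1 * (y.1 - x.1) + x.2 * (y.2 - x.2)) ^ 2 +
      ((y.1 - x.1) ^ 2 + (y.2 - x.2) ^ 2) * (1 - (x.1 ^ 2 + x.2 ^ 2)) := by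
  unfold A B; ring

lemma disc_nonneg {x y : ℝ × ℝ} (hx : x ∈ M) : 0 ≤ A x y ^ 2 - B x y := by
  unfold M at hx
  simp only [Set.mem_ofPred_eq] at hx
  rw [disc_eq]
  have : 0 ≤ 1 - (x.1 ^ 2 + x.2 ^ 2) := by linarith
  positivity

lemma S_sq {x y : ℝ × ℝ} (hx : x ∈ M) : S x y ^ 2 = A x y ^ 2 - B x y :=
  Real.sq_sqrt (disc_nonneg hx)

lemma S_lt_A {x y : ℝ × ℝ} (hx : x ∈ M) (hy : y ∈ M) : S x y < A x y := by
  have h1 := S_sq (y := y) hx
  have h2 := B_pos hx hy
  have h3 := A_pos hx hy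
  exact lt_of_pow_lt_pow_left₀ 2 h3.le (by linarith)

lemma S_nonneg (x y : ℝ × ℝ) : 0 ≤ S x y := Real.sqrt_nonneg _

lemma h_formula {x y : ℝ × ℝ} (hx : x ∈ M) (hy : y ∈ M) :
    h x y = Real.log ((A x y + S x y) / (A x y - S x y)) := by
  unfold h
  split_ifs with hxy
  · subst hxy
    have : S x x = 0 := by
      unfold S
      have : A x x ^ 2 - B x x = 0 := by unfold A B; ring
      rw [this, Real.sqrt_zero]
    rw [this]
    have h1 := A_pos hx hx
    rw [add_zero, sub_zero, div_self h1.ne', Real.log_one]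
  · set vv := (y.1 - x.1) ^ 2 + (y.2 - x.2) ^ 2 with hvv
    set xv := x.1 * (y.1 - x.1) + x.2 * (y.2 - x.2) with hxv
    have hvvpos : 0 < vv := by
      have : y.1 - x.1 ≠ 0 ∨ y.2 - x.2 ≠ 0 := by
        by_contra hcon
        push Not at hcon
        apply hxy
        exact Prod.ext (by linarith [hcon.1]) (by linarith [hcon.2])
      rcases this with h1 | h1
      · have := pow_pos (abs_pos.mpr h1) 2
        rw [sq_abs] at this
        have h2 := sq_nonneg (y.2 - x.2)
        linarith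
      · have := pow_pos (abs_pos.mpr h1) 2
        rw [sq_abs] at this
        have h2 := sq_nonneg (y.1 - x.1)
        linarith
    have hS2 := S_sq (y := y) hx
    have hS0 := S_nonneg x y
    have hSA := S_lt_A hx hy
    have hA := A_pos hx hy
    have hx' : 0 < 1 - (x.1 ^ 2 + x.2 ^ 2) := by
      unfold M at hx; simp only [Set.mem_ofPred_eq] at hx; linarith
    have hSpos : 0 < S x y := by
      rcases hS0.lt_or_eq with h1 | h1
      · exact h1
      · exfalso
        rw [← h1, disc_eq] at hS2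
        have : 0 < vv * (1 - (x.1 ^ 2 + x.2 ^ 2)) := mul_pos hvvpos hx'
        nlinarith [sq_nonneg xv]
    set tm := (-xv - S x y) / vv with htm
    set tp := (-xv + S x y) / vv with htp
    have htmp : tm ≤ tp := by
      rw [htm, htp]
      exact div_le_div_of_nonneg_right (by linarith) hvvpos.le
    have hS2' : S x y ^ 2 = xv ^ 2 + vv * (1 - (x.1 ^ 2 + x.2 ^ 2)) := by
      rw [hS2, disc_eq]
    have hset : circleCoords x y = {tm, tp} := by
      ext t
      unfold circleCoords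
      simp only [Set.mem_ofPred_eq, Prod.fst_add, Prod.snd_add, Prod.smul_fst, Prod.smul_snd,
        Prod.fst_sub, Prod.snd_sub, smul_eq_mul, Set.mem_insert_iff, Set.mem_singleton_iff]
      have e1 : (x.1 + t * (y.1 - x.1)) ^ 2 + (x.2 + t * (y.2 - x.2)) ^ 2 - 1
          = vv * ((t - tm) * (t - tp)) := by
        have e2 : vv * ((t - tm) * (t - tp)) = vv * t ^ 2 + 2 * xv * t +
            (xv ^ 2 - S x y ^ 2) / vv := by
          rw [htm, htp]; field_simp; ring
        rw [e2, hS2']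
        have e3 : (xv ^ 2 - (xv ^ 2 + vv * (1 - (x.1 ^ 2 + x.2 ^ 2)))) / vv
            = -(1 - (x.1 ^ 2 + x.2 ^ 2)) := by field_simp; ring
        rw [e3, hvv, hxv]; ring
      constructor
      · intro ht
        have : vv * ((t - tm) * (t - tp)) = 0 := by rw [← e1]; linarith
        rcases mul_eq_zero.mp this with h1 | h1
        · exact absurd h1 hvvpos.ne'
        · rcases mul_eq_zero.mp h1 with h2 | h2
          · left; linarith
          · right; linarith
      · intro ht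
        have h0 : (t - tm) * (t - tp) = 0 := by
          rcases ht with h1 | h1 <;> rw [h1] <;> ring
        rw [h0, mul_zero] at e1
        linarith
    rw [hset, csInf_pair, csSup_pair]
    have h1 : tm ⊓ tp = tm := inf_eq_left.mpr htmp
    have h2 : tm ⊔ tp = tp := sup_eq_right.mpr htmp
    rw [h1, h2]
    have hm : tm - tm * tp = (A x y - S x y) / vv := by
      have e : tm * tp = -(1 - (x.1 ^ 2 + x.2 ^ 2)) / vv := by
        rw [htm, htp, div_mul_div_comm]
        rw [div_eq_div_iff (by positivity) (by positivity)]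
        have : (-xv - S x y) * (-xv + S x y) = xv ^ 2 - S x y ^ 2 := by ring
        rw [this, hS2']; ring
      rw [e, htm, ← sub_div]
      congr 1
      unfold A; rw [hxv]; ring
    have hp : tp - tm * tp = (A x y + S x y) / vv := by
      have e : tm * tp = -(1 - (x.1 ^ 2 + x.2 ^ 2)) / vv := by
        rw [htm, htp, div_mul_div_comm]
        rw [div_eq_div_iff (by positivity) (by positivity)]
        have : (-xv - S x y) * (-xv + S x y) = xv ^ 2 - S x y ^ 2 := by ring
        rw [this, hS2']; ring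
      rw [e, htp, ← sub_div]
      congr 1
      unfold A; rw [hxv]; ring
    have hcr : crossRatio 0 1 tm tp = (A x y - S x y) / (A x y + S x y) := by
      unfold crossRatio
      have n : (0 - tm) * (1 - tp) = -((A x y - S x y) / vv) := by rw [← hm]; ring
      have dd : (0 - tp) * (1 - tm) = -((A x y + S x y) / vv) := by rw [← hp]; ring
      rw [n, dd, neg_div_neg_eq]
      field_simp
    rw [hcr]
    have hpos1 : 0 < A x y - S x y := by linarith
    have hpos2 : 0 < A x y + S x y := by linarith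
    have hlog : Real.log ((A x y - S x y) / (A x y + S x y))
        = - Real.log ((A x y + S x y) / (A x y - S x y)) := by
      rw [← Real.log_inv, inv_div]
    rw [hlog, abs_neg, abs_of_nonneg]
    apply Real.log_nonneg
    rw [le_div_iff₀ hpos1]
    linarith

/-- The closed form of the metric. -/
noncomputable def F (x y : ℝ × ℝ) : ℝ :=
  Real.log ((A x y + S x y) / (A x y - S x y)) + (|x.1 - y.1| + |x.2 - y.2|)

lemma d_eq {x y : ℝ × ℝ} (hx : x ∈ M) (hy : y ∈ M) : d x y = F x y := by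
  unfold d F; rw [h_formula hx hy]

/-- Continuity of `F` along a pair of continuous curves staying in `M`. -/
lemma F_cont {T : Type*} [TopologicalSpace T] {f g : T → ℝ × ℝ} {t : T}
    (hf : ContinuousAt f t) (hg : ContinuousAt g t) (hft : f t ∈ M) (hgt : g t ∈ M) :
    ContinuousAt (fun s => F (f s) (g s)) t := by
  have hf1 : ContinuousAt (fun s => (f s).1) t := continuous_fst.continuousAt.comp hf
  have hf2 : ContinuousAt (fun s => (f s).2) t := continuous_snd.continuousAt.comp hf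
  have hg1 : ContinuousAt (fun s => (g s).1) t := continuous_fst.continuousAt.comp hg
  have hg2 : ContinuousAt (fun s => (g s).2) t := continuous_snd.continuousAt.comp hg
  have hA : ContinuousAt (fun s => A (f s) (g s)) t := by
    unfold A
    exact continuousAt_const.sub ((hf1.mul hg1).add (hf2.mul hg2))
  have hB : ContinuousAt (fun s => B (f s) (g s)) t := by
    unfold B
    exact (continuousAt_const.sub ((hf1.pow 2).add (hf2.pow 2))).mul
      (continuousAt_const.sub ((hg1.pow 2).add (hg2.pow 2)))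
  have hS : ContinuousAt (fun s => S (f s) (g s)) t := by
    unfold S
    exact Real.continuous_sqrt.continuousAt.comp ((hA.pow 2).sub hB)
  have h1 := S_lt_A hft hgt
  have h2 := A_pos hft hgt
  have h3 := S_nonneg (f t) (g t)
  unfold F
  refine ContinuousAt.add (ContinuousAt.log ((hA.add hS).div (hA.sub hS) (by
    exact (sub_pos.mpr h1).ne')) ?_) ((hf1.sub hg1).abs.add (hf2.sub hg2).abs)
  exact (div_pos (by linarith) (by linarith)).ne'

lemma F_self {x : ℝ × ℝ} (hx : x ∈ M) : F x x = 0 := by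
  rw [← d_eq hx hx]; unfold d h; simp

/-- Reflection in the horizontal axis. -/
lemma F_refl (a b c e : ℝ) : F (a, b) (c, e) = F (a, -b) (c, -e) := by
  unfold F S A B
  simp only [neg_mul_neg, even_two, Even.neg_pow]
  have : |b - e| = |-b - -e| := by
    rw [← abs_neg]; congr 1; ring
  rw [this]

/-- `F` on the horizontal diameter. -/
lemma F_horizontal {r s : ℝ} (hr : (r, (0 : ℝ)) ∈ M) (hs : (s, (0 : ℝ)) ∈ M) (hrs : r ≤ s) :
    F (r, 0) (s, 0) = Real.log (((1 - r) * (1 + s)) / ((1 + r) * (1 - s))) + (s - r) := by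
  unfold M at hr hs
  simp only [Set.mem_ofPred_eq] at hr hs
  have hr1 : -1 < r ∧ r < 1 := by constructor <;> nlinarith
  have hs1 : -1 < s ∧ s < 1 := by constructor <;> nlinarith
  have hS : S (r, 0) (s, 0) = s - r := by
    unfold S
    have : A (r, 0) (s, 0) ^ 2 - B (r, 0) (s, 0) = (s - r) ^ 2 := by unfold A B; simp; ring
    rw [this, Real.sqrt_sq (by linarith)]
  unfold F
  rw [hS]
  have hA : A (r, 0) (s, 0) = 1 - r * s := by unfold A; simp
  rw [hA]
  simp only [sub_self, abs_zero, add_zero]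
  have e1 : |r - s| = s - r := by rw [abs_sub_comm]; exact abs_of_nonneg (by linarith)
  rw [e1]
  congr 2
  have e2 : 1 - r * s + (s - r) = (1 - r) * (1 + s) := by ring
  have e3 : 1 - r * s - (s - r) = (1 + r) * (1 - s) := by ring
  rw [e2, e3]

/-- `F` on a vertical chord, symmetric about the horizontal axis. -/
lemma F_vertical {r u : ℝ} (hu : 0 ≤ u) (hM : r ^ 2 + u ^ 2 < 1) :
    F (r, u) (r, -u) =
      2 * Real.log ((Real.sqrt (1 - r ^ 2) + u) / (Real.sqrt (1 - r ^ 2) - u)) + 2 * u := by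
  set w := Real.sqrt (1 - r ^ 2) with hw
  have hw2 : w ^ 2 = 1 - r ^ 2 := Real.sq_sqrt (by nlinarith)
  have hw0 : 0 ≤ w := Real.sqrt_nonneg _
  have hwu : u < w := by
    apply lt_of_pow_lt_pow_left₀ 2 hw0; linarith
  have hS : S (r, u) (r, -u) = 2 * u * w := by
    unfold S
    have : A (r, u) (r, -u) ^ 2 - B (r, u) (r, -u) = (2 * u * w) ^ 2 := by
      unfold A B; simp only
      have : (2 * u * w) ^ 2 = 4 * u ^ 2 * w ^ 2 := by ring
      rw [this, hw2]; ring
    rw [this, Real.sqrt_sq (by positivity)]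
  have hA : A (r, u) (r, -u) = w ^ 2 + u ^ 2 := by
    unfold A; simp only; rw [hw2]; ring
  unfold F
  rw [hS, hA]
  have e1 : w ^ 2 + u ^ 2 + 2 * u * w = (w + u) ^ 2 := by ring
  have e2 : w ^ 2 + u ^ 2 - 2 * u * w = (w - u) ^ 2 := by ring
  rw [e1, e2, ← div_pow, Real.log_pow]
  simp only [sub_self, abs_zero, zero_add, sub_neg_eq_add, Nat.cast_ofNat]
  rw [abs_of_nonneg (by linarith)]
  ring

lemma F_vertical_lower {r u w : ℝ} (hu : 0 ≤ u) (hM : r ^ 2 + u ^ 2 < 1)
    (hw : Real.sqrt (1 - r ^ 2) ≤ w) : 4 * u / w + 2 * u ≤ F (r, u) (r, -u) := by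
  rw [F_vertical hu hM]
  set w' := Real.sqrt (1 - r ^ 2) with hw'
  have hw2 : w' ^ 2 = 1 - r ^ 2 := Real.sq_sqrt (by nlinarith)
  have hw0 : 0 ≤ w' := Real.sqrt_nonneg _
  have hwu : u < w' := by
    apply lt_of_pow_lt_pow_left₀ 2 hw0; linarith
  have hwpos : 0 < w' := by linarith
  -- log ((w'+u)/(w'-u)) ≥ 2u/w'
  have key : 2 * (u / w') ≤ Real.log ((w' + u) / (w' - u)) := by
    have hq : u / w' < 1 := (div_lt_one hwpos).mpr hwu
    have hq0 : 0 ≤ u / w' := by positivity
    have e : (w' + u) / (w' - u) = (1 + u / w') / (1 - u / w') := by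
      have : w' - u ≠ 0 := by linarith
      have h2 : 1 - u / w' ≠ 0 := by linarith
      field_simp
    rw [e]
    have hs := Real.hasSum_log_sub_log_of_abs_lt_one (x := u / w') (by
      rw [abs_of_nonneg hq0]; exact hq)
    have hle : (fun k : ℕ => (2 : ℝ) * (1 / (2 * k + 1)) * (u / w') ^ (2 * k + 1)) 0 ≤
        Real.log (1 + u / w') - Real.log (1 - u / w') := by
      refine le_hasSum hs 0 ?_
      intro k _
      positivity
    rw [Real.log_div (by linarith) (by linarith)]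
    simpa using hle
  have h3 : 4 * u / w ≤ 4 * u / w' :=
    div_le_div_of_nonneg_left (by positivity) hwpos hw
  have h4 : 4 * u / w' = 2 * (2 * (u / w')) := by ring
  linarith

lemma F_vertical_upper {r u : ℝ} (hu : 0 ≤ u) (hM : r ^ 2 + u ^ 2 < 1) :
    F (r, u) (r, -u) ≤ 4 * u / (Real.sqrt (1 - r ^ 2) - u) + 2 * u := by
  rw [F_vertical hu hM]
  set w' := Real.sqrt (1 - r ^ 2) with hw'
  have hw2 : w' ^ 2 = 1 - r ^ 2 := Real.sq_sqrt (by nlinarith)
  have hw0 : 0 ≤ w' := Real.sqrt_nonneg _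
  have hwu : u < w' := by
    apply lt_of_pow_lt_pow_left₀ 2 hw0; linarith
  have hpos : 0 < w' - u := by linarith
  have h1 : Real.log ((w' + u) / (w' - u)) ≤ (w' + u) / (w' - u) - 1 :=
    Real.log_le_sub_one_of_pos (div_pos (by linarith) hpos)
  have h2 : (w' + u) / (w' - u) - 1 = 2 * u / (w' - u) := by field_simp; ring
  have h3 : 4 * u / (w' - u) = 2 * (2 * u / (w' - u)) := by ring
  linarith

lemma mem_M_of_bounds {r u : ℝ} (hr : |r| ≤ 7 / 10) (hu : |u| ≤ 1 / 10) : (r, u) ∈ M := by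
  unfold M
  simp only [Set.mem_ofPred_eq]
  have h1 : r ^ 2 ≤ (7 / 10) ^ 2 := by
    rw [← sq_abs]; exact pow_le_pow_left₀ (abs_nonneg _) hr 2
  have h2 : u ^ 2 ≤ (1 / 10) ^ 2 := by
    rw [← sq_abs]; exact pow_le_pow_left₀ (abs_nonneg _) hu 2
  nlinarith

lemma poly_one {δ : ℝ} (h0 : 0 < δ) (h1 : δ ≤ 1 / 1000) :
    (2 * (2 - 11 / 8 * δ)) ^ 2 <
      (1 - (3 / 5 + δ - 11 / 8 * δ ^ 2) ^ 2) * (5 + 11 / 8 * δ) ^ 2 := by
  have e : (1 - (3 / 5 + δ - 11 / 8 * δ ^ 2) ^ 2) * (5 + 11 / 8 * δ) ^ 2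
      - (2 * (2 - 11 / 8 * δ)) ^ 2
      = δ * (4 / 5 - 2641 / 400 * δ) + δ ^ 3 * (12067 / 160 - 10527 / 1280 * δ
        - 1331 / 64 * δ ^ 2 - 14641 / 4096 * δ ^ 3) := by ring
  have h2 : δ ^ 2 ≤ 1 := by nlinarith
  have h3 : δ ^ 3 ≤ 1 := by nlinarith [pow_pos h0 2]
  have p1 : 0 < δ * (4 / 5 - 2641 / 400 * δ) := mul_pos h0 (by linarith)
  have p2 : 0 < δ ^ 3 * (12067 / 160 - 10527 / 1280 * δ
        - 1331 / 64 * δ ^ 2 - 14641 / 4096 * δ ^ 3) := mul_pos (pow_pos h0 3) (by linarith)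
  linarith

lemma poly_two {δ : ℝ} (h0 : 0 < δ) (h1 : δ ≤ 1 / 1000) :
    16 * ((1 - (3 / 5 - δ)) * (1 - (3 / 5 + δ - 11 / 8 * δ ^ 2))) <
      (-(11 / 8 * δ ^ 2) + 1) * ((1 + (3 / 5 - δ)) * (1 + (3 / 5 + δ - 11 / 8 * δ ^ 2))) := by
  have e : (-(11 / 8 * δ ^ 2) + 1) * ((1 + (3 / 5 - δ)) * (1 + (3 / 5 + δ - 11 / 8 * δ ^ 2)))
      - 16 * ((1 - (3 / 5 - δ)) * (1 - (3 / 5 + δ - 11 / 8 * δ ^ 2)))
      = δ ^ 2 * (12 / 25 - 165 / 8 * δ) + δ ^ 4 * (22 / 5 - 121 / 64 * δ) := by ring
  have p1 : 0 < δ ^ 2 * (12 / 25 - 165 / 8 * δ) := mul_pos (pow_pos h0 2) (by linarith)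
  have p2 : 0 < δ ^ 4 * (22 / 5 - 121 / 64 * δ) := mul_pos (pow_pos h0 4) (by linarith)
  linarith

/-- The disk with the metric `d` is not non-positively curved in the sense of Busemann. -/
theorem not_busemannNonpositive : ¬ BusemannNonpositive := by
  intro hNPC
  have ho : ((3 / 5 : ℝ), (0 : ℝ)) ∈ M := by unfold M; norm_num
  obtain ⟨ε, hε, hcond⟩ := hNPC (3 / 5, 0) ho
  -- continuity of `F (3/5,0)` at the point itself
  have hc0 : ContinuousAt (fun s : ℝ × ℝ => F (3 / 5, 0) s) (3 / 5, 0) :=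
    F_cont continuousAt_const continuousAt_id ho ho
  have hev : ∀ᶠ s : ℝ × ℝ in nhds (3 / 5, 0), F (3 / 5, 0) s < ε := by
    have : F (3 / 5, 0) (3 / 5, 0) < ε := by rw [F_self ho]; exact hε
    exact hc0.eventually (Iio_mem_nhds this)
  obtain ⟨η, hη, hball⟩ := Metric.eventually_nhds_iff.mp hev
  -- choose δ
  set δ : ℝ := min (1 / 1000) (η / 4) with hδ
  have hδpos : 0 < δ := lt_min (by norm_num) (by linarith)
  have hδ1 : δ ≤ 1 / 1000 := min_le_left _ _
  have hδ2 : δ ≤ η / 4 := min_le_right _ _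
  clear_value δ
  set c : ℝ := 3 / 5 - δ with hc
  set a : ℝ := 3 / 5 + δ - 11 / 8 * δ ^ 2 with ha
  have hδsq : δ ^ 2 ≤ 1 / 1000 * δ := by
    rw [pow_two]; exact mul_le_mul_of_nonneg_right hδ1 hδpos.le
  have hδsq0 : 0 < δ ^ 2 := by positivity
  have hca : a - c = δ * (2 - 11 / 8 * δ) := by rw [ha, hc]; ring
  set τ₁ : ℝ := 1 / (2 - 11 / 8 * δ) with hτ₁
  have hden : 0 < 2 - 11 / 8 * δ := by linarith
  have hτ₁pos : 0 < τ₁ := by positivity
  have hτ₁lt : τ₁ < 1 := by
    rw [hτ₁, div_lt_one hden]; linarith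
  have hτ₁b : c + τ₁ * (a - c) = 3 / 5 := by
    rw [hca, hτ₁, hc]
    have : 1 / (2 - 11 / 8 * δ) * (δ * (2 - 11 / 8 * δ)) = δ := by
      rw [mul_comm δ, ← mul_assoc, one_div_mul_cancel hden.ne', one_mul]
    rw [this]; ring
  have hac : 0 < a - c := by rw [hca]; positivity
  have hale : a ≤ 3 / 5 + 1 / 1000 := by rw [ha]; linarith
  have hage : 3 / 5 ≤ a := by rw [ha]; linarith
  have hcle : c ≤ 3 / 5 := by rw [hc]; linarith
  have hcge : 599 / 1000 ≤ c := by rw [hc]; linarith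
  -- the w of a
  set w : ℝ := Real.sqrt (1 - a ^ 2) with hw
  have hw2 : w ^ 2 = 1 - a ^ 2 := Real.sq_sqrt (by
    have := pow_le_one₀ (n := 2) (by linarith : 0 ≤ a) (by linarith : a ≤ 1)
    linarith)
  have hw0 : 0 ≤ w := Real.sqrt_nonneg _
  -- inequality (ii)
  have hii : 2 * (2 - 11 / 8 * δ) < w * (5 + 11 / 8 * δ) := by
    apply lt_of_pow_lt_pow_left₀ 2 (by positivity)
    rw [mul_pow w, hw2, ha]
    exact poly_one hδpos hδ1
  -- choose s small: continuity in s of the midpoint function at τ₁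
  have hbM : ((3 / 5 : ℝ), (0 : ℝ)) ∈ M := ho
  have hcM : (c, (0 : ℝ)) ∈ M := mem_M_of_bounds (by rw [abs_le]; constructor <;> linarith) (by norm_num)
  have haM : (a, (0 : ℝ)) ∈ M := mem_M_of_bounds (by rw [abs_le]; constructor <;> linarith) (by norm_num)
  have hφ0 : F (c, 0) (3 / 5, 0) - F (3 / 5, 0) (a, 0) < 0 := by
    rw [F_horizontal hcM hbM hcle, F_horizontal hbM haM hage]
    have p1 : 0 < 1 - c := by linarith
    have p2 : 0 < 1 + c := by linarith
    have p3 : 0 < 1 - a := by linarith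
    have p4 : 0 < 1 + a := by linarith
    have e1 : Real.log ((1 - c) * (1 + 3 / 5) / ((1 + c) * (1 - 3 / 5)))
        - Real.log ((1 - 3 / 5) * (1 + a) / ((1 + 3 / 5) * (1 - a)))
        = Real.log (16 * ((1 - c) * (1 - a)) / ((1 + c) * (1 + a))) := by
      rw [← Real.log_div (by positivity) (by positivity)]
      congr 1
      field_simp
      ring
    have e2 : Real.log (16 * ((1 - c) * (1 - a)) / ((1 + c) * (1 + a))) ≤
        16 * ((1 - c) * (1 - a)) / ((1 + c) * (1 + a)) - 1 :=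
      Real.log_le_sub_one_of_pos (by positivity)
    have e3 : 16 * ((1 - c) * (1 - a)) / ((1 + c) * (1 + a)) - 1 < -(11 / 8 * δ ^ 2) := by
      rw [sub_lt_iff_lt_add, div_lt_iff₀ (by positivity)]
      rw [hc, ha]
      exact poly_two hδpos hδ1
    have e4 : (3 / 5 - c) - (a - 3 / 5) = 11 / 8 * δ ^ 2 := by rw [hc, ha]; ring
    linarith
  have hcont : ContinuousAt (fun s : ℝ => F (c, 0) (3 / 5, τ₁ * s) - F (3 / 5, τ₁ * s) (a, s)) 0 := by
    refine ContinuousAt.sub (F_cont continuousAt_const ?_ hcM ?_) (F_cont ?_ ?_ ?_ ?_)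
    · exact continuousAt_const.prodMk (continuousAt_const.mul continuousAt_id)
    · simpa using hbM
    · exact continuousAt_const.prodMk (continuousAt_const.mul continuousAt_id)
    · exact continuousAt_const.prodMk continuousAt_id
    · simpa using hbM
    · exact haM
  have hφs : ∀ᶠ s : ℝ in nhds 0, F (c, 0) (3 / 5, τ₁ * s) - F (3 / 5, τ₁ * s) (a, s) < 0 := by
    refine hcont.eventually (Iio_mem_nhds ?_)
    simpa using hφ0
  obtain ⟨ρ, hρ, hρball⟩ := Metric.eventually_nhds_iff.mp hφs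
  -- gap in (ii)
  set g : ℝ := w - 2 * (2 - 11 / 8 * δ) / (5 + 11 / 8 * δ) with hg
  have hgpos : 0 < g := by
    rw [hg, sub_pos, div_lt_iff₀ (by positivity)]
    exact hii
  -- choose s
  obtain ⟨s, hs0, hs1, hs2, hs3⟩ : ∃ s : ℝ, 0 < s ∧ s < ρ ∧ s < g ∧ s ≤ min (1 / 1000) (η / 4) := by
    refine ⟨min (ρ / 2) (min (g / 2) (min (1 / 1000) (η / 4))), ?_, ?_, ?_, ?_⟩
    · refine lt_min (by linarith) (lt_min (by linarith) (lt_min (by norm_num) (by linarith)))
    · exact lt_of_le_of_lt (min_le_left _ _) (by linarith)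
    · exact lt_of_le_of_lt ((min_le_right _ _).trans (min_le_left _ _)) (by linarith)
    · exact (min_le_right _ _).trans (min_le_right _ _)
  have hs4 : s ≤ 1 / 1000 := hs3.trans (min_le_left _ _)
  have hs5 : s ≤ η / 4 := hs3.trans (min_le_right _ _)
  have hφ1 : F (c, 0) (3 / 5, τ₁ * s) - F (3 / 5, τ₁ * s) (a, s) < 0 := by
    apply hρball
    rw [Real.dist_eq, sub_zero, abs_of_pos hs0]; exact hs1
  -- the points
  have hyM : (a, s) ∈ M := mem_M_of_bounds (by rw [abs_le]; constructor <;> linarith)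
    (by rw [abs_of_pos hs0]; linarith)
  have hzM : (a, -s) ∈ M := mem_M_of_bounds (by rw [abs_le]; constructor <;> linarith)
    (by rw [abs_neg, abs_of_pos hs0]; linarith)
  -- the curve of candidates
  have hpM : ∀ τ ∈ Set.Icc τ₁ 1, (c + τ * (a - c), τ * s) ∈ M := by
    intro τ hτ
    have h1 : 0 < τ := lt_of_lt_of_le hτ₁pos hτ.1
    have h2 : 0 ≤ τ * (a - c) := mul_nonneg h1.le hac.le
    have h3 : τ * (a - c) ≤ 1 * (a - c) := mul_le_mul_of_nonneg_right hτ.2 hac.le
    have h4 : τ * s ≤ 1 * s := mul_le_mul_of_nonneg_right hτ.2 hs0.le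
    apply mem_M_of_bounds
    · rw [abs_le]
      constructor <;> linarith
    · rw [abs_of_pos (mul_pos h1 hs0)]
      linarith
  -- intermediate value theorem
  have hIVT : ∃ τ ∈ Set.Icc τ₁ 1, F (c, 0) (c + τ * (a - c), τ * s)
      - F (c + τ * (a - c), τ * s) (a, s) = 0 := by
    have hcontφ : ContinuousOn (fun τ : ℝ => F (c, 0) (c + τ * (a - c), τ * s)
      - F (c + τ * (a - c), τ * s) (a, s)) (Set.Icc τ₁ 1) := by
      intro τ hτ
      apply ContinuousAt.continuousWithinAt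
      have hcurve : ContinuousAt (fun τ : ℝ => (c + τ * (a - c), τ * s)) τ :=
        (continuousAt_const.add (continuousAt_id.mul continuousAt_const)).prodMk
          (continuousAt_id.mul continuousAt_const)
      refine ContinuousAt.sub (F_cont continuousAt_const hcurve hcM (hpM τ hτ))
        (F_cont hcurve continuousAt_const (hpM τ hτ) hyM)
    have hmem : (0 : ℝ) ∈ Set.Icc
        ((fun τ : ℝ => F (c, 0) (c + τ * (a - c), τ * s)
          - F (c + τ * (a - c), τ * s) (a, s)) τ₁)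
        ((fun τ : ℝ => F (c, 0) (c + τ * (a - c), τ * s)
          - F (c + τ * (a - c), τ * s) (a, s)) 1) := by
      constructor
      · simp only
        rw [hτ₁b]; exact hφ1.le
      · simp only
        have e1 : c + 1 * (a - c) = a := by ring
        rw [e1, one_mul, F_self hyM, sub_zero]
        rw [← d_eq hcM hyM]
        unfold d
        have : 0 ≤ h (c, 0) (a, s) := by unfold h; split_ifs <;> positivity
        positivity
    obtain ⟨τ, hτ, hτ0⟩ := intermediate_value_Icc hτ₁lt.le hcontφ hmem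
    exact ⟨τ, hτ, hτ0⟩
  obtain ⟨τ, hτ, hτ0⟩ := hIVT
  have hτpos : 0 < τ := lt_of_lt_of_le hτ₁pos hτ.1
  have hpM' := hpM τ hτ
  set p : ℝ × ℝ := (c + τ * (a - c), τ * s) with hp
  set q : ℝ × ℝ := (c + τ * (a - c), -(τ * s)) with hq
  have hqM : q ∈ M := by
    unfold M at hpM' ⊢
    simp only [Set.mem_ofPred_eq, hp, hq] at hpM' ⊢
    rw [neg_sq]
    exact hpM'
  have hxoε : d (3 / 5, 0) (c, 0) < ε := by
    rw [d_eq ho hcM]
    apply hball
    rw [Prod.dist_eq, Real.dist_eq, Real.dist_eq]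
    simp only [sub_self, abs_zero]
    refine max_lt ?_ hη
    rw [hc, abs_lt]; constructor <;> linarith
  have hyoε : d (3 / 5, 0) (a, s) < ε := by
    rw [d_eq ho hyM]
    apply hball
    rw [Prod.dist_eq, Real.dist_eq, Real.dist_eq]
    refine max_lt ?_ ?_
    · rw [ha, abs_lt]; constructor <;> linarith
    · simp only [sub_zero]; rw [abs_of_pos hs0]; linarith
  have hzoε : d (3 / 5, 0) (a, -s) < ε := by
    rw [d_eq ho hzM]
    apply hball
    rw [Prod.dist_eq, Real.dist_eq, Real.dist_eq]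
    refine max_lt ?_ ?_
    · rw [ha, abs_lt]; constructor <;> linarith
    · simp only [sub_zero]; rw [abs_neg, abs_of_pos hs0]; linarith
  have hmidp : IsMid (c, 0) (a, s) p := by
    refine ⟨?_, ?_⟩
    · rw [segment_eq_image]
      refine ⟨τ, ⟨hτpos.le, hτ.2⟩, ?_⟩
      rw [hp]
      ext
      · simp; ring
      · simp
    · rw [d_eq hcM hpM', d_eq hpM' hyM]
      linarith
  have hmidq : IsMid (c, 0) (a, -s) q := by
    refine ⟨?_, ?_⟩
    · rw [segment_eq_image]
      refine ⟨τ, ⟨hτpos.le, hτ.2⟩, ?_⟩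
      rw [hq]
      ext
      · simp; ring
      · simp
    · rw [d_eq hcM hqM, d_eq hqM hzM]
      have e1 : F (c, 0) q = F (c, 0) p := by
        rw [hq, hp, F_refl c 0 _ (τ * s)]; simp
      have e2 : F q (a, -s) = F p (a, s) := by
        rw [hq, hp]; exact (F_refl _ _ _ _).symm
      rw [e1, e2]; linarith
  have hfin := hcond (c, 0) hcM (a, s) hyM (a, -s) hzM hxoε hyoε hzoε p q hmidp hmidq
  rw [d_eq hpM' hqM, d_eq hyM hzM] at hfin
  -- lower bound for `F p q`
  have hlow : 7 * (τ * s) ≤ F p q := by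
    have hM2 : (c + τ * (a - c)) ^ 2 + (τ * s) ^ 2 < 1 := by
      have := hpM'
      unfold M at this
      simpa [hp] using this
    have hge : 3 / 5 ≤ c + τ * (a - c) := by
      have := mul_le_mul_of_nonneg_right hτ.1 hac.le
      linarith
    have hwle : Real.sqrt (1 - (c + τ * (a - c)) ^ 2) ≤ 4 / 5 := by
      rw [Real.sqrt_le_left (by norm_num)]
      have := pow_le_pow_left₀ (by norm_num) hge 2
      linarith
    have := F_vertical_lower (r := c + τ * (a - c)) (u := τ * s) (w := 4 / 5) (by positivity) hM2 hwle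
    have e : 4 * (τ * s) / (4 / 5) + 2 * (τ * s) = 7 * (τ * s) := by ring
    rw [e] at this
    exact this
  have hup : F (a, s) (a, -s) ≤ 4 * s / (w - s) + 2 * s := by
    have hM2 : a ^ 2 + s ^ 2 < 1 := by
      have := hyM
      unfold M at this
      simpa using this
    exact F_vertical_upper hs0.le hM2
  have hτge : 14 * τ₁ * s ≤ 14 * (τ * s) := by
    have := mul_le_mul_of_nonneg_right hτ.1 hs0.le
    linarith
  -- final contradiction
  have hws : 2 * (2 - 11 / 8 * δ) / (5 + 11 / 8 * δ) < w - s := by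
    rw [hg] at hs2; linarith
  have hpos5 : 0 < 5 + 11 / 8 * δ := by positivity
  have hwspos : 0 < w - s := lt_trans (by positivity) hws
  have hfinal : 4 / (w - s) + 2 < 14 * τ₁ := by
    have h1 : 4 / (w - s) < 4 / (2 * (2 - 11 / 8 * δ) / (5 + 11 / 8 * δ)) :=
      div_lt_div_of_pos_left (by norm_num) (by positivity) hws
    have h2 : 4 / (2 * (2 - 11 / 8 * δ) / (5 + 11 / 8 * δ)) + 2 = 14 * τ₁ := by
      rw [hτ₁]
      have hsum : 5 + 11 / 8 * δ = 7 - (2 - 11 / 8 * δ) := by ring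
      rw [hsum] at hpos5 ⊢
      clear_value w
      generalize 2 - 11 / 8 * δ = DD at hden hpos5 ⊢
      field_simp
      ring
    linarith
  have h4s : 4 * s / (w - s) + 2 * s = (4 / (w - s) + 2) * s := by ring
  have : (4 / (w - s) + 2) * s < 14 * τ₁ * s := mul_lt_mul_of_pos_right hfinal hs0
  linarith

end Pool.Agent.H64.TaxiDisk
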