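import Mathlib

/-!
General topology: local representations of paths, the grid lemma (van Kampen type argument) and
the one-dimensional subdivision lemma.
-/

namespace Pool.Agent.H64.VK

open Set unitInterval Topology

/-- A multiplicative function on paths which is invariant under small homotopies, with respect
to a family of sets `W`. The order of multiplication is the one of endomorphisms in the
fundamental groupoid in Mathlib. -/
structure LocalRep (X : Type*) [TopologicalSpace X] {ι : Type*} (W : ι → Set X)
    (G : Type*) [Group G] where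
  val : ∀ {x y : X}, Path x y → G
  homotopic : ∀ (i : ι) {x y : X} (p q : Path x y) (F : p.Homotopy q),
    (∀ s, F s ∈ W i) → val p = val q
  trans : ∀ (i : ι) {x y z : X} (p : Path x y) (q : Path y z),
    (∀ t, p t ∈ W i) → (∀ t, q t ∈ W i) → val (p.trans q) = val q * val p

variable {X : Type*} [TopologicalSpace X] {ι : Type*} {W : ι → Set X} {G : Type*} [Group G]

/-- Straight path in the square. -/
noncomputable def line2 (u v : I × I) : Path u v where
  toFun s := (Icc.convexComb u.1 v.1 s, Icc.convexComb u.2 v.2 s)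
  continuous_toFun := (Icc.continuous_convexComb _ _).prodMk (Icc.continuous_convexComb _ _)
  source' := by simp
  target' := by simp

lemma line2_apply (u v : I × I) (s : I) :
    line2 u v s = (Icc.convexComb u.1 v.1 s, Icc.convexComb u.2 v.2 s) := rfl

lemma convexComb_mem {a b x y : I} (hx : x ∈ Icc a b) (hy : y ∈ Icc a b) (s : I) :
    Icc.convexComb x y s ∈ Icc a b := by
  have hs0 := s.2.1
  have hs1 := s.2.2
  have h1 : (a : ℝ) ≤ x := hx.1
  have h2 : (x : ℝ) ≤ b := hx.2
  have h3 : (a : ℝ) ≤ y := hy.1
  have h4 : (y : ℝ) ≤ b := hy.2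
  constructor
  · rw [← Subtype.coe_le_coe, Icc.coe_convexComb]
    nlinarith
  · rw [← Subtype.coe_le_coe, Icc.coe_convexComb]
    nlinarith

/-- Straight line homotopy in the square. -/
noncomputable def sqHomotopy {u v : I × I} (p q : Path u v) : p.Homotopy q where
  toFun x := (Icc.convexComb (p x.2).1 (q x.2).1 x.1, Icc.convexComb (p x.2).2 (q x.2).2 x.1)
  continuous_toFun := by
    refine Continuous.prodMk ?_ ?_
    · exact Icc.continuous_convexComb_prod.comp
        (Continuous.prodMk (by fun_prop) (Continuous.prodMk (by fun_prop) (by fun_prop)))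
    · exact Icc.continuous_convexComb_prod.comp
        (Continuous.prodMk (by fun_prop) (Continuous.prodMk (by fun_prop) (by fun_prop)))
  map_zero_left := by intro x; simp
  map_one_left := by intro x; simp
  prop' := by
    intro t x hx
    rcases hx with rfl | rfl <;> simp

lemma sqHomotopy_mem {u v : I × I} (p q : Path u v) {a b a' b' : I}
    (hp : ∀ t, p t ∈ Icc a b ×ˢ Icc a' b') (hq : ∀ t, q t ∈ Icc a b ×ˢ Icc a' b') (s : I × I) :
    sqHomotopy p q s ∈ Icc a b ×ˢ Icc a' b' :=
  ⟨convexComb_mem (hp s.2).1 (hq s.2).1 _, convexComb_mem (hp s.2).2 (hq s.2).2 _⟩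

namespace LocalRep

variable (D : LocalRep X W G)

lemma val_cast {x y x' y' : X} (p : Path x y) (hx : x' = x) (hy : y' = y) :
    D.val (p.cast hx hy) = D.val p := by
  subst hx; subst hy; rfl

lemma val_refl (i : ι) {x : X} (hx : x ∈ W i) : D.val (Path.refl x) = 1 := by
  have h := D.trans i (Path.refl x) (Path.refl x) (fun _ => hx) (fun _ => hx)
  rw [Path.refl_trans_refl] at h
  have h2 : D.val (Path.refl x) * 1 = D.val (Path.refl x) * D.val (Path.refl x) := by
    rw [mul_one]; exact h
  exact (mul_left_cancel h2).symm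

lemma val_const (i : ι) {x y z : X} (hx : z ∈ W i) (p : Path x y) (hp : ∀ t, p t = z) :
    D.val p = 1 := by
  have h0 : x = z := by rw [← hp 0, p.source]
  have h1 : y = z := by rw [← hp 1, p.target]
  subst h0
  subst h1
  have : p = Path.refl _ := by ext t; exact hp t
  rw [this]
  exact D.val_refl i hx

/-- The value on a straight segment. -/
noncomputable def g (c : C(I × I, X)) (u v : I × I) : G := D.val ((line2 u v).map c.continuous)

lemma cocycle (c : C(I × I, X)) (i : ι) {a b a' b' : I}
    (hR : ∀ u ∈ Icc a b ×ˢ Icc a' b', c u ∈ W i) {u v w : I × I}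
    (hu : u ∈ Icc a b ×ˢ Icc a' b') (hv : v ∈ Icc a b ×ˢ Icc a' b')
    (hw : w ∈ Icc a b ×ˢ Icc a' b') : D.g c u w = D.g c v w * D.g c u v := by
  have hl : ∀ {p q : I × I}, p ∈ Icc a b ×ˢ Icc a' b' → q ∈ Icc a b ×ˢ Icc a' b' →
      ∀ t, line2 p q t ∈ Icc a b ×ˢ Icc a' b' := by
    intro p q hp hq t
    exact ⟨convexComb_mem hp.1 hq.1 t, convexComb_mem hp.2 hq.2 t⟩
  unfold g
  rw [← D.trans i _ _ (fun t => hR _ (hl hu hv t)) (fun t => hR _ (hl hv hw t))]
  rw [← Path.map_trans]
  refine D.homotopic i _ _ ((sqHomotopy (line2 u w) ((line2 u v).trans (line2 v w))).map c) ?_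
  intro s
  refine hR _ (sqHomotopy_mem _ _ (hl hu hw) ?_ s)
  intro t
  have : (line2 u v).trans (line2 v w) t ∈ range ((line2 u v).trans (line2 v w)) := ⟨t, rfl⟩
  rw [Path.trans_range] at this
  rcases this with ⟨s', hs'⟩ | ⟨s', hs'⟩
  · rw [← hs']; exact hl hu hv s'
  · rw [← hs']; exact hl hv hw s'

end LocalRep

/-- The product of the values on the first `n` horizontal edges. -/
noncomputable def rowProd (D : LocalRep X W G) (c : C(I × I, X)) (t : ℕ → I) (s : I) : ℕ → G
  | 0 => 1
  | n + 1 => D.g c (s, t n) (s, t (n + 1)) * rowProd D c t s n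

/-- The grid lemma. A path contained in some `W i` that is null-homotopic in `X` has trivial value,
if the `W i` form an open cover. -/
theorem grid (D : LocalRep X W G) (hopen : ∀ i, IsOpen (W i)) (hcov : ∀ x, ∃ i, x ∈ W i)
    {b : X} (γ : Path b b) (i₀ : ι) (hγ : ∀ t, γ t ∈ W i₀)
    (hnull : γ.Homotopic (Path.refl b)) : D.val γ = 1 := by
  obtain ⟨F⟩ := hnull
  set c : C(I × I, X) := F.toContinuousMap with hc
  have hcF : ∀ s, c s = F s := fun _ => rfl
  obtain ⟨t, ht0, htm, ⟨N, hN⟩, hsub⟩ :=
    exists_monotone_Icc_subset_open_cover_unitInterval_prod_self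
      (c := fun i => c ⁻¹' (W i)) (fun i => (hopen i).preimage c.continuous)
      (fun x _ => by
        obtain ⟨i, hi⟩ := hcov (c x)
        exact mem_iUnion.mpr ⟨i, hi⟩)
  have hF0 : ∀ s, c (0, s) = γ s := fun s => F.map_zero_left s
  have hF1 : ∀ s, c (1, s) = b := fun s => F.map_one_left s
  have hFl : ∀ s, c (s, 0) = b := fun s => by
    have := F.source s; exact this
  have hFr : ∀ s, c (s, 1) = b := fun s => by
    have := F.target s; exact this
  -- ladder
  have ladder : ∀ m n : ℕ, rowProd D c t (t (m + 1)) n * D.g c (t m, t 0) (t (m + 1), t 0) =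
      D.g c (t m, t n) (t (m + 1), t n) * rowProd D c t (t m) n := by
    intro m n
    induction n with
    | zero => simp [rowProd]
    | succ n ih =>
      obtain ⟨i, hi⟩ := hsub m n
      have hm : t m ≤ t (m + 1) := htm (Nat.le_succ m)
      have hn : t n ≤ t (n + 1) := htm (Nat.le_succ n)
      have hR : ∀ u ∈ Icc (t m) (t (m + 1)) ×ˢ Icc (t n) (t (n + 1)), c u ∈ W i :=
        fun u hu => hi hu
      have p00 : (t m, t n) ∈ Icc (t m) (t (m + 1)) ×ˢ Icc (t n) (t (n + 1)) :=
        ⟨⟨le_rfl, hm⟩, ⟨le_rfl, hn⟩⟩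
      have p10 : (t (m + 1), t n) ∈ Icc (t m) (t (m + 1)) ×ˢ Icc (t n) (t (n + 1)) :=
        ⟨⟨hm, le_rfl⟩, ⟨le_rfl, hn⟩⟩
      have p01 : (t m, t (n + 1)) ∈ Icc (t m) (t (m + 1)) ×ˢ Icc (t n) (t (n + 1)) :=
        ⟨⟨le_rfl, hm⟩, ⟨hn, le_rfl⟩⟩
      have p11 : (t (m + 1), t (n + 1)) ∈ Icc (t m) (t (m + 1)) ×ˢ Icc (t n) (t (n + 1)) :=
        ⟨⟨hm, le_rfl⟩, ⟨hn, le_rfl⟩⟩
      have e1 := D.cocycle c i hR p00 p10 p11
      have e2 := D.cocycle c i hR p00 p01 p11
      simp only [rowProd]
      rw [mul_assoc, ih, ← mul_assoc, ← e1, e2, mul_assoc]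
  obtain ⟨ib, hib⟩ := hcov b
  -- vertical edges on the left and right are constant
  have hleft : ∀ m, D.g c (t m, t 0) (t (m + 1), t 0) = 1 := by
    intro m
    refine D.val_const ib hib _ ?_
    intro s
    rw [Path.map_coe]
    simp only [Function.comp, line2_apply, ht0, Icc.convexComb_eq]
    exact hFl _
  have hright : ∀ m, D.g c (t m, t N) (t (m + 1), t N) = 1 := by
    intro m
    refine D.val_const ib hib _ ?_
    intro s
    rw [Path.map_coe]
    simp only [Function.comp, line2_apply, hN N le_rfl, Icc.convexComb_eq]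
    exact hFr _
  have hrows : ∀ m, rowProd D c t (t m) N = rowProd D c t (t 0) N := by
    intro m
    induction m with
    | zero => rfl
    | succ m ih =>
      have := ladder m N
      rw [hleft, hright, mul_one, one_mul] at this
      rw [this, ih]
  -- top row trivial
  have htop : rowProd D c t (t N) N = 1 := by
    have : ∀ n, rowProd D c t (t N) n = 1 := by
      intro n
      induction n with
      | zero => rfl
      | succ n ih =>
        simp only [rowProd]
        rw [ih, mul_one]
        refine D.val_const ib hib _ ?_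
        intro s
        rw [Path.map_coe]
        simp only [Function.comp, line2_apply, hN N le_rfl, Icc.convexComb_eq]
        exact hF1 _
    exact this N
  -- bottom row
  have hbot : ∀ n, rowProd D c t (t 0) n = D.g c (0, 0) (0, t n) := by
    intro n
    induction n with
    | zero =>
      simp only [rowProd]
      symm
      refine D.val_const ib hib _ ?_
      intro s
      rw [Path.map_coe]
      simp only [Function.comp, line2_apply, ht0, Icc.convexComb_eq]
      exact hFl _
    | succ n ih =>
      simp only [rowProd]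
      rw [ih, ht0]
      have hR : ∀ u ∈ Icc (0 : I) 0 ×ˢ Icc (0 : I) 1, c u ∈ W i₀ := by
        intro u hu
        have h0 : u.1 = 0 := le_antisymm hu.1.2 hu.1.1
        have : u = (0, u.2) := by rw [← h0]
        rw [this, hF0]
        exact hγ _
      have hmem : ∀ s : I, ((0 : I), s) ∈ Icc (0 : I) 0 ×ˢ Icc (0 : I) 1 := fun s =>
        ⟨⟨le_rfl, le_rfl⟩, ⟨s.2.1, s.2.2⟩⟩
      rw [← D.cocycle c i₀ hR (hmem 0) (hmem (t n)) (hmem (t (n + 1)))]
  have hfin : D.g c (0, 0) (0, t N) = D.val γ := by
    unfold LocalRep.g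
    rw [hN N le_rfl]
    have : (line2 ((0 : I), (0 : I)) ((0 : I), (1 : I))).map c.continuous =
        γ.cast (hFl 0) (hFr 0) := by
      ext s
      rw [Path.map_coe]
      simp only [Function.comp, line2_apply, Icc.convexComb_eq, Icc.convexComb_zero_one,
        Path.cast_coe]
      exact hF0 s
    rw [this]
    exact D.val_cast γ _ _
  rw [← hfin, ← hbot N, ← hrows N, htop]

/-- A global representation of the paths of `X`. -/
abbrev Rep (X : Type*) [TopologicalSpace X] (G : Type*) [Group G] :=
  LocalRep X (fun _ : Unit => (univ : Set X)) G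

namespace Rep

variable (D : Rep X G)

lemma val_homotopic {x y : X} {p q : Path x y} (h : p.Homotopic q) : D.val p = D.val q := by
  obtain ⟨F⟩ := h
  exact D.homotopic () p q F (fun _ => trivial)

lemma val_trans {x y z : X} (p : Path x y) (q : Path y z) :
    D.val (p.trans q) = D.val q * D.val p :=
  D.trans () p q (fun _ => trivial) (fun _ => trivial)

lemma val_refl' (x : X) : D.val (Path.refl x) = 1 := D.val_refl () trivial

lemma val_symm {x y : X} (p : Path x y) : D.val p.symm = (D.val p)⁻¹ := by
  have h1 := D.val_trans p p.symm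
  have h2 : (p.trans p.symm).Homotopic (Path.refl x) := Path.Homotopic.trans_symm p
  have h3 := val_homotopic D h2
  rw [h1, val_refl'] at h3
  exact eq_inv_of_mul_eq_one_left h3

/-- Any two paths in the square with the same end points have the same image value. -/
lemma val_sq {u v : I × I} (p q : Path u v) (c : C(I × I, X)) :
    D.val (p.map c.continuous) = D.val (q.map c.continuous) :=
  val_homotopic D ⟨(sqHomotopy p q).map c⟩

/-- One-dimensional subdivision lemma. -/
theorem mem_of_cover {κ : Type*} (V : κ → Set X) (hV : ∀ i, IsOpen (V i)) (Γ : Subgroup G)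
    (hΓ : ∀ i {x y : X} (p : Path x y), (∀ t, p t ∈ V i) → D.val p ∈ Γ)
    {x y : X} (γ : Path x y) (hγ : ∀ t, ∃ i, γ t ∈ V i) : D.val γ ∈ Γ := by
  obtain ⟨t, ht0, htm, ⟨N, hN⟩, hsub⟩ :=
    exists_monotone_Icc_subset_open_cover_unitInterval
      (c := fun i => γ ⁻¹' (V i)) (fun i => (hV i).preimage γ.continuous)
      (fun x _ => by
        obtain ⟨i, hi⟩ := hγ x
        exact mem_iUnion.mpr ⟨i, hi⟩)
  have key : ∀ n, D.val (γ.subpath 0 (t n)) ∈ Γ := by
    intro n
    induction n with
    | zero =>
      rw [ht0, Path.subpath_self, val_refl']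
      exact Γ.one_mem
    | succ n ih =>
      have h1 : D.val (γ.subpath 0 (t (n + 1))) =
          D.val (γ.subpath (t n) (t (n + 1))) * D.val (γ.subpath 0 (t n)) := by
        rw [← val_trans]
        exact (val_homotopic D ⟨Path.Homotopy.subpathTransSubpath γ 0 (t n) (t (n + 1))⟩).symm
      rw [h1]
      refine Γ.mul_mem ?_ ih
      obtain ⟨i, hi⟩ := hsub n
      refine hΓ i _ ?_
      intro s
      have : γ.subpath (t n) (t (n + 1)) s ∈ range (γ.subpath (t n) (t (n + 1))) := ⟨s, rfl⟩
      rw [Path.range_subpath_of_le _ _ _ (htm (Nat.le_succ n))] at this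
      obtain ⟨s', hs', hs''⟩ := this
      rw [← hs'']
      exact hi hs'
  have h2 := key N
  rw [hN N le_rfl, Path.subpath_zero_one, D.val_cast] at h2
  exact h2

/-- The representation into the fundamental group defined by a family of paths from the base
point. -/
noncomputable def ofPaths {b : X} (κ : ∀ x, Path b x) : Rep X (FundamentalGroup X b) where
  val {x y} p := FundamentalGroup.fromPath
    (Path.Homotopic.Quotient.mk (((κ x).trans p).trans (κ y).symm))
  homotopic := by
    intro _ x y p q F _
    apply congrArg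
    rw [Path.Homotopic.Quotient.eq]
    exact Path.Homotopic.hcomp (Path.Homotopic.hcomp (Path.Homotopic.refl _) ⟨F⟩)
      (Path.Homotopic.refl _)
  trans := by
    intro _ x y z p q _ _
    rw [FundamentalGroup.mul_def]
    simp only [Path.Homotopic.Quotient.mk_trans, Path.Homotopic.Quotient.mk_symm]
    rw [Path.Homotopic.Quotient.trans_assoc, Path.Homotopic.Quotient.trans_assoc]
    rw [Path.Homotopic.Quotient.trans_assoc, Path.Homotopic.Quotient.trans_assoc]
    rw [Path.Homotopic.Quotient.trans_assoc]
    rw [← Path.Homotopic.Quotient.trans_assoc (Path.Homotopic.Quotient.mk (κ y)).symm]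
    simp

end Rep

end Pool.Agent.H64.VK
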