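import Pool.Agent.H64.VK

/-!
Simple connectivity of the three-sphere and contractibility of spherical caps.
-/

namespace Pool.Agent.H64.VK

open Set unitInterval Topology

variable {X : Type*} [TopologicalSpace X]

/-- Codomain restriction of a path. -/
def cod {W : Set X} {x y : X} (p : Path x y) (h : ∀ t, p t ∈ W) :
    Path (⟨x, by simpa using h 0⟩ : W) (⟨y, by simpa using h 1⟩ : W) where
  toFun t := ⟨p t, h t⟩
  continuous_toFun := p.continuous.subtype_mk _
  source' := by ext; simp
  target' := by ext; simp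

/-- In a simply connected subspace, paths with the same end points are homotopic within it. -/
lemma exists_homotopy_of_simplyConnected {W : Set X} [SimplyConnectedSpace W] {x y : X}
    (p q : Path x y) (hp : ∀ t, p t ∈ W) (hq : ∀ t, q t ∈ W) :
    ∃ F : p.Homotopy q, ∀ s, F s ∈ W := by
  obtain ⟨F⟩ := SimplyConnectedSpace.paths_homotopic (cod p hp) (cod q hq)
  refine ⟨(F.map ⟨Subtype.val, continuous_subtype_val⟩).cast ?_ ?_, ?_⟩
  · ext t; rfl
  · ext t; rfl
  · intro s
    exact (F s).2

/-- A space covered by two open sets, in each of which paths are unique up to homotopy in the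
space, with path connected intersection, has trivial loops at any point of the intersection. -/
theorem null_of_cover {W : Bool → Set X} (hopen : ∀ i, IsOpen (W i)) (hcov : ∀ x, ∃ i, x ∈ W i)
    (hsc : ∀ i {x y : X} (p q : Path x y), (∀ t, p t ∈ W i) → (∀ t, q t ∈ W i) → p.Homotopic q)
    {b : X} (hj : ∀ i, ∀ x ∈ W i, JoinedIn (W i) b x)
    (hb : ∀ i, b ∈ W i)
    (hint : ∀ x, (∀ i, x ∈ W i) → JoinedIn (⋂ i, W i) b x) (γ : Path b b) :
    γ.Homotopic (Path.refl b) := by
  choose i hi using hcov
  have hj' : ∀ x, ∃ p : Path b x, ∀ t, p t ∈ W (i x) := fun x => by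
    obtain ⟨p, hp⟩ := hj (i x) x (hi x)
    exact ⟨p, hp⟩
  choose κ hκ using hj'
  -- κ x is homotopic to any path from b to x in any `W j`
  have hκ' : ∀ j x (p : Path b x), (∀ t, p t ∈ W j) → (κ x).Homotopic p := by
    intro j x p hp
    by_cases hji : j = i x
    · subst hji; exact hsc _ _ _ (hκ x) hp
    · have hxj : x ∈ W j := by have := hp 1; simpa using this
      have hall : ∀ k, x ∈ W k := by
        intro k
        have h1 := hi x
        have h2 : k = i x ∨ k = j := by
          revert hji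
          generalize i x = a
          cases k <;> cases j <;> cases a <;> simp
        rcases h2 with h2 | h2
        · rw [h2]; exact h1
        · rw [h2]; exact hxj
      obtain ⟨r, hr⟩ := hint x hall
      have h1 : (κ x).Homotopic r := hsc (i x) _ _ (hκ x) (fun t => mem_iInter.mp (hr t) _)
      have h2 : r.Homotopic p := hsc j _ _ (fun t => mem_iInter.mp (hr t) _) hp
      exact h1.trans h2
  let D := Rep.ofPaths κ
  have hsmall : ∀ j {x y : X} (p : Path x y), (∀ t, p t ∈ W j) → D.val p ∈
      (⊥ : Subgroup (FundamentalGroup X b)) := by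
    intro j x y p hp
    have hx : x ∈ W j := by have := hp 0; simpa using this
    obtain ⟨q, hq⟩ := hj j x hx
    have h1 : (κ x).Homotopic q := hκ' j x q hq
    have hqp : ∀ t, (q.trans p) t ∈ W j := by
      intro t
      have : (q.trans p) t ∈ range (q.trans p) := ⟨t, rfl⟩
      rw [Path.trans_range] at this
      rcases this with ⟨s, hs⟩ | ⟨s, hs⟩
      · rw [← hs]; exact hq s
      · rw [← hs]; exact hp s
    have h2 : (κ y).Homotopic (q.trans p) := hκ' j y _ hqp
    rw [Subgroup.mem_bot]
    change FundamentalGroup.fromPath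
      (Path.Homotopic.Quotient.mk (((κ x).trans p).trans (κ y).symm)) = 1
    have h3 : (((κ x).trans p).trans (κ y).symm).Homotopic (Path.refl b) := by
      refine Path.Homotopic.trans (Path.Homotopic.hcomp
        (Path.Homotopic.hcomp h1 (Path.Homotopic.refl p)) (Path.Homotopic.symm₂ h2)) ?_
      exact Path.Homotopic.trans_symm _
    have h4 := Path.Homotopic.Quotient.eq.mpr h3
    rw [h4]
    rfl
  have hfin := Rep.mem_of_cover D W hopen ⊥ hsmall γ (fun t => ⟨i (γ t), hi (γ t)⟩)
  rw [Subgroup.mem_bot] at hfin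
  have hκb : (κ b).Homotopic (Path.refl b) := hκ' (i b) b (Path.refl b) (fun _ => hb _)
  have h5 : Path.Homotopic.Quotient.mk (((κ b).trans γ).trans (κ b).symm) =
      Path.Homotopic.Quotient.refl b := hfin
  have h6 : Path.Homotopic.Quotient.mk (((κ b).trans γ).trans (κ b).symm) =
      Path.Homotopic.Quotient.mk γ := by
    have h7 : Path.Homotopic.Quotient.mk (κ b) = Path.Homotopic.Quotient.refl b :=
      Path.Homotopic.Quotient.eq.mpr hκb
    simp only [Path.Homotopic.Quotient.mk_trans, Path.Homotopic.Quotient.mk_symm]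
    rw [h7]
    rw [Path.Homotopic.Quotient.refl_trans]
    have : (Path.Homotopic.Quotient.refl b).symm = Path.Homotopic.Quotient.refl b := by
      rw [← Path.Homotopic.Quotient.mk_refl, ← Path.Homotopic.Quotient.mk_symm, Path.refl_symm]
    rw [this, Path.Homotopic.Quotient.trans_refl]
  rw [h6] at h5
  exact Path.Homotopic.Quotient.eq.mp h5

/-! ### The sphere -/

/-- The ambient Euclidean space. -/
abbrev E4 := EuclideanSpace ℝ (Fin 4)

/-- The three-sphere. -/
abbrev S3 := Metric.sphere (0 : E4) 1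

/-- The open cap of height `a` around `x`. -/
def cap (x : S3) (a : ℝ) : Set S3 := {y | a < inner ℝ (x : E4) (y : E4)}

lemma isOpen_cap (x : S3) (a : ℝ) : IsOpen (cap x a) := by
  unfold cap
  exact isOpen_lt continuous_const (by fun_prop)

lemma norm_S3 (x : S3) : ‖(x : E4)‖ = 1 := by
  have := x.2
  simp

lemma inner_self_S3 (x : S3) : inner ℝ (x : E4) (x : E4) = 1 := by
  rw [real_inner_self_eq_norm_sq, norm_S3]; norm_num

lemma inner_le_one (x y : S3) : inner ℝ (x : E4) (y : E4) ≤ 1 := by
  have := real_inner_le_norm (x : E4) (y : E4)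
  rwa [norm_S3, norm_S3, one_mul] at this

lemma mem_cap_self (x : S3) {a : ℝ} (ha : a < 1) : x ∈ cap x a := by
  unfold cap
  rw [mem_ofPred_eq, inner_self_S3]
  exact ha

/-- convex combination -/
def comb (x y : S3) (s : ℝ) : E4 := (1 - s) • (y : E4) + s • (x : E4)

lemma inner_comb (x y : S3) (s : ℝ) :
    inner ℝ (x : E4) (comb x y s) = (1 - s) * inner ℝ (x : E4) (y : E4) + s := by
  unfold comb
  rw [inner_add_right, inner_smul_right, inner_smul_right, inner_self_S3, mul_one]

lemma norm_comb_sq (x y : S3) (s : ℝ) :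
    ‖comb x y s‖ ^ 2 = (1 - s) ^ 2 + s ^ 2 + 2 * s * (1 - s) * inner ℝ (x : E4) (y : E4) := by
  unfold comb
  rw [norm_add_sq_real, norm_smul, norm_smul, norm_S3, norm_S3, inner_smul_left, inner_smul_right,
    real_inner_comm]
  simp only [Real.norm_eq_abs, mul_one, sq_abs, RCLike.conj_to_real]
  ring

lemma comb_ne_zero (x y : S3) {s : ℝ} (hs0 : 0 ≤ s) (hs1 : s ≤ 1)
    (h : -1 < inner ℝ (x : E4) (y : E4)) : comb x y s ≠ 0 := by
  intro h0
  have h1 := norm_comb_sq x y s
  rw [h0, norm_zero] at h1
  set u := inner ℝ (x : E4) (y : E4) with hu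
  rcases hs0.eq_or_lt with h2 | h2
  · rw [← h2] at h1; norm_num at h1
  rcases hs1.eq_or_lt with h3 | h3
  · rw [h3] at h1; norm_num at h1
  have h4 : 0 < s * (1 - s) := mul_pos h2 (by linarith)
  nlinarith [sq_nonneg (1 - 2 * s)]

lemma norm_comb_le (x y : S3) {s : ℝ} (hs0 : 0 ≤ s) (hs1 : s ≤ 1) : ‖comb x y s‖ ≤ 1 := by
  unfold comb
  refine (norm_add_le _ _).trans ?_
  rw [norm_smul, norm_smul, norm_S3, norm_S3, Real.norm_eq_abs, Real.norm_eq_abs,
    abs_of_nonneg hs0, abs_of_nonneg (by linarith)]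
  linarith

lemma inner_normalized (x y : S3) {s a : ℝ} (hs0 : 0 ≤ s) (hs1 : s ≤ 1) (ha : -1 ≤ a)
    (h : a < inner ℝ (x : E4) (y : E4)) :
    a < inner ℝ (x : E4) (‖comb x y s‖⁻¹ • comb x y s) := by
  rw [inner_smul_right, inner_comb]
  set u := inner ℝ (x : E4) (y : E4) with hu
  have hne : comb x y s ≠ 0 := comb_ne_zero x y hs0 hs1 (by linarith)
  have hpos : 0 < ‖comb x y s‖ := norm_pos_iff.mpr hne
  have hle : ‖comb x y s‖ ≤ 1 := norm_comb_le x y hs0 hs1
  have hsq := norm_comb_sq x y s
  rw [← hu] at hsq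
  have hu1 : u ≤ 1 := inner_le_one x y
  set r := ‖comb x y s‖ with hr
  refine lt_of_lt_of_le h ?_
  rw [inv_mul_eq_div, le_div_iff₀ hpos]
  -- goal: u * r ≤ (1 - s) * u + s
  rcases le_or_gt 0 u with h0 | h0
  · nlinarith
  · rcases le_or_gt 0 ((1 - s) * u + s) with h1 | h1
    · nlinarith
    · -- both negative: compare squares
      have hs1' : 0 ≤ 1 - s := by linarith
      have h2 : ((1 - s) * u + s) ^ 2 ≤ (u * r) ^ 2 := by
        rw [mul_pow, hsq]
        have key : u ^ 2 * ((1 - s) ^ 2 + s ^ 2 + 2 * s * (1 - s) * u) - ((1 - s) * u + s) ^ 2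
            = (1 - u ^ 2) * (s * (-((1 - s) * u + s) + (- ((1 - s) * u)))) := by ring
        have hu2 : 0 ≤ 1 - u ^ 2 := by nlinarith
        have h3 : 0 ≤ -((1 - s) * u) := by nlinarith
        have h4 : 0 ≤ (1 - u ^ 2) * (s * (-((1 - s) * u + s) + (- ((1 - s) * u)))) :=
          mul_nonneg hu2 (mul_nonneg hs0 (by linarith))
        linarith
      have h3 : u * r ≤ 0 := by nlinarith
      by_contra hcon
      rw [not_le] at hcon
      have h4 : 0 < ((1 - s) * u + s - u * r) * ((1 - s) * u + s + u * r) :=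
        mul_pos_of_neg_of_neg (by linarith) (by linarith)
      have h5 : ((1 - s) * u + s - u * r) * ((1 - s) * u + s + u * r)
          = ((1 - s) * u + s) ^ 2 - (u * r) ^ 2 := by ring
      linarith

end Pool.Agent.H64.VK
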